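import Pool.Agent.H779R2.To.TDef

set_option autoImplicit false

namespace Pool.Agent.H779R2.To

open Filter Topology

variable {V Z Γ : Type*} [NormedAddCommGroup V] [NormedSpace ℝ V] [MetricSpace Z]
    [AddCommGroup Γ]

section aux

variable {D : TDat V Z Γ} (C : Coo D)

/-- the automorphism in coordinates -/
noncomputable def cfE (ψ : Γ ≃+ Γ) : (Fin C.m → ℤ) ≃ₗ[ℤ] (Fin C.m → ℤ) :=
  (C.b.symm.trans (ψ.trans C.b)).toIntLinearEquiv

/-- the matrix of the automorphism -/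
noncomputable def cfA (ψ : Γ ≃+ Γ) : Matrix (Fin C.m) (Fin C.m) ℤ :=
  LinearMap.toMatrix' ((cfE C ψ : (Fin C.m → ℤ) ≃ₗ[ℤ] (Fin C.m → ℤ)) :
    (Fin C.m → ℤ) →ₗ[ℤ] (Fin C.m → ℤ))

theorem cfA_det (ψ : Γ ≃+ Γ) : IsUnit (cfA C ψ).det := by
  unfold cfA
  rw [LinearMap.det_toMatrix']
  exact LinearEquiv.isUnit_det' _

theorem cfA_b (ψ : Γ ≃+ Γ) (a : Γ) : (cfA C ψ).mulVec (C.b a) = C.b (ψ a) := by
  unfold cfA
  rw [LinearMap.toMatrix'_mulVec]
  show C.b (ψ (C.b.symm (C.b a))) = _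
  rw [AddEquiv.symm_apply_apply]

/-- the real linear map of the automorphism -/
noncomputable def cfP (ψ : Γ ≃+ Γ) : (Fin C.m → ℝ) →ₗ[ℝ] (Fin C.m → ℝ) :=
  Matrix.mulVecLin ((cfA C ψ).map (Int.cast : ℤ → ℝ))

theorem cfP_ι (ψ : Γ ≃+ Γ) (a : Γ) : cfP C ψ (C.ι a) = C.ι (ψ a) := by
  funext i
  have h := RingHom.map_mulVec (Int.castRingHom ℝ) (cfA C ψ) (C.b a) i
  rw [cfA_b] at h
  exact h.symm

theorem cfP_iter (ψ : Γ ≃+ Γ) (n : ℕ) (a : Γ) : (cfP C ψ)^[n] (C.ι a) = C.ι (ψ^[n] a) := by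
  have h : Function.Semiconj C.ι ψ (cfP C ψ) := fun a => (cfP_ι C ψ a).symm
  exact ((h.iterate_right n) a).symm

theorem cf_single (i : Fin C.m) :
    C.ι (C.b.symm (Pi.single i 1)) = (Pi.single i 1 : Fin C.m → ℝ) := by
  funext j
  unfold Coo.ι
  rw [AddEquiv.apply_symm_apply]
  by_cases hj : j = i
  · subst hj
    rw [Pi.single_eq_same, Pi.single_eq_same, Int.cast_one]
  · rw [Pi.single_eq_of_ne hj, Pi.single_eq_of_ne hj, Int.cast_zero]

theorem cfΦ {ψ : Γ ≃+ Γ} {n : ℕ} (hψ : ∀ a, ψ^[n] a = D.φ a) (v : Fin C.m → ℝ) :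
    C.Φ v = (cfP C ψ)^[n] v := by
  have h : (C.Φ : (Fin C.m → ℝ) →ₗ[ℝ] (Fin C.m → ℝ)) = (cfP C ψ) ^ n := by
    refine (Pi.basisFun ℝ (Fin C.m)).ext fun i => ?_
    rw [Pi.basisFun_apply, ← cf_single C i]
    rw [Module.End.pow_apply, cfP_iter, hψ]
    exact C.Φ_b _
  have h2 := congrArg (fun L : (Fin C.m → ℝ) →ₗ[ℝ] (Fin C.m → ℝ) => L v) h
  simp only [Module.End.pow_apply] at h2
  exact h2

/-- complex eigenvectors of the integer matrix are excluded on the unit circle -/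
theorem cf_hyp (hyp : ∀ v : Fin C.m → ℝ,
      (∃ M : ℝ, ∀ n : ℕ, ‖C.Φ^[n] v‖ ≤ M ∧ ‖C.Φ.symm^[n] v‖ ≤ M) → v = 0)
    {ψ : Γ ≃+ Γ} {n : ℕ} (hψ : ∀ a, ψ^[n] a = D.φ a) : HypMat (cfA C ψ) := by
  intro μ hμ hroot
  have hdet : (Matrix.scalar (Fin C.m) μ - (cfA C ψ).map (Int.castRingHom ℂ)).det = 0 := by
    rw [← Matrix.eval_charpoly]
    exact hroot
  rw [← Matrix.exists_mulVec_eq_zero_iff] at hdet
  obtain ⟨z, hz0, hz⟩ := hdet
  have hz1 : ∀ i, ∑ j, ((cfA C ψ i j : ℤ) : ℂ) * z j = μ * z i := by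
    intro i
    have h1 := congrFun hz i
    rw [Matrix.sub_mulVec, Pi.sub_apply, Pi.zero_apply, sub_eq_zero] at h1
    have h2 : (Matrix.scalar (Fin C.m) μ).mulVec z i = μ * z i := by
      rw [Matrix.scalar_apply, Matrix.mulVec_diagonal]
    rw [h2] at h1
    exact h1.symm
  let R : ℂ → (Fin C.m → ℝ) := fun ζ i => (ζ * z i).re
  have hR1 : ∀ ζ, cfP C ψ (R ζ) = R (μ * ζ) := by
    intro ζ
    funext i
    show ∑ j, ((cfA C ψ i j : ℤ) : ℝ) * (ζ * z j).re = (μ * ζ * z i).re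
    have h3 : μ * ζ * z i = ∑ j, ((cfA C ψ i j : ℤ) : ℂ) * (ζ * z j) := by
      calc μ * ζ * z i = ζ * (μ * z i) := by ring
        _ = ζ * ∑ j, ((cfA C ψ i j : ℤ) : ℂ) * z j := by rw [hz1]
        _ = _ := by
          rw [Finset.mul_sum]
          exact Finset.sum_congr rfl fun j _ => by ring
    rw [h3, Complex.re_sum]
    refine Finset.sum_congr rfl fun j _ => ?_
    have h4 : ((cfA C ψ i j : ℤ) : ℂ) = (((cfA C ψ i j : ℤ) : ℝ) : ℂ) := by push_cast; rfl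
    rw [h4, Complex.re_ofReal_mul]
  have hR2 : ∀ (k : ℕ) ζ, (cfP C ψ)^[k] (R ζ) = R (μ ^ k * ζ) := by
    intro k
    induction k with
    | zero => intro ζ; simp
    | succ k ih =>
      intro ζ
      rw [Function.iterate_succ_apply, hR1, ih]
      congr 1
      ring
  have hμ0 : μ ≠ 0 := by
    intro h
    rw [h, norm_zero] at hμ
    exact zero_ne_one hμ
  have hR3 : ∀ ζ, C.Φ (R ζ) = R (μ ^ n * ζ) := fun ζ => by rw [cfΦ C hψ, hR2]
  have hR4 : ∀ ζ, C.Φ.symm (R ζ) = R ((μ ^ n)⁻¹ * ζ) := by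
    intro ζ
    rw [LinearEquiv.symm_apply_eq, hR3]
    congr 1
    rw [← mul_assoc, mul_inv_cancel₀ (pow_ne_zero n hμ0), one_mul]
  have hR5 : ∀ (k : ℕ) ζ, C.Φ^[k] (R ζ) = R ((μ ^ n) ^ k * ζ) := by
    intro k
    induction k with
    | zero => intro ζ; simp
    | succ k ih =>
      intro ζ
      rw [Function.iterate_succ_apply, hR3, ih]
      congr 1
      ring
  have hR6 : ∀ (k : ℕ) ζ, C.Φ.symm^[k] (R ζ) = R (((μ ^ n)⁻¹) ^ k * ζ) := by
    intro k
    induction k with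
    | zero => intro ζ; simp
    | succ k ih =>
      intro ζ
      rw [Function.iterate_succ_apply, hR4, ih]
      congr 1
      ring
  have hRn : ∀ ζ : ℂ, ‖R ζ‖ ≤ ‖ζ‖ * ‖z‖ := by
    intro ζ
    rw [pi_norm_le_iff_of_nonneg (by positivity)]
    intro i
    show ‖(ζ * z i).re‖ ≤ _
    rw [Real.norm_eq_abs]
    refine (Complex.abs_re_le_norm _).trans ?_
    rw [norm_mul]
    exact mul_le_mul_of_nonneg_left (norm_le_pi_norm z i) (norm_nonneg _)
  have hR0 : ∀ ζ : ℂ, R ζ = 0 := by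
    intro ζ
    refine hyp _ ⟨‖ζ‖ * ‖z‖, fun k => ⟨?_, ?_⟩⟩
    · rw [hR5]
      refine (hRn _).trans (le_of_eq ?_)
      rw [norm_mul, norm_pow, norm_pow, hμ, one_pow, one_pow, one_mul]
    · rw [hR6]
      refine (hRn _).trans (le_of_eq ?_)
      rw [norm_mul, norm_pow, norm_inv, norm_pow, hμ, one_pow, inv_one, one_pow, one_mul]
  apply hz0
  funext i
  have h1 : (1 * z i).re = 0 := congrFun (hR0 1) i
  have h2 : (Complex.I * z i).re = 0 := congrFun (hR0 Complex.I) i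
  rw [one_mul] at h1
  rw [Complex.I_mul_re, neg_eq_zero] at h2
  exact Complex.ext h1 h2

end aux

/-- U12: the conjugacy for a map `F` with a power equal to `gt` up to the action. -/
theorem conjF [FiniteDimensional ℝ V] {D : TDat V Z Γ} (C : Coo D) (h : V × Z ≃ₜ (Fin C.m → ℝ))
    (hact : ∀ a y, h (D.act a y) = h y + C.ι a) (hgt : ∀ y, h (D.gt y) = C.Φ (h y))
    (hyp : ∀ v : Fin C.m → ℝ,
      (∃ M : ℝ, ∀ n : ℕ, ‖C.Φ^[n] v‖ ≤ M ∧ ‖C.Φ.symm^[n] v‖ ≤ M) → v = 0)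
    (F : V × Z ≃ₜ V × Z) (ψ : Γ ≃+ Γ) (hF : ∀ a y, F (D.act a y) = D.act (ψ a) (F y))
    (n : ℕ) (hn : 1 ≤ n) (δ : Γ) (hδ : ∀ y, F^[n] y = D.act δ (D.gt y)) :
    ∃ (A : Matrix (Fin C.m) (Fin C.m) ℤ) (h' : V × Z ≃ₜ (Fin C.m → ℝ)), IsUnit A.det ∧
      HypMat A ∧ (∀ a y, h' (D.act a y) = h' y + C.ι a) ∧
      ∀ y, h' (F y) = (A.map (Int.cast : ℤ → ℝ)).mulVec (h' y) := by
  -- the power of `ψ`
  have hψ : ∀ a, ψ^[n] a = D.φ a := by
    intro a
    let y : V × Z := h.symm 0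
    have h1 : ∀ (k : ℕ) (a : Γ) (y : V × Z), F^[k] (D.act a y) = D.act (ψ^[k] a) (F^[k] y) := by
      intro k
      induction k with
      | zero => intro a y; rfl
      | succ k ih =>
        intro a y
        rw [Function.iterate_succ_apply, Function.iterate_succ_apply, Function.iterate_succ_apply,
          hF, ih]
    have h2 := h1 n a y
    rw [hδ, hδ, D.gt_act, ← D.act_add, ← D.act_add] at h2
    have h3 : D.act (δ + D.φ a - (ψ^[n] a + δ)) (D.act (ψ^[n] a + δ) (D.gt y)) =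
        D.act (ψ^[n] a + δ) (D.gt y) := by
      rw [← D.act_add, sub_add_cancel, h2]
    have h4 := D.act_free _ _ h3
    have h5 : ψ^[n] a + δ = D.φ a + δ := by
      rw [sub_eq_zero] at h4
      rw [← h4, add_comm]
    exact add_right_cancel h5
  set Ψ := cfP C ψ with hΨ
  have hΦ : ∀ v, C.Φ v = Ψ^[n] v := cfΦ C hψ
  have hcomm : ∀ v, Ψ (C.Φ v) = C.Φ (Ψ v) := by
    intro v
    rw [hΦ, hΦ]
    exact (Function.iterate_succ_apply' Ψ n v).symm.trans (Function.iterate_succ_apply Ψ n v)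
  have hΨc : Continuous Ψ := LinearMap.continuous_of_finiteDimensional Ψ
  let e : V × Z → (Fin C.m → ℝ) := fun y => h (F y) - Ψ (h y)
  have hec : Continuous e :=
    (h.continuous.comp F.continuous).sub (hΨc.comp h.continuous)
  have heact : ∀ a y, e (D.act a y) = e y := by
    intro a y
    show h (F (D.act a y)) - Ψ (h (D.act a y)) = h (F y) - Ψ (h y)
    rw [hF, hact, hact, map_add, hΨ, cfP_ι]
    abel
  obtain ⟨K, hK, hKa⟩ := D.cocompact
  obtain ⟨M, hM⟩ := hK.exists_bound_of_continuousOn hec.continuousOn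
  have heb : ∀ y, ‖e y‖ ≤ M := by
    intro y
    obtain ⟨a, ha⟩ := hKa y
    rw [← heact a y]
    exact hM _ ha
  have hegt : ∀ y, e (D.gt y) = C.Φ (e y) + (C.ι δ - Ψ (C.ι δ)) := by
    intro y
    have h1 : e (D.gt y) = e (F^[n] y) := by rw [hδ, heact]
    have h2 : h (F (F^[n] y)) = C.Φ (h (F y)) + C.ι δ := by
      have h4 : F (F^[n] y) = F^[n] (F y) :=
        (Function.iterate_succ_apply' F n y).symm.trans (Function.iterate_succ_apply F n y)
      rw [h4, hδ, hact, hgt]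
    have h3 : h (F^[n] y) = C.Φ (h y) + C.ι δ := by rw [hδ, hact, hgt]
    rw [h1]
    show h (F (F^[n] y)) - Ψ (h (F^[n] y)) = C.Φ (h (F y) - Ψ (h y)) + (C.ι δ - Ψ (C.ι δ))
    rw [h2, h3, map_add, map_sub, hcomm]
    abel
  have hdiff : ∀ y y', C.Φ (e y - e y') = e (D.gt y) - e (D.gt y') := by
    intro y y'
    rw [hegt, hegt, map_sub]
    abel
  have hfw : ∀ (k : ℕ) (y y' : V × Z), C.Φ^[k] (e y - e y') =
      e ((D.gt)^[k] y) - e ((D.gt)^[k] y') := by
    intro k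
    induction k with
    | zero => intro y y'; rfl
    | succ k ih =>
      intro y y'
      rw [Function.iterate_succ_apply, Function.iterate_succ_apply, Function.iterate_succ_apply,
        hdiff, ih]
  have hdiff' : ∀ y y', C.Φ.symm (e y - e y') = e (D.gt.symm y) - e (D.gt.symm y') := by
    intro y y'
    rw [LinearEquiv.symm_apply_eq, hdiff, Homeomorph.apply_symm_apply,
      Homeomorph.apply_symm_apply]
  have hbw : ∀ (k : ℕ) (y y' : V × Z), C.Φ.symm^[k] (e y - e y') =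
      e ((D.gt.symm)^[k] y) - e ((D.gt.symm)^[k] y') := by
    intro k
    induction k with
    | zero => intro y y'; rfl
    | succ k ih =>
      intro y y'
      rw [Function.iterate_succ_apply, Function.iterate_succ_apply, Function.iterate_succ_apply,
        hdiff', ih]
  have hconst : ∀ y y', e y = e y' := by
    intro y y'
    rw [← sub_eq_zero]
    refine hyp _ ⟨M + M, fun k => ⟨?_, ?_⟩⟩
    · rw [hfw]
      exact (norm_sub_le _ _).trans (add_le_add (heb _) (heb _))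
    · rw [hbw]
      exact (norm_sub_le _ _).trans (add_le_add (heb _) (heb _))
  -- the fixed point
  have hinj : Function.Injective (LinearMap.id - Ψ : (Fin C.m → ℝ) →ₗ[ℝ] (Fin C.m → ℝ)) := by
    rw [← LinearMap.ker_eq_bot, LinearMap.ker_eq_bot']
    intro v hv
    have hv1 : Ψ v = v := by
      rw [LinearMap.sub_apply, LinearMap.id_apply, sub_eq_zero] at hv
      exact hv.symm
    have hv2 : C.Φ v = v := by
      rw [hΦ]
      exact Function.iterate_fixed hv1 n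
    have hv3 : C.Φ.symm v = v := by
      rw [LinearEquiv.symm_apply_eq]
      exact hv2.symm
    refine hyp v ⟨‖v‖, fun k => ⟨?_, ?_⟩⟩
    · rw [Function.iterate_fixed hv2]
    · rw [Function.iterate_fixed hv3]
  obtain ⟨v, hv⟩ := (LinearMap.injective_iff_surjective.1 hinj) (e (h.symm 0))
  refine ⟨cfA C ψ, h.trans (Homeomorph.subRight v), cfA_det C ψ, cf_hyp C hyp hψ, ?_, ?_⟩
  · intro a y
    show h (D.act a y) - v = h y - v + C.ι a
    rw [hact]
    abel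
  · intro y
    show h (F y) - v = Ψ (h y - v)
    have h1 : h (F y) - Ψ (h y) = v - Ψ v := (hconst y (h.symm 0)).trans hv.symm
    rw [map_sub]
    have h2 : h (F y) = v - Ψ v + Ψ (h y) := by rw [← h1]; abel
    rw [h2]
    abel

end Pool.Agent.H779R2.To
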