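import Pool.Agent.H779R2.To.TDef

set_option autoImplicit false

namespace Pool.Agent.H779R2.To

open Filter Topology

variable {V Z Γ : Type*} [NormedAddCommGroup V] [NormedSpace ℝ V] [MetricSpace Z]
    [AddCommGroup Γ]

private theorem cov_act_zero {Y : Type*} [TopologicalSpace Y] (act : Γ → Y ≃ₜ Y)
    (hadd : ∀ a b y, act (a + b) y = act a (act b y)) (y : Y) : act 0 y = y := by
  have h := hadd 0 0 y
  rw [add_zero] at h
  exact ((act 0).injective h).symm

private theorem cov_eq {Y : Type*} [TopologicalSpace Y] (act : Γ → Y ≃ₜ Y)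
    (hadd : ∀ a b y, act (a + b) y = act a (act b y)) (hfree : ∀ a y, act a y = y → a = 0)
    {a b : Γ} {y : Y} (h : act a y = act b y) : a = b := by
  have h1 : act (-b + a) y = y := by
    rw [hadd, h, ← hadd, neg_add_cancel, cov_act_zero act hadd]
  have h2 := hfree _ _ h1
  rw [neg_add_eq_zero] at h2
  exact h2.symm

/-- U15: proper discontinuity of deck transformations. -/
theorem proper_of_cov {X Y : Type*} [TopologicalSpace X] [T2Space X] [MetricSpace Y] (P : Y → X)
    (hP : IsCoveringMap P) (act : Γ → Y ≃ₜ Y)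
    (hadd : ∀ a b y, act (a + b) y = act a (act b y)) (hfree : ∀ a y, act a y = y → a = 0)
    (hfib : ∀ y y', P y = P y' ↔ ∃ a, y' = act a y) (K K' : Set Y) (hK : IsCompact K)
    (hK' : IsCompact K') : {a : Γ | ∃ y ∈ K, act a y ∈ K'}.Finite := by
  by_contra hinf
  have hinf' : {a : Γ | ∃ y ∈ K, act a y ∈ K'}.Infinite := hinf
  set e := hinf'.natEmbedding with he
  have hmem : ∀ n, ∃ y ∈ K, act (e n).1 y ∈ K' := fun n => (e n).2
  choose y hyK hyK' using hmem
  obtain ⟨y0, hy0, φ, hφ, hφt⟩ := hK.tendsto_subseq hyK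
  obtain ⟨y1, hy1, ψ, hψ, hψt⟩ := hK'.tendsto_subseq (fun n => hyK' (φ n))
  have hinv : ∀ a z, P (act a z) = P z := fun a z => ((hfib z (act a z)).2 ⟨a, rfl⟩).symm
  have hyt : Tendsto (fun n => y (φ (ψ n))) atTop (𝓝 y0) := hφt.comp hψ.tendsto_atTop
  have hzt : Tendsto (fun n => act (e (φ (ψ n))).1 (y (φ (ψ n)))) atTop (𝓝 y1) := hψt
  have h1 : Tendsto (fun n => P (y (φ (ψ n)))) atTop (𝓝 (P y0)) :=
    (hP.continuous.tendsto y0).comp hyt
  have h2 : Tendsto (fun n => P (y (φ (ψ n)))) atTop (𝓝 (P y1)) := by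
    have h3 := (hP.continuous.tendsto y1).comp hzt
    refine h3.congr fun n => ?_
    simp only [Function.comp_apply, hinv]
  have h3 : P y0 = P y1 := tendsto_nhds_unique h1 h2
  obtain ⟨a, ha⟩ := (hfib y0 y1).1 h3
  have h4 : Tendsto (fun n => act a (y (φ (ψ n)))) atTop (𝓝 y1) := by
    rw [ha]
    exact ((act a).continuous.tendsto y0).comp hyt
  obtain ⟨U, hUo, hyU, hUinj⟩ := hP.isLocalHomeomorph.isLocallyInjective y1
  have h5 := h4.eventually (hUo.mem_nhds hyU)
  have h6 := hzt.eventually (hUo.mem_nhds hyU)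
  obtain ⟨n, hn⟩ := Filter.eventually_atTop.1 (h5.and h6)
  have h7 : ∀ m, n ≤ m → (e (φ (ψ m))).1 = a := by
    intro m hm
    obtain ⟨h8, h9⟩ := hn m hm
    have h10 : act (e (φ (ψ m))).1 (y (φ (ψ m))) = act a (y (φ (ψ m))) :=
      hUinj h9 h8 (by rw [hinv, hinv])
    exact cov_eq act hadd hfree h10
  have h8 := (h7 n le_rfl).trans (h7 (n + 1) (Nat.le_succ n)).symm
  have h9 : φ (ψ n) = φ (ψ (n + 1)) := e.injective (Subtype.ext h8)
  have h10 := hψ.injective (hφ.injective h9)
  omega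

/-- U16: a compact set meeting all fibres. -/
theorem cocompact_of_cov {X Y : Type*} [TopologicalSpace X] [CompactSpace X] [TopologicalSpace Y]
    [LocallyCompactSpace Y] (P : Y → X) (hP : IsCoveringMap P) (hs : Function.Surjective P) :
    ∃ K : Set Y, IsCompact K ∧ ∀ x, ∃ y ∈ K, P y = x := by
  choose s hsP using hs
  have h1 : ∀ x : X, ∃ K : Set Y, IsCompact K ∧ K ∈ 𝓝 (s x) := fun x =>
    exists_compact_mem_nhds (s x)
  choose K hK hKn using h1
  obtain ⟨t, ht⟩ := isCompact_univ.elim_nhds_subcover (fun x => P '' (interior (K x)))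
    (fun x _ => by
      refine (hP.isOpenMap _ isOpen_interior).mem_nhds ?_
      exact ⟨s x, mem_interior_iff_mem_nhds.2 (hKn x), hsP x⟩)
  refine ⟨⋃ x ∈ t, K x, t.isCompact_biUnion fun x _ => hK x, fun x => ?_⟩
  have h2 := ht.2 (Set.mem_univ x)
  rw [Set.mem_iUnion₂] at h2
  obtain ⟨x', hx', y, hy, hyx⟩ := h2
  exact ⟨y, Set.mem_iUnion₂.2 ⟨x', hx', interior_subset hy⟩, hyx⟩

/-- U17: lifting homeomorphisms. -/
theorem exists_lift {X Y : Type*} [TopologicalSpace X] [TopologicalSpace Y]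
    [SimplyConnectedSpace Y] [LocallyPathConnectedSpace Y] (P : Y → X) (hP : IsCoveringMap P)
    (hs : Function.Surjective P) (f : X ≃ₜ X) : ∃ F : Y ≃ₜ Y, ∀ y, P (F y) = f (P y) := by
  have hpc : PathConnectedSpace Y := inferInstance
  obtain ⟨y0⟩ := hpc.nonempty
  obtain ⟨e0, he0⟩ := hs (f (P y0))
  let Pc : C(Y, X) := ⟨P, hP.continuous⟩
  let fc : C(X, X) := ⟨f, f.continuous⟩
  let gc : C(X, X) := ⟨f.symm, f.symm.continuous⟩
  obtain ⟨F, ⟨hF0, hF⟩, -⟩ := hP.existsUnique_continuousMap_lifts (fc.comp Pc) y0 e0 he0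
  obtain ⟨G, ⟨hG0, hG⟩, -⟩ := hP.existsUnique_continuousMap_lifts (gc.comp Pc) e0 y0 (by
    show P y0 = f.symm (P e0)
    rw [he0, f.symm_apply_apply])
  have hF' : ∀ y, P (F y) = f (P y) := fun y => congrFun hF y
  have hG' : ∀ y, P (G y) = f.symm (P y) := fun y => congrFun hG y
  have h1 : (fun y => G (F y)) = fun y => y := by
    refine hP.eq_of_comp_eq (G.continuous.comp F.continuous) continuous_id ?_ y0 ?_
    · funext y
      show P (G (F y)) = P y
      rw [hG', hF', f.symm_apply_apply]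
    · show G (F y0) = y0
      rw [hF0, hG0]
  have h2 : (fun y => F (G y)) = fun y => y := by
    refine hP.eq_of_comp_eq (F.continuous.comp G.continuous) continuous_id ?_ e0 ?_
    · funext y
      show P (F (G y)) = P y
      rw [hF', hG', f.apply_symm_apply]
    · show F (G e0) = e0
      rw [hG0, hF0]
  exact ⟨{ toFun := F
           invFun := G
           left_inv := fun y => congrFun h1 y
           right_inv := fun y => congrFun h2 y
           continuous_toFun := F.continuous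
           continuous_invFun := G.continuous }, hF'⟩

/-- U18: two lifts of the same map differ by a deck transformation. -/
theorem exists_delta {X Y : Type*} [TopologicalSpace X] [TopologicalSpace Y]
    [ConnectedSpace Y] (P : Y → X) (hP : IsCoveringMap P) (act : Γ → Y ≃ₜ Y)
    (hfib : ∀ y y', P y = P y' ↔ ∃ a, y' = act a y) (F F' : Y → Y) (hF : Continuous F)
    (hF' : Continuous F') (h : ∀ y, P (F y) = P (F' y)) : ∃ δ : Γ, ∀ y, F y = act δ (F' y) := by
  obtain ⟨y0⟩ : Nonempty Y := inferInstance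
  obtain ⟨a, ha⟩ := (hfib (F' y0) (F y0)).1 (h y0).symm
  refine ⟨a, fun y => ?_⟩
  have h1 : F = fun y => act a (F' y) := by
    refine hP.eq_of_comp_eq hF ((act a).continuous.comp hF') ?_ y0 ha
    funext z
    show P (F z) = P (act a (F' z))
    rw [h z]
    exact (hfib _ _).2 ⟨a, rfl⟩
  exact congrFun h1 y

/-- U19: conjugation by a lift is an automorphism of the deck group. -/
theorem exists_psi {X Y : Type*} [TopologicalSpace X] [TopologicalSpace Y]
    [ConnectedSpace Y] (P : Y → X) (hP : IsCoveringMap P) (act : Γ → Y ≃ₜ Y)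
    (h0 : ∀ y, act 0 y = y) (hadd : ∀ a b y, act (a + b) y = act a (act b y))
    (hfree : ∀ a y, act a y = y → a = 0) (hfib : ∀ y y', P y = P y' ↔ ∃ a, y' = act a y)
    (f : X ≃ₜ X) (F : Y ≃ₜ Y) (hF : ∀ y, P (F y) = f (P y)) :
    ∃ ψ : Γ ≃+ Γ, ∀ a y, F (act a y) = act (ψ a) (F y) := by
  have hinv : ∀ a z, P (act a z) = P z := fun a z => ((hfib z (act a z)).2 ⟨a, rfl⟩).symm
  have h1 : ∀ a, ∃ δ : Γ, ∀ y, F (act a y) = act δ (F y) := fun a =>
    exists_delta P hP act hfib (fun y => F (act a y)) F (F.continuous.comp (act a).continuous)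
      F.continuous (fun y => by rw [hF, hF, hinv])
  choose ψ hψ using h1
  obtain ⟨y0⟩ : Nonempty Y := inferInstance
  have hψadd : ∀ a b, ψ (a + b) = ψ a + ψ b := by
    intro a b
    refine cov_eq act hadd hfree (y := F y0) ?_
    rw [← hψ, hadd, hψ, hψ, hadd]
  have hsymm : ∀ z, P (F.symm z) = f.symm (P z) := by
    intro z
    have := hF (F.symm z)
    rw [F.apply_symm_apply] at this
    rw [this, f.symm_apply_apply]
  refine ⟨AddEquiv.ofBijective (AddMonoidHom.mk' ψ hψadd) ⟨?_, ?_⟩, fun a y => hψ a y⟩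
  · intro a b hab
    have hab' : ψ a = ψ b := hab
    refine cov_eq act hadd hfree (y := y0) (F.injective ?_)
    rw [hψ, hψ, hab']
  · intro c
    obtain ⟨a, ha⟩ := exists_delta P hP act hfib (fun y => F.symm (act c (F y))) (fun y => y)
      (F.symm.continuous.comp ((act c).continuous.comp F.continuous)) continuous_id
      (fun y => by rw [hsymm, hinv, hF, f.symm_apply_apply])
    refine ⟨a, ?_⟩
    show ψ a = c
    refine cov_eq act hadd hfree (y := F y0) ?_
    rw [← hψ, ← ha y0, F.apply_symm_apply]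

end Pool.Agent.H779R2.To
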