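import Pool.Agent.H779R2.To.TDef

set_option autoImplicit false

namespace Pool.Agent.H779R2.To

open Filter Topology

variable {V Z Γ : Type*} [NormedAddCommGroup V] [NormedSpace ℝ V] [MetricSpace Z]
    [AddCommGroup Γ]

theorem HypMat.inv_aux {m : ℕ} (A : Matrix (Fin m) (Fin m) ℤ) (hA : IsUnit A.det)
    (h : HypMat A) : HypMat A⁻¹ := by
  intro μ hμ hr
  have hμ0 : μ ≠ 0 := by
    intro h0
    rw [h0, norm_zero] at hμ
    exact zero_ne_one hμ
  have h1 : A⁻¹.map (Int.castRingHom ℂ) * A.map (Int.castRingHom ℂ) = 1 := by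
    rw [← Matrix.map_mul, Matrix.nonsing_inv_mul A hA, Matrix.map_one _ (map_zero _) (map_one _)]
  have hroot := hr
  rw [Polynomial.IsRoot.def, Matrix.eval_charpoly] at hroot
  refine h μ⁻¹ (by rw [norm_inv, hμ, inv_one]) ?_
  rw [Polynomial.IsRoot.def, Matrix.eval_charpoly]
  have h2 : (Matrix.scalar (Fin m) μ - A⁻¹.map (Int.castRingHom ℂ)) * A.map (Int.castRingHom ℂ) =
      (-μ) • (Matrix.scalar (Fin m) μ⁻¹ - A.map (Int.castRingHom ℂ)) := by
    rw [sub_mul, h1, smul_sub]
    have e1 : Matrix.scalar (Fin m) μ * A.map (Int.castRingHom ℂ) =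
        μ • A.map (Int.castRingHom ℂ) := by
      ext i j
      simp [Matrix.scalar_apply, Matrix.diagonal_mul]
    have e2 : (-μ) • Matrix.scalar (Fin m) μ⁻¹ = -(1 : Matrix (Fin m) (Fin m) ℂ) := by
      ext i j
      by_cases hij : i = j
      · subst hij
        simp [Matrix.scalar_apply, hμ0]
      · simp [Matrix.scalar_apply, Matrix.diagonal_apply_ne _ hij, Matrix.one_apply_ne hij]
    rw [e1, e2, neg_smul]
    abel
  have h3 := congrArg Matrix.det h2
  rw [Matrix.det_mul, hroot, zero_mul, Matrix.det_smul] at h3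
  have h4 : (-μ) ^ Fintype.card (Fin m) ≠ 0 := pow_ne_zero _ (neg_ne_zero.2 hμ0)
  rcases mul_eq_zero.1 h3.symm with h5 | h5
  · exact absurd h5 h4
  · exact h5

/-- U14: the inverse of a hyperbolic toral automorphism is hyperbolic. -/
theorem IsToral.inv {X : Type*} [TopologicalSpace X] (f : X ≃ₜ X) (h : IsToral f.symm) :
    IsToral f := by
  obtain ⟨m, A, g, hA, hy, hg⟩ := h
  refine ⟨m, A⁻¹, g, Matrix.isUnit_nonsing_inv_det A hA, HypMat.inv_aux A hA hy, ?_⟩
  intro x i
  have h1 : ∀ j, g x j = ∑ k, A j k • g (f x) k := by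
    intro j
    have := hg (f x) j
    rwa [f.symm_apply_apply] at this
  have h2 : ∑ j, A⁻¹ i j • g x j = ∑ k, (∑ j, A⁻¹ i j * A j k) • g (f x) k := by
    simp only [h1, Finset.smul_sum, Finset.sum_smul, smul_smul]
    rw [Finset.sum_comm]
  rw [h2]
  have h3 : ∀ k, ∑ j, A⁻¹ i j * A j k = (1 : Matrix (Fin m) (Fin m) ℤ) i k := by
    intro k
    rw [← Matrix.nonsing_inv_mul A hA, Matrix.mul_apply]
  simp only [h3]
  rw [Finset.sum_eq_single i]
  · rw [Matrix.one_apply_eq, one_smul]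
  · intro k _ hk
    rw [Matrix.one_apply_ne (Ne.symm hk), zero_smul]
  · intro hi
    exact absurd (Finset.mem_univ i) hi

end Pool.Agent.H779R2.To
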