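import Pool.Agent.H779R2.To.TDef

set_option autoImplicit false

namespace Pool.Agent.H779R2.To

open Filter Topology

variable {V Z Γ : Type*} [NormedAddCommGroup V] [NormedSpace ℝ V] [MetricSpace Z]
    [AddCommGroup Γ]

/-- The projection of the torus. -/
private def torq (m : ℕ) (v : Fin m → ℝ) : Fin m → AddCircle (1 : ℝ) :=
  Pi.map (fun _ : Fin m => fun x : ℝ => (x : AddCircle (1 : ℝ))) v

private theorem torq_quot (m : ℕ) : IsQuotientMap (torq m) := by
  have h : IsOpenQuotientMap
      (Pi.map (fun _ : Fin m => fun x : ℝ => (x : AddCircle (1 : ℝ)))) :=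
    IsOpenQuotientMap.piMap fun _ => QuotientAddGroup.isOpenQuotientMap_mk
  exact h.isQuotientMap

private theorem torq_eq (m : ℕ) (v w : Fin m → ℝ) :
    torq m v = torq m w ↔ ∃ z : Fin m → ℤ, w = v + fun i => (z i : ℝ) := by
  constructor
  · intro h
    have h1 : ∀ i, ∃ n : ℤ, w i = v i + n := by
      intro i
      have h2 : ((v i : ℝ) : AddCircle (1 : ℝ)) = ((w i : ℝ) : AddCircle (1 : ℝ)) := congrFun h i
      have h3 : ((w i - v i : ℝ) : AddCircle (1 : ℝ)) = 0 := by
        rw [AddCircle.coe_sub, h2, sub_self]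
      obtain ⟨n, hn⟩ := (AddCircle.coe_eq_zero_iff (1 : ℝ)).mp h3
      refine ⟨n, ?_⟩
      rw [zsmul_eq_mul, mul_one] at hn
      linarith
    choose z hz using h1
    exact ⟨z, funext hz⟩
  · rintro ⟨z, rfl⟩
    funext i
    show ((v i : ℝ) : AddCircle (1 : ℝ)) = ((v i + (z i : ℝ) : ℝ) : AddCircle (1 : ℝ))
    have h3 : (((z i : ℤ) : ℝ) : AddCircle (1 : ℝ)) = 0 :=
      (AddCircle.coe_eq_zero_iff (1 : ℝ)).mpr ⟨z i, by rw [zsmul_eq_mul, mul_one]⟩
    rw [AddCircle.coe_add, h3, add_zero]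

/-- Two quotient maps with the same fibres. -/
private theorem exists_homeo {X Y T : Type*} [TopologicalSpace X] [TopologicalSpace Y]
    [TopologicalSpace T] (P : Y → X) (g : Y → T) (hP : IsQuotientMap P) (hg : IsQuotientMap g)
    (h : ∀ y y', P y = P y' ↔ g y = g y') : ∃ θ : X ≃ₜ T, ∀ y, θ (P y) = g y := by
  have e1 : ∀ y, g (Function.surjInv hP.surjective (P y)) = g y := fun y =>
    (h _ _).mp (Function.surjInv_eq hP.surjective (P y))
  have e2 : ∀ y, P (Function.surjInv hg.surjective (g y)) = P y := fun y =>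
    (h _ _).mpr (Function.surjInv_eq hg.surjective (g y))
  refine ⟨{ toFun := fun x => g (Function.surjInv hP.surjective x)
            invFun := fun t => P (Function.surjInv hg.surjective t)
            left_inv := ?_
            right_inv := ?_
            continuous_toFun := ?_
            continuous_invFun := ?_ }, ?_⟩
  · intro x
    obtain ⟨y, rfl⟩ := hP.surjective x
    show P (Function.surjInv hg.surjective (g (Function.surjInv hP.surjective (P y)))) = P y
    rw [e1, e2]
  · intro t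
    obtain ⟨y, rfl⟩ := hg.surjective t
    show g (Function.surjInv hP.surjective (P (Function.surjInv hg.surjective (g y)))) = g y
    rw [e2, e1]
  · rw [hP.continuous_iff]
    have : (fun x => g (Function.surjInv hP.surjective x)) ∘ P = g := funext e1
    rw [this]
    exact hg.continuous
  · rw [hg.continuous_iff]
    have : (fun t => P (Function.surjInv hg.surjective t)) ∘ g = P := funext e2
    rw [this]
    exact hP.continuous
  · intro y
    exact e1 y

/-- U13: descent to the torus. -/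
theorem isToral_of_lift {X Y : Type*} [TopologicalSpace X] [TopologicalSpace Y] (P : Y → X)
    (hP : IsQuotientMap P) (act : Γ → Y → Y) (hfib : ∀ y y', P y = P y' ↔ ∃ a, y' = act a y)
    {m : ℕ} (b : Γ ≃+ (Fin m → ℤ)) (h : Y ≃ₜ (Fin m → ℝ))
    (hact : ∀ a y, h (act a y) = h y + fun i => (b a i : ℝ)) (A : Matrix (Fin m) (Fin m) ℤ)
    (hdet : IsUnit A.det) (hA : HypMat A) (F : Y → Y) (f : X → X)
    (hF : ∀ y, P (F y) = f (P y))
    (hconj : ∀ y, h (F y) = (A.map (Int.cast : ℤ → ℝ)).mulVec (h y)) : IsToral f := by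
  have hfib' : ∀ y y', P y = P y' ↔ (torq m ∘ h) y = (torq m ∘ h) y' := by
    intro y y'
    rw [hfib, Function.comp_apply, Function.comp_apply, torq_eq]
    constructor
    · rintro ⟨a, rfl⟩
      exact ⟨b a, hact a y⟩
    · rintro ⟨z, hz⟩
      refine ⟨b.symm z, ?_⟩
      apply h.injective
      rw [hz, hact, AddEquiv.apply_symm_apply]
  obtain ⟨θ, hθ⟩ := exists_homeo P (torq m ∘ h) hP ((torq_quot m).comp h.isQuotientMap) hfib'
  refine ⟨m, A, θ, hdet, hA, ?_⟩
  intro x i
  obtain ⟨y, rfl⟩ := hP.surjective x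
  rw [← hF, hθ, hθ, Function.comp_apply, Function.comp_apply, hconj]
  show ((((A.map (Int.cast : ℤ → ℝ)).mulVec (h y)) i : ℝ) : AddCircle (1 : ℝ)) =
    ∑ j, A i j • ((h y j : ℝ) : AddCircle (1 : ℝ))
  have h1 : ((A.map (Int.cast : ℤ → ℝ)).mulVec (h y)) i = ∑ j, A i j • (h y j) := by
    simp only [Matrix.mulVec, dotProduct, Matrix.map_apply, zsmul_eq_mul]
  rw [h1]
  have h2 : ((∑ j, A i j • (h y j) : ℝ) : AddCircle (1 : ℝ)) =
      ∑ j, ((A i j • (h y j) : ℝ) : AddCircle (1 : ℝ)) :=
    map_sum (QuotientAddGroup.mk' (AddSubgroup.zmultiples (1 : ℝ))) _ _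
  rw [h2]
  exact Finset.sum_congr rfl fun j _ => AddCircle.coe_zsmul (1 : ℝ)

end Pool.Agent.H779R2.To
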