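import Pool.Agent.H779R2.To.TConj
import Pool.Agent.H779R2.To.TConjF
import Pool.Agent.H779R2.To.TTor
import Pool.Agent.H779R2.To.TInv
import Pool.Agent.H779R2.To.TCov

set_option autoImplicit false

namespace Pool.Agent.H779R2.To

open Filter Topology

variable {V Z Γ : Type*} [NormedAddCommGroup V] [NormedSpace ℝ V] [MetricSpace Z]
    [AddCommGroup Γ]

/-- Abstract main theorem: covering by `V × Z` with an abelian deck group of the above form. -/
theorem toral_of_tdat {X : Type*} [TopologicalSpace X] [FiniteDimensional ℝ V]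
    [LocallyCompactSpace Z] [ConnectedSpace Z] [SimplyConnectedSpace (V × Z)]
    [LocallyPathConnectedSpace (V × Z)] (D : TDat V Z Γ) (P : V × Z → X)
    (hP : IsCoveringMap P) (hs : Function.Surjective P)
    (hfib : ∀ y y', P y = P y' ↔ ∃ a, y' = D.act a y) (f g : X ≃ₜ X)
    (hg : ∀ y, P (D.gt y) = g (P y)) (n : ℕ) (hn : 1 ≤ n) (hf : ∀ x, f^[n] x = g x) :
    IsToral f := by
  have : ConnectedSpace (V × Z) := inferInstance
  obtain ⟨C, h, h1, h2, h3⟩ := exists_conj D
  obtain ⟨F, hF⟩ := exists_lift P hP hs f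
  obtain ⟨ψ, hψ⟩ := exists_psi P hP D.act D.act_zero D.act_add D.act_free hfib f F hF
  have hFn : ∀ k y, P (F^[k] y) = f^[k] (P y) := by
    intro k
    induction k with
    | zero => intro y; rfl
    | succ k ih =>
      intro y
      rw [Function.iterate_succ_apply', Function.iterate_succ_apply', hF, ih]
  obtain ⟨δ, hδ⟩ := exists_delta P hP D.act hfib (F^[n]) D.gt (F.continuous.iterate n)
    D.gt.continuous (fun y => by rw [hFn, hf, hg])
  obtain ⟨A, h', hdet, hA, h4, h5⟩ := conjF C h h1 h2 h3 F ψ hψ n hn δ hδ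
  exact isToral_of_lift P (hP.isLocalHomeomorph.isOpenMap.isQuotientMap hP.continuous hs)
    (fun a y => D.act a y) hfib C.b h' h4 A hdet hA F f hF h5

end Pool.Agent.H779R2.To
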