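import Pool.Agent.H779R2.To.GTrans

set_option autoImplicit false

namespace Pool.Agent.H779R2.To

open Pool.Agent.H721R2 Pool.Agent.H789R2.AN Pool.Agent.H789R2.GP Pool.Agent.H779R2.An
open Filter Topology

variable {X E : Type*} [MetricSpace X] [CompactSpace X] [NormedAddCommGroup E]
  [InnerProductSpace ℝ E] [FiniteDimensional ℝ E]

private theorem act_Q0 {X : Type*} [MetricSpace X] {g : X ≃ₜ X} {c : ℝ} (T : QS g c) (p : X) :
    T.Q p p p p := by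
  obtain ⟨ε, hε, h⟩ := T.tiny
  have hr : ∀ g' : X ≃ₜ X, SR g' ε p p := fun g' k => by rw [dist_self]; exact hε.le
  exact h p p p p (hr _) (hr _) (hr _) (hr _)

private theorem act_Qdeg {X : Type*} [MetricSpace X] {g : X ≃ₜ X} {c : ℝ} (T : QS g c) {a s : X}
    (h : WS g a s) : T.Q a s a s := by
  obtain ⟨x, hx⟩ := T.ex a s a h (WS.refl _ a)
  exact T.compU _ _ _ _ _ _ hx (T.flipU _ _ _ _ hx)

/-- V5: `σ` is an action. -/
theorem sig_zero {S : HypSys X E} {F : Flat S} {c : ℝ} {T : QS S.g c}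
    (hT : ∀ a s u x, T.Q a s u x ↔ QdF F a s u x) (p : X) (Γ : AddSubgroup (S.Vu p))
    (hΓ : IsGam F T p Γ) (σ : Γ → (SLf S.g p ≃ₜ SLf S.g p)) (hσ : IsSig F T p Γ σ) (s : SLf S.g p) :
    σ 0 s = s := by
  have h1 := hσ 0 (Leaf.base S.g p) (Leaf.pr_eq T (act_Q0 T p)) (by
    show F.Lc p p = _
    rw [F.Lc_self]
    simp) s
  have h2 : T.Q p s.1.val p s.1.val := act_Qdeg T s.2
  have h3 := T.unique _ _ _ _ _ h1 h2
  exact Subtype.ext (SM.ext h3)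

/-- V5: `σ` is an action. -/
theorem sig_add {S : HypSys X E} {F : Flat S} (J : CJ F)
    (h2 : ∀ x, Module.finrank ℝ (S.Vu x) = 2) {c : ℝ} {T : QS S.g c}
    (hT : ∀ a s u x, T.Q a s u x ↔ QdF F a s u x) (p : X) (Γ : AddSubgroup (S.Vu p))
    (hΓ : IsGam F T p Γ) (σ : Γ → (SLf S.g p ≃ₜ SLf S.g p)) (hσ : IsSig F T p Γ σ) (a b : Γ)
    (s : SLf S.g p) : σ (a + b) s = σ a (σ b s) := by
  obtain ⟨za, hza, hLa⟩ := (hΓ (a : S.Vu p)).1 a.2
  obtain ⟨zb, hzb, hLb⟩ := (hΓ (b : S.Vu p)).1 b.2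
  have qa : T.Q p za.s za.u p := by
    have := za.pr_spec T
    rwa [hza] at this
  have qb : T.Q p zb.s zb.u p := by
    have := zb.pr_spec T
    rwa [hzb] at this
  have hsp : WS S.g.symm za.s p := T.wU _ _ _ _ qa
  have hup : WS S.g za.u p := T.wS _ _ _ _ qa
  obtain ⟨u', hu'⟩ := T.ex za.s p zb.u za.hs.symm' (hsp.trans zb.hu)
  obtain ⟨t', ht'⟩ := T.ex za.u zb.s p (hup.trans zb.hs) za.hu.symm'
  let z : Leaf S.g p := ⟨u', t', T.wU _ _ _ _ hu', T.wS _ _ _ _ ht'⟩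
  have q1 : T.Q za.s p p za.u := T.flipS _ _ _ _ qa
  have a2 : T.Q p za.u za.s p := T.flipU _ _ _ _ q1
  have a3 : T.Q p za.u zb.u u' := T.compU _ _ _ _ _ _ a2 hu'
  have a4 : T.Q za.u p u' zb.u := T.flipS _ _ _ _ a3
  have hz : z.pr T = p := by
    apply Leaf.pr_eq
    show T.Q p t' u' p
    have a1 : T.Q p t' za.u zb.s := T.flipU _ _ _ _ ht'
    have a5 : T.Q za.u zb.s u' p := T.compS _ _ _ _ _ _ a4 qb
    exact T.compU _ _ _ _ _ _ a1 a5
  have hLz : F.Lc p z.u = (((a + b : Γ) : S.Vu p) : E) := by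
    have := deck_trans J h2 hT p za hza zb.u u' zb.hu hu'
    show F.Lc p u' = _
    rw [this, hLa, hLb]
    push_cast
    exact add_comm _ _
  have hA := hσ b zb hzb hLb s
  have hB := hσ a za hza hLa (σ b s)
  have hC := hσ (a + b) z hz hLz s
  have c1 : T.Q p (σ b s).1.val zb.u s.1.val := T.flipU _ _ _ _ hA
  have c2 : T.Q p (σ a (σ b s)).1.val za.u (σ b s).1.val := T.flipU _ _ _ _ hB
  have c3 : T.Q za.u (σ b s).1.val u' s.1.val := T.compS _ _ _ _ _ _ a4 c1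
  have c4 : T.Q p (σ a (σ b s)).1.val u' s.1.val := T.compU _ _ _ _ _ _ c2 c3
  have c5 : T.Q u' s.1.val p (σ a (σ b s)).1.val := T.flipU _ _ _ _ c4
  exact Subtype.ext (SM.ext (T.unique _ _ _ _ _ hC c5))

end Pool.Agent.H779R2.To
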