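import Pool.Agent.H779R2.To.GUnif

set_option autoImplicit false

namespace Pool.Agent.H779R2.To

open Pool.Agent.H721R2 Pool.Agent.H789R2.AN Pool.Agent.H789R2.GP Pool.Agent.H779R2.An
open Filter Topology

variable {X E : Type*} [MetricSpace X] [CompactSpace X] [NormedAddCommGroup E]
  [InnerProductSpace ℝ E] [FiniteDimensional ℝ E]

private theorem chn_trans {V Z : Type*} {St : V → Z → Z → Prop} {u : V} {m m' : ℕ}
    {s s' s'' : Z} (h : Chn St u m s s') (h' : Chn St u m' s' s'') :
    Chn St u (m + m') s s'' := by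
  obtain ⟨e, h0, hm, hs⟩ := h
  obtain ⟨e', h0', hm', hs'⟩ := h'
  refine ⟨fun i => if i < m then e i else e' (i - m), ?_, ?_, ?_⟩
  · by_cases h : 0 < m
    · simpa [h] using h0
    · have : m = 0 := by omega
      subst this
      simp only [lt_self_iff_false, if_false, Nat.sub_self]
      rw [h0', ← hm, h0]
  · simp only [show ¬ (m + m' < m) by omega, if_false, Nat.add_sub_cancel_left]
    exact hm'
  · intro i hi
    by_cases h1 : i + 1 < m
    · have h2 : i < m := by omega
      simp only [h1, h2, if_true]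
      exact hs i h2
    · by_cases h2 : i < m
      · have h3 : i + 1 = m := by omega
        have h4 := hs i h2
        simp only [h2, if_true, h3, lt_self_iff_false, if_false, Nat.sub_self]
        rw [h3, hm] at h4
        rwa [h0']
      · simp only [h1, h2, if_false]
        have h3 : i + 1 - m = i - m + 1 := by omega
        rw [h3]
        exact hs' _ (by omega)

private theorem chn_one {V Z : Type*} {St : V → Z → Z → Prop} {u : V}
    {s s' : Z} (h : St u s s') : Chn St u 1 s s' := by
  refine ⟨fun i => if i = 0 then s else s', by simp, by simp, ?_⟩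
  intro i hi
  have : i = 0 := by omega
  subst this
  simpa using h

private theorem chn_refl {V Z : Type*} {St : V → Z → Z → Prop} {u : V}
    {s : Z} (h : St u s s) (m : ℕ) : Chn St u m s s :=
  ⟨fun _ => s, rfl, rfl, fun _ _ => h⟩

private theorem chain_of_unif {V Z : Type*} [PseudoMetricSpace Z] [PathConnectedSpace Z]
    (St : V → Z → Z → Prop) (B : Set V) (K : Set Z) (hK : IsCompact K)
    (h : ∀ K' : Set Z, IsCompact K' → ∃ δ > 0, ∀ u ∈ B, ∀ s ∈ K', ∀ s' : Z, dist s s' < δ →
      St u s s') :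
    ∃ m : ℕ, ∀ u ∈ B, ∀ s ∈ K, ∀ s' ∈ K, Chn St u m s s' := by
  obtain ⟨b⟩ : Nonempty Z := PathConnectedSpace.nonempty
  have key : ∃ m : ℕ, ∀ u ∈ B, ∀ s ∈ K, Chn St u m s b ∧ Chn St u m b s := by
    have hb : ∀ u ∈ B, St u b b := by
      obtain ⟨δ, hδ, h1⟩ := h {b} isCompact_singleton
      exact fun u hu => h1 u hu b rfl b (by simpa using hδ)
    refine hK.induction_on (p := fun A => ∃ m : ℕ, ∀ u ∈ B, ∀ s ∈ A,
      Chn St u m s b ∧ Chn St u m b s) ?_ ?_ ?_ ?_
    · exact ⟨0, fun u _ s hs => absurd hs (Set.notMem_empty s)⟩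
    · rintro A A' hA ⟨m, hm⟩
      exact ⟨m, fun u hu s hs => hm u hu s (hA hs)⟩
    · rintro A A' ⟨m, hm⟩ ⟨m', hm'⟩
      refine ⟨m + m', fun u hu s hs => ?_⟩
      rcases hs with hs | hs
      · exact ⟨chn_trans (hm u hu s hs).1 (chn_refl (hb u hu) m'), by
          rw [add_comm]; exact chn_trans (chn_refl (hb u hu) m') (hm u hu s hs).2⟩
      · exact ⟨by rw [add_comm]; exact chn_trans (hm' u hu s hs).1 (chn_refl (hb u hu) m),
          chn_trans (chn_refl (hb u hu) m) (hm' u hu s hs).2⟩
    · intro c hc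
      let γ : Path c b := PathConnectedSpace.somePath c b
      obtain ⟨δ, hδ, h1⟩ := h (K ∪ Set.range γ) (hK.union (isCompact_range γ.continuous))
      have huc : UniformContinuous γ :=
        CompactSpace.uniformContinuous_of_continuous γ.continuous
      obtain ⟨η, hη, h2⟩ := Metric.uniformContinuous_iff.1 huc δ hδ
      obtain ⟨N, hN⟩ := exists_nat_gt (1 / η)
      have hN0 : (0 : ℝ) < N := lt_trans (by positivity) hN
      have hNη : 1 / (N : ℝ) < η := by
        rw [div_lt_iff₀ hN0]
        rw [div_lt_iff₀ hη] at hN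
        linarith [mul_comm (N : ℝ) η]
      -- the points of the subdivision
      let t : ℕ → unitInterval := fun i => Set.projIcc 0 1 zero_le_one ((i : ℝ) / N)
      have ht0 : t 0 = 0 := by
        apply Subtype.ext
        simp [t, Set.projIcc]
      have htN : t N = 1 := by
        apply Subtype.ext
        simp [t, Set.projIcc, hN0.ne']
      have htd : ∀ i, dist (t i) (t (i + 1)) < η := by
        intro i
        refine lt_of_le_of_lt ?_ hNη
        have h3 : dist (t i) (t (i + 1)) ≤ dist ((i : ℝ) / N) (((i + 1 : ℕ) : ℝ) / N) := by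
          have h5 := (LipschitzWith.projIcc (a := (0 : ℝ)) (b := 1) zero_le_one).dist_le_mul
            ((i : ℝ) / N) (((i + 1 : ℕ) : ℝ) / N)
          simpa [t] using h5
        refine h3.trans (le_of_eq ?_)
        rw [Real.dist_eq]
        push_cast
        rw [show (i : ℝ) / N - (i + 1) / N = -(1 / N) by ring, abs_neg, abs_of_pos (by positivity)]
      have hc1 : ∀ u ∈ B, Chn St u N c b := by
        intro u hu
        refine ⟨fun i => γ (t i), by simp [ht0], by simp [htN], fun i _ => ?_⟩
        exact h1 u hu _ (Or.inr ⟨t i, rfl⟩) _ (h2 (htd i))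
      have hc2 : ∀ u ∈ B, Chn St u N b c := by
        intro u hu
        refine ⟨fun i => γ (t (N - i)), by simp [htN], by simp [ht0], fun i hi => ?_⟩
        refine h1 u hu _ (Or.inr ⟨t (N - i), rfl⟩) _ (h2 ?_)
        have h6 := htd (N - (i + 1))
        rw [show N - (i + 1) + 1 = N - i by omega] at h6
        rw [dist_comm]
        exact h6
      refine ⟨Metric.ball c δ ∩ K, ?_, 1 + N, fun u hu s hs => ⟨?_, ?_⟩⟩
      · exact Filter.inter_mem (mem_nhdsWithin_of_mem_nhds (Metric.ball_mem_nhds c hδ))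
          self_mem_nhdsWithin
      · exact chn_trans (chn_one (h1 u hu s (Or.inl hs.2) c hs.1)) (hc1 u hu)
      · rw [add_comm]
        refine chn_trans (hc2 u hu) (chn_one (h1 u hu c (Or.inl hc) s ?_))
        rw [dist_comm]
        exact hs.1
  obtain ⟨m, hm⟩ := key
  exact ⟨m + m, fun u hu s hs s' hs' => chn_trans (hm u hu s hs).1 (hm u hu s' hs').2⟩

/-- V12: uniformly short chains. -/
theorem xi_chain {S : HypSys X E} {F : Flat S} {c : ℝ} {T : QS S.g c} (hc : 0 < c)
    (hT : ∀ a s u x, T.Q a s u x ↔ QdF F a s u x) {p : X} (x : Xi F p)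
    [PathConnectedSpace (SLf S.g p)] (ε : ℝ) (hε : 0 < ε) (B : Set (S.Vu p))
    (K : Set (SLf S.g p)) (hB : IsCompact B) (hK : IsCompact K) : ∃ m : ℕ,
      ∀ u ∈ B, ∀ s ∈ K, ∀ s' ∈ K,
        Chn (fun u s s' => S.SRel ε (x.P T (u, s)) (x.P T (u, s'))) u m s s' :=
  chain_of_unif _ B K hK fun K' hK' => xi_unif hc hT x B K' hB hK' ε hε

end Pool.Agent.H779R2.To
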