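import Pool.Agent.H779R2.To.GDef

set_option autoImplicit false

namespace Pool.Agent.H779R2.To

open Pool.Agent.H721R2 Pool.Agent.H789R2.AN Pool.Agent.H789R2.GP Pool.Agent.H779R2.An
open Filter Topology

section aux

variable {X : Type*} [MetricSpace X]

/-- Moving the unstable coordinate. -/
theorem V11_cont_u {g : X ≃ₜ X} {c : ℝ} (hc : 0 < c) (T : QS g c) {p : X} (z₀ : Leaf g p)
    {ε : ℝ} (hε : 0 < ε) : ∃ δ > 0, ∀ z : Leaf g p, z.s = z₀.s → SR g.symm δ z₀.u z.u →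
      SR g.symm ε (z₀.pr T) (z.pr T) := by
  obtain ⟨j, hj⟩ : ∃ j : ℕ, SR g c (g^[j] z₀.u) (g^[j] (z₀.pr T)) :=
    (T.wS _ _ _ _ (z₀.pr_spec T)).level12 hc
  obtain ⟨η, hη, H⟩ := T.contU j ε hε
  refine ⟨η, hη, fun z hs hu => ?_⟩
  have q0 := z.pr_spec T
  rw [hs] at q0
  have q : T.Q z₀.u (z₀.pr T) z.u (z.pr T) :=
    T.compU _ _ _ _ _ _ (T.flipU _ _ _ _ (z₀.pr_spec T)) q0
  exact H _ _ _ _ q hu hj

/-- Nearby points of a stable plaque. -/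
theorem V11_close {g : X ≃ₜ X} {c₀ : ℝ} (h : LP g c₀) {ε : ℝ} (hε : 0 < ε) :
    ∃ δ > 0, ∀ y x', SR g (c₀ / 2) y x' → dist y x' < δ → SR g ε y x' := by
  have hc₀ := h.c_pos
  obtain ⟨δ, hδ, H⟩ := h.lp (min ε (c₀ / 2)) (by positivity)
  refine ⟨δ, hδ, fun y x' hs hd => ?_⟩
  obtain ⟨v, hv1, hv2⟩ := H _ _ hd
  have l1 : min ε (c₀ / 2) ≤ ε := min_le_left _ _
  have l2 : min ε (c₀ / 2) ≤ c₀ / 2 := min_le_right _ _
  have e : x' = v := expansive h ((hs.symm'.tr12 hv1).mono (by linarith))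
    (hv2.mono (by linarith))
  rw [e]
  exact hv1.mono l1

/-- The corner. -/
theorem V11_corner {g : X ≃ₜ X} {c₀ c : ℝ} (h : LP g c₀) (T : QS g c) {p : X} (z : Leaf g p)
    (x' : X) {ε : ℝ} (hε : ε ≤ c₀) (hs : SR g ε (z.pr T) x') :
    ∃ z' : Leaf g p, z'.u = z.u ∧ z'.pr T = x' := by
  have hx := z.pr_spec T
  have w1 : WS g (z.pr T) x' := WS_of_SR12 h (hs.mono hε)
  have w2 : WS g.symm (z.pr T) z.s := (T.wU _ _ _ _ hx).symm'
  obtain ⟨s', hs'⟩ := T.ex _ _ _ w1 w2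
  have hss : WS g z.s s' := T.wS _ _ _ _ hs'
  have q : T.Q p s' z.u x' := T.compS _ _ _ _ _ _ hx (T.flipU _ _ _ _ hs')
  exact ⟨⟨z.u, s', z.hu, z.hs.trans hss⟩, rfl, Leaf.pr_eq T q⟩

/-- Uniqueness of the corner. -/
theorem V11_uniq {g : X ≃ₜ X} {c : ℝ} (T : QS g c) {p : X} (z z' : Leaf g p)
    (hu : z.u = z'.u) (hp : z.pr T = z'.pr T) : z = z' := by
  have h1 := T.flipU _ _ _ _ (z.pr_spec T)
  have h2 := T.flipU _ _ _ _ (z'.pr_spec T)
  rw [← hu, ← hp] at h2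
  exact Leaf.ext hu (T.unique _ _ _ _ _ h1 h2)

/-- Stable plaques over compact sets are relatively compact. -/
theorem V11_leaf [CompactSpace X] {g : X ≃ₜ X} {c₀ c : ℝ} (h : LP g c₀) (hc : 0 < c)
    (T : QS g c) {p : X} : ∃ ε₁ > 0, ∀ ε, 0 < ε → ε ≤ ε₁ → ∀ K : Set (Leaf g p), IsCompact K →
      ∃ K' : Set (Leaf g p), IsCompact K' ∧ ∀ z z' : Leaf g p, z ∈ K → z'.u = z.u →
        SR g ε (z.pr T) (z'.pr T) → z' ∈ K' := by
  have hc₀ := h.c_pos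
  obtain ⟨ηA, hηA, HA⟩ := T.contS 0 (c₀ / 8) (by positivity)
  refine ⟨min ηA (c₀ / 8), by positivity, fun ε hε hε1 K hK => ?_⟩
  have hεA : ε ≤ ηA := hε1.trans (min_le_left _ _)
  have hεB : ε ≤ c₀ / 8 := hε1.trans (min_le_right _ _)
  have hpr : Continuous (fun z : Leaf g p => z.pr T) := (pr_isCoveringMap h hc T p).continuous
  set C : Set (Leaf g p × X) := {q | q.1 ∈ K ∧ SR g ε (q.1.pr T) q.2} with hCdef
  have hC : IsCompact C := by
    have h1 : IsCompact (K ×ˢ (Set.univ : Set X)) := hK.prod isCompact_univ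
    have h2 : IsClosed {q : Leaf g p × X | SR g ε (q.1.pr T) q.2} := by
      have e : {q : Leaf g p × X | SR g ε (q.1.pr T) q.2} =
          ⋂ k : ℕ, {q : Leaf g p × X | dist (g^[k] (q.1.pr T)) (g^[k] q.2) ≤ ε} := by
        ext q
        simp only [Set.mem_iInter]
        exact Iff.rfl
      rw [e]
      refine isClosed_iInter fun k => ?_
      refine isClosed_le ?_ continuous_const
      exact ((g.continuous.iterate k).comp (hpr.comp continuous_fst)).dist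
        ((g.continuous.iterate k).comp continuous_snd)
    have e : C = (K ×ˢ (Set.univ : Set X)) ∩ {q : Leaf g p × X | SR g ε (q.1.pr T) q.2} := by
      ext q
      constructor
      · intro hq
        exact ⟨⟨hq.1, Set.mem_univ _⟩, hq.2⟩
      · intro hq
        exact ⟨hq.1.1, hq.2⟩
    rw [e]
    exact h1.inter_right h2
  have hex : ∀ q : Leaf g p × X, ∃ z' : Leaf g p, q ∈ C → z'.u = q.1.u ∧ z'.pr T = q.2 := by
    intro q
    by_cases hq : q ∈ C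
    · obtain ⟨z', h1, h2⟩ := V11_corner h T q.1 q.2 (by linarith) hq.2
      exact ⟨z', fun _ => ⟨h1, h2⟩⟩
    · exact ⟨q.1, fun h => absurd h hq⟩
  choose Φ hΦ using hex
  have hcont : ContinuousOn Φ C := by
    rw [Metric.continuousOn_iff]
    intro q₀ hq₀ r hr
    obtain ⟨hu₀, hp₀⟩ := hΦ q₀ hq₀
    set z₀ := q₀.1 with hz₀
    set z₁ := Φ q₀ with hz₁
    -- level of the unstable displacement from `x₀'` to `s₀'`
    obtain ⟨j, hj⟩ : ∃ j : ℕ, SR g.symm (c / 2) (g.symm^[j] (z₁.pr T)) (g.symm^[j] z₁.s) :=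
      (T.wU _ _ _ _ (z₁.pr_spec T)).symm'.level12 (by positivity)
    obtain ⟨η₁, hη₁, H₁⟩ := T.contS j (r / 2) (by positivity)
    obtain ⟨δ₁, hδ₁, D₁⟩ := V11_close h hη₁
    obtain ⟨δ₂, hδ₂, D₂⟩ := V11_cont_u hc T z₁ (ε := min (δ₁ / 4) (c / 2)) (by positivity)
    obtain ⟨δ₃, hδ₃, D₃⟩ := V11_cont_u hc T z₀ (ε := c / 2) (by positivity)
    obtain ⟨j', hj'⟩ : ∃ j : ℕ, SR g.symm (c / 2) (g.symm^[j] z₀.s) (g.symm^[j] (z₀.pr T)) :=
      (T.wU _ _ _ _ (z₀.pr_spec T)).level12 (by positivity)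
    obtain ⟨η₃, hη₃, H₃⟩ := T.contS j' (c₀ / 8) (by positivity)
    refine ⟨min (min (δ₁ / 4) (min δ₂ δ₃)) (min η₃ (r / 2)), by positivity, fun q hq hd => ?_⟩
    have hd1 : dist q.1 z₀ < min (min (δ₁ / 4) (min δ₂ δ₃)) (min η₃ (r / 2)) :=
      lt_of_le_of_lt (le_max_left _ _) hd
    have hd2 : dist q.2 q₀.2 < min (min (δ₁ / 4) (min δ₂ δ₃)) (min η₃ (r / 2)) :=
      lt_of_le_of_lt (le_max_right _ _) hd
    obtain ⟨hu, hp⟩ := hΦ q hq
    set z := q.1 with hz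
    set z' := Φ q with hz'
    have m1 : min (min (δ₁ / 4) (min δ₂ δ₃)) (min η₃ (r / 2)) ≤ δ₁ / 4 :=
      (min_le_left _ _).trans (min_le_left _ _)
    have m2 : min (min (δ₁ / 4) (min δ₂ δ₃)) (min η₃ (r / 2)) ≤ δ₂ :=
      (min_le_left _ _).trans ((min_le_right _ _).trans (min_le_left _ _))
    have m3 : min (min (δ₁ / 4) (min δ₂ δ₃)) (min η₃ (r / 2)) ≤ δ₃ :=
      (min_le_left _ _).trans ((min_le_right _ _).trans (min_le_right _ _))
    have m4 : min (min (δ₁ / 4) (min δ₂ δ₃)) (min η₃ (r / 2)) ≤ η₃ :=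
      (min_le_right _ _).trans (min_le_left _ _)
    have m5 : min (min (δ₁ / 4) (min δ₂ δ₃)) (min η₃ (r / 2)) ≤ r / 2 :=
      (min_le_right _ _).trans (min_le_right _ _)
    have hpos : 0 ≤ min (min (δ₁ / 4) (min δ₂ δ₃)) (min η₃ (r / 2)) := by positivity
    obtain ⟨au, as⟩ := (Leaf.dist_le z₀ z hpos).mp (by rw [dist_comm]; exact hd1.le)
    -- the corners `t` over `(u, s₀)` and `y` over `(u, s₀')`
    let zt : Leaf g p := ⟨z.u, z₀.s, z.hu, z₀.hs⟩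
    let zy : Leaf g p := ⟨z.u, z₁.s, z.hu, z₁.hs⟩
    have hy : SR g.symm (min (δ₁ / 4) (c / 2)) (z₁.pr T) (zy.pr T) := by
      apply D₂ zy rfl
      rw [hu₀]
      exact au.mono m2
    have ht : SR g.symm (c / 2) (z₀.pr T) (zt.pr T) := D₃ zt rfl (au.mono m3)
    have qt : T.Q p z₀.s z.u (zt.pr T) := zt.pr_spec T
    have qy : T.Q p z₁.s z.u (zy.pr T) := zy.pr_spec T
    have q0 : T.Q p z₀.s z₀.u (z₀.pr T) := z₀.pr_spec T
    have q1 : T.Q p z₁.s z₀.u (z₁.pr T) := by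
      have := z₁.pr_spec T
      rwa [hu₀] at this
    have qz : T.Q p z.s z.u (z.pr T) := z.pr_spec T
    have qz' : T.Q p z'.s z.u (z'.pr T) := by
      have := z'.pr_spec T
      rwa [hu] at this
    -- `SR g (c₀/8) t y`
    have s1 : SR g (c₀ / 8) (zt.pr T) (zy.pr T) := by
      have a1 : T.Q z₀.s z₁.s (z₀.pr T) (z₁.pr T) :=
        T.compS _ _ _ _ _ _ (T.flipS _ _ _ _ q0) q1
      have a2 : T.Q z₀.s z₁.s (zt.pr T) (zy.pr T) :=
        T.compS _ _ _ _ _ _ (T.flipS _ _ _ _ qt) qy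
      have a3 : T.Q (z₀.pr T) (z₁.pr T) (zt.pr T) (zy.pr T) :=
        T.compU _ _ _ _ _ _ (T.flipU _ _ _ _ a1) a2
      refine HA _ _ _ _ a3 ?_ ?_
      · rw [hp₀]
        exact hq₀.2.mono hεA
      · exact ht.mono (by linarith)
    -- `SR g (c₀/8) t x`
    have s2 : SR g (c₀ / 8) (zt.pr T) (z.pr T) := by
      have a2 : T.Q z₀.s z.s (zt.pr T) (z.pr T) :=
        T.compS _ _ _ _ _ _ (T.flipS _ _ _ _ qt) qz
      refine H₃ _ _ _ _ a2 (as.mono m4) ?_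
      exact (hj'.tr12 (ht.it12 j')).mono (by linarith)
    have s3 : SR g (c₀ / 2) (zy.pr T) (z'.pr T) := by
      have a1 : SR g ε (z.pr T) (z'.pr T) := by
        rw [hp]
        exact hq.2
      exact ((s1.symm'.tr12 s2).tr12 a1).mono (by linarith)
    have s4 : dist (zy.pr T) (z'.pr T) < δ₁ := by
      have a1 := hy.dist12
      have a2 := min_le_left (δ₁ / 4) (c / 2)
      have a3 := dist_triangle (zy.pr T) (z₁.pr T) (z'.pr T)
      rw [dist_comm (zy.pr T) (z₁.pr T)] at a3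
      have a4 : dist (z₁.pr T) (z'.pr T) ≤ δ₁ / 4 := by
        rw [hp₀, hp, dist_comm]
        exact (hd2.le).trans m1
      linarith
    have s5 : SR g η₁ (zy.pr T) (z'.pr T) := D₁ _ _ s3 s4
    have s6 : SR g (r / 2) z₁.s z'.s := by
      have a1 : T.Q z₁.s z'.s (zy.pr T) (z'.pr T) :=
        T.compS _ _ _ _ _ _ (T.flipS _ _ _ _ qy) qz'
      refine H₁ _ _ _ _ (T.flipU _ _ _ _ a1) s5 ?_
      have a2 : SR g.symm (c / 2) (zy.pr T) (z₁.pr T) := (hy.mono (min_le_right _ _)).symm'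
      exact ((a2.it12 j).tr12 hj).mono (by linarith)
    have s7 : dist z₁ z' ≤ r / 2 := by
      rw [Leaf.dist_le z₁ z' (by positivity)]
      refine ⟨?_, s6⟩
      rw [hu₀, hu]
      exact au.mono m5
    rw [dist_comm]
    linarith
  refine ⟨Φ '' C, hC.image_of_continuousOn hcont, fun z z' hz hu hs => ?_⟩
  have hq : ((z, z'.pr T) : Leaf g p × X) ∈ C := ⟨hz, hs⟩
  obtain ⟨h1, h2⟩ := hΦ _ hq
  exact ⟨_, hq, V11_uniq T _ _ (h1.trans hu.symm) h2⟩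

end aux

variable {X E : Type*} [MetricSpace X] [CompactSpace X] [NormedAddCommGroup E]
  [InnerProductSpace ℝ E] [FiniteDimensional ℝ E]

/-- V11: compactness of stable plaques over compact sets. -/
theorem xi_cpt {S : HypSys X E} {F : Flat S} {c : ℝ} {T : QS S.g c} (hc : 0 < c)
    (hT : ∀ a s u x, T.Q a s u x ↔ QdF F a s u x) {p : X} (x : Xi F p) :
    ∃ ε₁ > 0, ∀ ε, 0 < ε → ε ≤ ε₁ → ∀ K : Set (S.Vu p × SLf S.g p), IsCompact K →
      ∃ K' : Set (S.Vu p × SLf S.g p), IsCompact K' ∧ ∀ u s s', (u, s) ∈ K →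
        S.SRel ε (x.P T (u, s)) (x.P T (u, s')) → (u, s') ∈ K' := by
  obtain ⟨c₀, h⟩ := exists_LP S
  obtain ⟨ε₁, hε₁, H⟩ := V11_leaf h hc T (p := p)
  refine ⟨ε₁, hε₁, fun ε hε hεε K hK => ?_⟩
  obtain ⟨K', hK', H'⟩ := H ε hε hεε (x.Ξ.symm '' K) (hK.image x.Ξ.symm.continuous)
  refine ⟨x.Ξ '' K', hK'.image x.Ξ.continuous, fun u s s' hus hs => ?_⟩
  refine ⟨x.Ξ.symm (u, s'), ?_, x.Ξ.apply_symm_apply _⟩
  refine H' (x.Ξ.symm (u, s)) _ ⟨_, hus, rfl⟩ ?_ hs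
  apply F.inj p _ _ (x.Ξ.symm (u, s')).hu (x.Ξ.symm (u, s)).hu
  rw [← x.fst, ← x.fst, x.Ξ.apply_symm_apply, x.Ξ.apply_symm_apply]

end Pool.Agent.H779R2.To
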