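import Mathlib

set_option autoImplicit false

namespace Pool.Agent.H779R2.To

open Filter Topology

/-- Chains of `m` steps. -/
def Chn {V Z : Type*} (St : V → Z → Z → Prop) (u : V) (m : ℕ) (s s' : Z) : Prop :=
  ∃ e : ℕ → Z, e 0 = s ∧ e m = s' ∧ ∀ i < m, St u (e i) (e (i + 1))

/-- An abelian group `Γ` acting on the product `V × Z` of a vector space and a stable leaf, by
translations `t a` on `V` and homeomorphisms `σ a` of `Z`; a map `(A, G)` expanding `V`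
and normalizing the action; a relation `St u` (one step in the stable leaf over `u`) which is
contracted. -/
structure TDat (V Z Γ : Type*) [NormedAddCommGroup V] [NormedSpace ℝ V] [MetricSpace Z]
    [AddCommGroup Γ] where
  σ : Γ → Z ≃ₜ Z
  t : Γ →+ V
  σ_zero : ∀ s, σ 0 s = s
  σ_add : ∀ a b s, σ (a + b) s = σ a (σ b s)
  t_inj : Function.Injective t
  A : V ≃L[ℝ] V
  G : Z ≃ₜ Z
  φ : Γ ≃+ Γ
  A_symm_le : ∀ v, ‖A.symm v‖ ≤ 1 / 2 * ‖v‖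
  t_φ : ∀ a, t (φ a) = A (t a)
  G_σ : ∀ a s, G (σ a s) = σ (φ a) (G s)
  proper : ∀ K K' : Set (V × Z), IsCompact K → IsCompact K' →
    {a : Γ | ∃ y ∈ K, ((y.1 + t a, σ a y.2) : V × Z) ∈ K'}.Finite
  cocompact : ∃ K : Set (V × Z), IsCompact K ∧
    ∀ y : V × Z, ∃ a : Γ, ((y.1 + t a, σ a y.2) : V × Z) ∈ K
  St : V → Z → Z → Prop
  st_refl : ∀ u s, St u s s
  st_symm : ∀ u s s', St u s s' → St u s' s
  st_act : ∀ a u s s', St u s s' → St (u + t a) (σ a s) (σ a s')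
  st_two : ∀ u s s' s'', St u s s' → St u s' s'' → St (A u) (G s) (G s'')
  st_cpt : ∀ K : Set (V × Z), IsCompact K → ∃ K' : Set (V × Z), IsCompact K' ∧
    ∀ u s s', (u, s) ∈ K → St u s s' → (u, s') ∈ K'
  st_chain : ∀ (B : Set V) (K : Set Z), IsCompact B → IsCompact K → ∃ m : ℕ,
    ∀ u ∈ B, ∀ s ∈ K, ∀ s' ∈ K, Chn St u m s s'
  st_exp : ∀ u s s', (∀ n : ℕ, St (A.symm^[n] u) (G.symm^[n] s) (G.symm^[n] s')) → s = s'

variable {V Z Γ : Type*} [NormedAddCommGroup V] [NormedSpace ℝ V] [MetricSpace Z]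
    [AddCommGroup Γ]

/-- The action on the product. -/
def TDat.act (D : TDat V Z Γ) (a : Γ) : V × Z ≃ₜ V × Z where
  toFun y := (y.1 + D.t a, D.σ a y.2)
  invFun y := (y.1 - D.t a, (D.σ a).symm y.2)
  left_inv y := by simp
  right_inv y := by simp
  continuous_toFun := by fun_prop
  continuous_invFun := by fun_prop

theorem TDat.act_apply (D : TDat V Z Γ) (a : Γ) (y : V × Z) :
    D.act a y = (y.1 + D.t a, D.σ a y.2) := rfl

theorem TDat.act_zero (D : TDat V Z Γ) (y : V × Z) : D.act 0 y = y := by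
  rw [D.act_apply, map_zero, add_zero, D.σ_zero]

theorem TDat.act_add (D : TDat V Z Γ) (a b : Γ) (y : V × Z) :
    D.act (a + b) y = D.act a (D.act b y) := by
  refine Prod.ext ?_ (D.σ_add a b y.2)
  change y.1 + D.t (a + b) = y.1 + D.t b + D.t a
  rw [map_add]
  abel

theorem TDat.act_free (D : TDat V Z Γ) (a : Γ) (y : V × Z) (h : D.act a y = y) : a = 0 := by
  have h1 : y.1 + D.t a = y.1 := congrArg Prod.fst h
  apply D.t_inj
  rw [map_zero]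
  simpa using h1

/-- The normalizing map. -/
def TDat.gt (D : TDat V Z Γ) : V × Z ≃ₜ V × Z := D.A.toHomeomorph.prodCongr D.G

theorem TDat.gt_apply (D : TDat V Z Γ) (y : V × Z) : D.gt y = (D.A y.1, D.G y.2) := rfl

theorem TDat.gt_symm_apply (D : TDat V Z Γ) (y : V × Z) :
    D.gt.symm y = (D.A.symm y.1, D.G.symm y.2) := rfl

theorem TDat.gt_act (D : TDat V Z Γ) (a : Γ) (y : V × Z) :
    D.gt (D.act a y) = D.act (D.φ a) (D.gt y) := by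
  rw [D.act_apply, D.act_apply, D.gt_apply, D.gt_apply, map_add, D.t_φ, D.G_σ]

/-- Linear coordinates: `Γ ≅ ℤᵐ ⊂ ℝᵐ`, the linear extension `tR` of `t`, and `Φ` of `φ`. -/
structure Coo (D : TDat V Z Γ) where
  m : ℕ
  b : Γ ≃+ (Fin m → ℤ)
  tR : (Fin m → ℝ) →ₗ[ℝ] V
  Φ : (Fin m → ℝ) ≃ₗ[ℝ] (Fin m → ℝ)
  tR_b : ∀ a, tR (fun i => (b a i : ℝ)) = D.t a
  Φ_b : ∀ a, Φ (fun i => (b a i : ℝ)) = fun i => (b (D.φ a) i : ℝ)
  tR_Φ : ∀ v, tR (Φ v) = D.A (tR v)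
  surj : Function.Surjective tR

/-- The inclusion `Γ → ℝᵐ`. -/
def Coo.ι {D : TDat V Z Γ} (C : Coo D) (a : Γ) : Fin C.m → ℝ := fun i => (C.b a i : ℝ)

/-- A coarse map `κ : V × Z → Γ`. -/
structure Kap {D : TDat V Z Γ} (C : Coo D) where
  κ : V × Z → Γ
  K : Set (V × Z)
  cpt : IsCompact K
  mem : ∀ y, D.act (-κ y) y ∈ K
  B : ℝ
  act_le : ∀ a y, ‖C.ι (κ (D.act a y)) - C.ι (κ y) - C.ι a‖ ≤ B
  gt_le : ∀ y, ‖C.ι (κ (D.gt y)) - C.Φ (C.ι (κ y))‖ ≤ B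
  st_le : ∀ u s s', D.St u s s' → ‖C.ι (κ (u, s)) - C.ι (κ (u, s'))‖ ≤ B
  t_le : ∀ y : V × Z, ‖y.1 - D.t (κ y)‖ ≤ B
  bdd : ∀ K' : Set (V × Z), IsCompact K' → ∃ C' : ℝ, ∀ y ∈ K', ‖C.ι (κ y)‖ ≤ C'

/-- `Φ` contracts the kernel of `tR`. -/
def Contr {D : TDat V Z Γ} (C : Coo D) : Prop :=
  ∃ M : ℝ, ∀ (n : ℕ) (w : Fin C.m → ℝ), C.tR w = 0 → ‖C.Φ^[n] w‖ ≤ M * (1 / 2) ^ n * ‖w‖

/-- The semiconjugacy. -/
structure Semi {D : TDat V Z Γ} {C : Coo D} (k : Kap C) where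
  h : V × Z → (Fin C.m → ℝ)
  tR_h : ∀ y, C.tR (h y) = y.1
  act : ∀ a y, h (D.act a y) = h y + C.ι a
  gt : ∀ y, h (D.gt y) = C.Φ (h y)
  B : ℝ
  near : ∀ y, ‖h y - C.ι (k.κ y)‖ ≤ B

/-- The affine structure of `h` in the direction of `V`. -/
structure Ell {D : TDat V Z Γ} {C : Coo D} {k : Kap C} (s : Semi k) where
  l : V →ₗ[ℝ] (Fin C.m → ℝ)
  tR_l : ∀ u, C.tR (l u) = u
  Φ_l : ∀ u, C.Φ (l u) = l (D.A u)
  h_eq : ∀ u (z : Z) (u' : V), s.h (u + u', z) = l u + s.h (u', z)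

/-- Hyperbolic integer matrices. -/
def HypMat {m : ℕ} (A : Matrix (Fin m) (Fin m) ℤ) : Prop :=
  ∀ μ : ℂ, ‖μ‖ = 1 → ¬ (A.map (Int.castRingHom ℂ)).charpoly.IsRoot μ

/-- `f` is topologically conjugate to a hyperbolic automorphism of a torus. -/
def IsToral {X : Type*} [TopologicalSpace X] (f : X → X) : Prop :=
  ∃ (m : ℕ) (A : Matrix (Fin m) (Fin m) ℤ) (h : X ≃ₜ (Fin m → AddCircle (1 : ℝ))),
    IsUnit A.det ∧ HypMat A ∧ ∀ x i, h (f x) i = ∑ j, A i j • h x j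

end Pool.Agent.H779R2.To
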