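import Pool.Agent.H779R2.An.LCov
import Pool.Agent.H779R2.To.TDef

set_option autoImplicit false

namespace Pool.Agent.H779R2.To

open Pool.Agent.H721R2 Pool.Agent.H789R2.AN Pool.Agent.H789R2.GP Pool.Agent.H779R2.An
open Filter Topology

variable {X E : Type*} [MetricSpace X] [CompactSpace X] [NormedAddCommGroup E]
  [InnerProductSpace ℝ E] [FiniteDimensional ℝ E]

/-- The stable leaf of `p` with its metric. -/
abbrev SLf (g : X ≃ₜ X) (p : X) : Type _ := {s : SM g // WS g p s.val}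

/-- Coordinates on `W^u(p) × W^s(p)`: the linearizing coordinate on the first factor. -/
structure Xi {S : HypSys X E} (F : Flat S) (p : X) where
  Ξ : Leaf S.g p ≃ₜ (S.Vu p × SLf S.g p)
  fst : ∀ z, ((Ξ z).1 : E) = F.Lc p z.u
  snd : ∀ z, (Ξ z).2.1.val = z.s

/-- The covering map in these coordinates. -/
noncomputable def Xi.P {S : HypSys X E} {F : Flat S} {p : X} (x : Xi F p) {c : ℝ}
    (T : QS S.g c) (y : S.Vu p × SLf S.g p) : X := (x.Ξ.symm y).pr T

/-- `Γ` is the set of `Lc`-coordinates of the deck points. -/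
def IsGam {S : HypSys X E} (F : Flat S) {c : ℝ} (T : QS S.g c) (p : X)
    (Γ : AddSubgroup (S.Vu p)) : Prop :=
  ∀ v : S.Vu p, v ∈ Γ ↔ ∃ z : Leaf S.g p, z.pr T = p ∧ F.Lc p z.u = v

/-- `σ` is the action of the deck group on the stable leaf. -/
def IsSig {S : HypSys X E} (F : Flat S) {c : ℝ} (T : QS S.g c) (p : X)
    (Γ : AddSubgroup (S.Vu p)) (σ : Γ → (SLf S.g p ≃ₜ SLf S.g p)) : Prop :=
  ∀ (a : Γ) (z : Leaf S.g p), z.pr T = p → F.Lc p z.u = ((a : S.Vu p) : E) →
    ∀ s : SLf S.g p, T.Q z.u s.1.val p (σ a s).1.val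

end Pool.Agent.H779R2.To
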