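import Pool.Agent.H779R2.To.GTrans

set_option autoImplicit false

namespace Pool.Agent.H779R2.To

open Pool.Agent.H721R2 Pool.Agent.H789R2.AN Pool.Agent.H789R2.GP Pool.Agent.H779R2.An
open Filter Topology

variable {X E : Type*} [MetricSpace X] [CompactSpace X] [NormedAddCommGroup E]
  [InnerProductSpace ℝ E] [FiniteDimensional ℝ E]

/-- V6: the fibres of the covering map are the orbits of the action. -/
theorem xi_fib {S : HypSys X E} {F : Flat S} (J : CJ F)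
    (h2 : ∀ x, Module.finrank ℝ (S.Vu x) = 2) {c : ℝ} {T : QS S.g c}
    (hT : ∀ a s u x, T.Q a s u x ↔ QdF F a s u x) {p : X} (x : Xi F p) (Γ : AddSubgroup (S.Vu p))
    (hΓ : IsGam F T p Γ) (σ : Γ → (SLf S.g p ≃ₜ SLf S.g p)) (hσ : IsSig F T p Γ σ)
    (y y' : S.Vu p × SLf S.g p) :
    x.P T y = x.P T y' ↔ ∃ a : Γ, y' = (y.1 + (a : S.Vu p), σ a y.2) := by
  obtain ⟨w, rfl⟩ := x.Ξ.surjective y
  obtain ⟨w', rfl⟩ := x.Ξ.surjective y'
  have hP : ∀ v, x.P T (x.Ξ v) = v.pr T := fun v => by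
    show (x.Ξ.symm (x.Ξ v)).pr T = _
    rw [Homeomorph.symm_apply_apply]
  rw [hP, hP]
  constructor
  · intro h
    have pw : T.Q p w.s w.u (w'.pr T) := by
      have := w.pr_spec T
      rwa [h] at this
    have pw' := w'.pr_spec T
    generalize w'.pr T = q at pw pw'
    have e1 : WS S.g.symm w.s q := T.wU _ _ _ _ pw
    have e2 : WS S.g.symm w'.s q := T.wU _ _ _ _ pw'
    obtain ⟨ζu, hζu⟩ := T.ex w'.s p w.s w'.hs.symm' (e2.trans e1.symm')
    have f1 : WS S.g w.s ζu := T.wS _ _ _ _ hζu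
    have f2 : WS S.g.symm p ζu := T.wU _ _ _ _ hζu
    obtain ⟨ζs, hζs⟩ := T.ex ζu p p (f1.symm'.trans w.hs.symm') f2.symm'
    let ζ : Leaf S.g p := ⟨ζu, ζs, f2, T.wS _ _ _ _ hζs⟩
    have hζ : ζ.pr T = p := Leaf.pr_eq T (T.flipU _ _ _ _ hζs)
    have g1 : T.Q p w'.s ζu w.s := T.flipS _ _ _ _ hζu
    have g1' : T.Q ζu w.s p w'.s := T.flipU _ _ _ _ g1
    have g2 : T.Q ζu w.s w'.u q := T.compU _ _ _ _ _ _ g1' pw'
    have g3 : T.Q ζu p w'.u w.u := T.compS _ _ _ _ _ _ g2 (T.flipS _ _ _ _ pw)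
    have g4 : T.Q p ζu w.u w'.u := T.flipS _ _ _ _ g3
    have g5 : T.Q ζs p p ζu := T.flipS _ _ _ _ (T.flipU _ _ _ _ hζs)
    have g6 : T.Q ζs p w.u w'.u := T.compU _ _ _ _ _ _ g5 g4
    have hd := deck_trans J h2 hT p ζ hζ w.u w'.u w.hu g6
    have hmem : (x.Ξ ζ).1 ∈ Γ := (hΓ _).2 ⟨ζ, hζ, (x.fst ζ).symm⟩
    refine ⟨⟨(x.Ξ ζ).1, hmem⟩, ?_⟩
    apply Prod.ext
    · apply Subtype.ext
      show ((x.Ξ w').1 : E) = ((x.Ξ w).1 : E) + ((x.Ξ ζ).1 : E)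
      rw [x.fst, x.fst, x.fst, hd]
    · apply Subtype.ext
      apply SM.ext
      have k1 := hσ ⟨(x.Ξ ζ).1, hmem⟩ ζ hζ (x.fst ζ).symm (x.Ξ w).2
      rw [x.snd] at k1
      show (x.Ξ w').2.1.val = _
      rw [x.snd]
      exact T.unique _ _ _ _ _ g1' k1
  · rintro ⟨a, ha⟩
    obtain ⟨z, hz, hLz⟩ := (hΓ (a : S.Vu p)).1 a.2
    have q0 : T.Q p z.s z.u p := by
      have := z.pr_spec T
      rwa [hz] at this
    have hsp : WS S.g.symm z.s p := T.wU _ _ _ _ q0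
    have hup : WS S.g z.u p := T.wS _ _ _ _ q0
    obtain ⟨u', hu'⟩ := T.ex z.s p w.u z.hs.symm' (hsp.trans w.hu)
    obtain ⟨t', ht'⟩ := T.ex z.u w.s p (hup.trans w.hs) z.hu.symm'
    let v : Leaf S.g p := ⟨u', t', T.wU _ _ _ _ hu', T.wS _ _ _ _ ht'⟩
    have hv : v.pr T = w.pr T := by
      apply Leaf.pr_eq
      show T.Q p t' u' (w.pr T)
      have a1 : T.Q p t' z.u w.s := T.flipU _ _ _ _ ht'
      have a2 : T.Q p z.u z.s p := T.flipU _ _ _ _ (T.flipS _ _ _ _ q0)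
      have a3 : T.Q p z.u w.u u' := T.compU _ _ _ _ _ _ a2 hu'
      have a4 : T.Q z.u p u' w.u := T.flipS _ _ _ _ a3
      have a5 : T.Q z.u w.s u' (w.pr T) := T.compS _ _ _ _ _ _ a4 (w.pr_spec T)
      exact T.compU _ _ _ _ _ _ a1 a5
    have hvw : x.Ξ v = x.Ξ w' := by
      rw [ha]
      apply Prod.ext
      · apply Subtype.ext
        show ((x.Ξ v).1 : E) = ((x.Ξ w).1 : E) + ((a : S.Vu p) : E)
        rw [x.fst, x.fst]
        have hd := deck_trans J h2 hT p z hz w.u u' w.hu hu'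
        show F.Lc p u' = _
        rw [hd, hLz]
      · apply Subtype.ext
        apply SM.ext
        have k1 := hσ a z hz hLz (x.Ξ w).2
        rw [x.snd] at k1
        show (x.Ξ v).2.1.val = _
        rw [x.snd]
        exact T.unique _ _ _ _ _ ht' k1
    rw [← x.Ξ.injective hvw, hv]

end Pool.Agent.H779R2.To
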