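import Pool.Agent.H779R2.To.GTrans

set_option autoImplicit false

namespace Pool.Agent.H779R2.To

open Pool.Agent.H721R2 Pool.Agent.H789R2.AN Pool.Agent.H789R2.GP Pool.Agent.H779R2.An
open Filter Topology

variable {X E : Type*} [MetricSpace X] [CompactSpace X] [NormedAddCommGroup E]
  [InnerProductSpace ℝ E] [FiniteDimensional ℝ E]

private theorem gam_Qass {g : X ≃ₜ X} {c : ℝ} (T : QS g c) {a s : X} (h : WS g a s) :
    T.Q a s a s := by
  obtain ⟨x, hx⟩ := T.ex a s a h (WS.refl _ _)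
  exact T.compU _ _ _ _ _ _ hx (T.flipU _ _ _ _ hx)

/-- V3: the coordinates of the deck points form a group. -/
theorem exists_gam {S : HypSys X E} {F : Flat S} (J : CJ F)
    (h2 : ∀ x, Module.finrank ℝ (S.Vu x) = 2) {c : ℝ} {T : QS S.g c}
    (hT : ∀ a s u x, T.Q a s u x ↔ QdF F a s u x) (p : X) :
    ∃ Γ : AddSubgroup (S.Vu p), IsGam F T p Γ := by
  -- sums of deck points
  have hadd : ∀ z z' : Leaf S.g p, z.pr T = p → z'.pr T = p →
      ∃ z'' : Leaf S.g p, z''.pr T = p ∧ F.Lc p z''.u = F.Lc p z.u + F.Lc p z'.u := by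
    intro z z' hz hz'
    have q0 : T.Q p z.s z.u p := by
      have := z.pr_spec T
      rwa [hz] at this
    have hsp : WS S.g.symm z.s p := T.wU _ _ _ _ q0
    have hup : WS S.g z.u p := T.wS _ _ _ _ q0
    obtain ⟨u2, hu2⟩ := T.ex z.s p z'.u z.hs.symm' (hsp.trans z'.hu)
    obtain ⟨s2, hs2⟩ := T.ex z.u z'.s p (hup.trans z'.hs) z.hu.symm'
    have q1 : T.Q z.s p p z.u := T.flipS _ _ _ _ q0
    refine ⟨⟨u2, s2, T.wU _ _ _ _ hu2, T.wS _ _ _ _ hs2⟩, ?_, ?_⟩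
    · apply Leaf.pr_eq
      show T.Q p s2 u2 p
      have a1 : T.Q p s2 z.u z'.s := T.flipU _ _ _ _ hs2
      have a2 : T.Q p z.u z.s p := T.flipU _ _ _ _ q1
      have a3 : T.Q p z.u z'.u u2 := T.compU _ _ _ _ _ _ a2 hu2
      have a4 : T.Q z.u p u2 z'.u := T.flipS _ _ _ _ a3
      have a6 : T.Q p z'.s z'.u p := by
        have := z'.pr_spec T
        rwa [hz'] at this
      have a5 : T.Q z.u z'.s u2 p := T.compS _ _ _ _ _ _ a4 a6
      exact T.compU _ _ _ _ _ _ a1 a5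
    · show F.Lc p u2 = _
      rw [deck_trans J h2 hT p z hz z'.u u2 z'.hu hu2, add_comm]
  -- inverses of deck points
  have hneg : ∀ z : Leaf S.g p, z.pr T = p →
      ∃ z'' : Leaf S.g p, z''.pr T = p ∧ F.Lc p z''.u = -F.Lc p z.u := by
    intro z hz
    have q0 : T.Q p z.s z.u p := by
      have := z.pr_spec T
      rwa [hz] at this
    have hsp : WS S.g.symm z.s p := T.wU _ _ _ _ q0
    have hup : WS S.g z.u p := T.wS _ _ _ _ q0
    refine ⟨⟨z.s, z.u, hsp.symm', hup.symm'⟩, ?_, ?_⟩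
    · apply Leaf.pr_eq
      show T.Q p z.u z.s p
      exact T.flipS _ _ _ _ (T.flipU _ _ _ _ q0)
    · show F.Lc p z.s = _
      have h3 := deck_trans J h2 hT p z hz z.s p hsp.symm' (gam_Qass T z.hs.symm')
      rw [F.Lc_self] at h3
      exact eq_neg_of_add_eq_zero_left h3.symm
  have hzero : (Leaf.base S.g p).pr T = p := by
    apply Leaf.pr_eq
    exact gam_Qass T (WS.refl _ _)
  refine ⟨{
    carrier := {v | ∃ z : Leaf S.g p, z.pr T = p ∧ F.Lc p z.u = v}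
    add_mem' := ?_
    zero_mem' := ?_
    neg_mem' := ?_ }, ?_⟩
  · rintro v v' ⟨z, hz, hv⟩ ⟨z', hz', hv'⟩
    obtain ⟨z2, hz2, h⟩ := hadd z z' hz hz'
    exact ⟨z2, hz2, by rw [h, hv, hv']; rfl⟩
  · exact ⟨Leaf.base S.g p, hzero, F.Lc_self p⟩
  · rintro v ⟨z, hz, hv⟩
    obtain ⟨z2, hz2, h⟩ := hneg z hz
    exact ⟨z2, hz2, by rw [h, hv]; rfl⟩
  · intro v
    exact Iff.rfl

end Pool.Agent.H779R2.To
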