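import Pool.Agent.H779R2.To.GDef

set_option autoImplicit false

namespace Pool.Agent.H779R2.To

open Pool.Agent.H721R2 Pool.Agent.H789R2.AN Pool.Agent.H789R2.GP Pool.Agent.H779R2.An
open Filter Topology

variable {X E : Type*} [MetricSpace X] [CompactSpace X] [NormedAddCommGroup E]
  [InnerProductSpace ℝ E] [FiniteDimensional ℝ E]

/-- V8: equivariance of the covering map. -/
theorem xi_gt {S : HypSys X E} {F : Flat S} {c : ℝ} {T : QS S.g c}
    (hT : ∀ a s u x, T.Q a s u x ↔ QdF F a s u x) {p : X} (x : Xi F p) (N : ℕ)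
    (hp : S.g^[N] p = p) (A : S.Vu p ≃L[ℝ] S.Vu p) (hA : ∀ v : S.Vu p, (A v : E) = Dn S N p v)
    (G : SLf S.g p ≃ₜ SLf S.g p) (hG : ∀ s, (G s).1.val = S.g^[N] s.1.val)
    (y : S.Vu p × SLf S.g p) : x.P T (A y.1, G y.2) = S.g^[N] (x.P T y) := by
  have hz1 : ((y.1 : S.Vu p) : E) = F.Lc p (x.Ξ.symm y).u := by
    have := x.fst (x.Ξ.symm y)
    rwa [x.Ξ.apply_symm_apply] at this
  have hz2 : y.2.1.val = (x.Ξ.symm y).s := by
    have := x.snd (x.Ξ.symm y)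
    rwa [x.Ξ.apply_symm_apply] at this
  have hw1 : ((A y.1 : S.Vu p) : E) = F.Lc p (x.Ξ.symm (A y.1, G y.2)).u := by
    have := x.fst (x.Ξ.symm (A y.1, G y.2))
    rwa [x.Ξ.apply_symm_apply] at this
  have hw2 : (G y.2).1.val = (x.Ξ.symm (A y.1, G y.2)).s := by
    have := x.snd (x.Ξ.symm (A y.1, G y.2))
    rwa [x.Ξ.apply_symm_apply] at this
  unfold Xi.P
  set z := x.Ξ.symm y with hz
  set w := x.Ξ.symm (A y.1, G y.2) with hw
  have hQ : QdF F p z.s z.u (z.pr T) := (hT _ _ _ _).1 (z.pr_spec T)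
  have hQN := hQ.iter N
  rw [hp] at hQN
  have hzu : UAsym S p z.u := hQ.2.1
  have hzuN : UAsym S p (S.g^[N] z.u) := hQN.2.1
  have hs : S.g^[N] z.s = w.s := by rw [← hw2, hG, hz2]
  have hu : S.g^[N] z.u = w.u := by
    refine F.inj p _ _ hzuN w.hu ?_
    have h1 := F.Lc_iter hzu N
    rw [hp] at h1
    rw [h1, ← hw1, hA, hz1]
  rw [hs, hu] at hQN
  exact w.pr_eq T ((hT _ _ _ _).2 hQN)

end Pool.Agent.H779R2.To
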