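import Pool.Agent.H779R2.To.GDef

set_option autoImplicit false

namespace Pool.Agent.H779R2.To

open Pool.Agent.H721R2 Pool.Agent.H789R2.AN Pool.Agent.H789R2.GP Pool.Agent.H779R2.An
open Filter Topology

variable {X E : Type*} [MetricSpace X] [CompactSpace X] [NormedAddCommGroup E]
  [InnerProductSpace ℝ E] [FiniteDimensional ℝ E]

/-- V14: the covering map is injective on stable leaves. -/
theorem xi_inj {S : HypSys X E} {F : Flat S} {c : ℝ} {T : QS S.g c}
    (hT : ∀ a s u x, T.Q a s u x ↔ QdF F a s u x) {p : X} (x : Xi F p) (u : S.Vu p)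
    (s s' : SLf S.g p) (h : x.P T (u, s) = x.P T (u, s')) : s = s' := by
  obtain ⟨z, hz⟩ : ∃ z, x.Ξ z = (u, s) := ⟨x.Ξ.symm (u, s), x.Ξ.apply_symm_apply _⟩
  obtain ⟨z', hz'⟩ : ∃ z, x.Ξ z = (u, s') := ⟨x.Ξ.symm (u, s'), x.Ξ.apply_symm_apply _⟩
  have e1 : x.P T (u, s) = z.pr T := by
    unfold Xi.P
    rw [← hz, Homeomorph.symm_apply_apply]
  have e2 : x.P T (u, s') = z'.pr T := by
    unfold Xi.P
    rw [← hz', Homeomorph.symm_apply_apply]
  have h1 : T.Q p z.s z.u (z.pr T) := z.pr_spec T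
  have h2 : T.Q p z'.s z'.u (z'.pr T) := z'.pr_spec T
  have a1 := x.fst z
  have a2 := x.fst z'
  have b1 := x.snd z
  have b2 := x.snd z'
  rw [hz] at a1 b1
  rw [hz'] at a2 b2
  have hu : z.u = z'.u := F.inj p z.u z'.u z.hu z'.hu (a1.symm.trans a2)
  rw [← hu, ← e2, ← h, e1] at h2
  have hs : z.s = z'.s :=
    T.unique _ _ _ _ _ (T.flipU _ _ _ _ h1) (T.flipU _ _ _ _ h2)
  apply Subtype.ext
  have h3 : s.1.val = s'.1.val := by
    rw [show s.1.val = z.s from b1, show s'.1.val = z'.s from b2, hs]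
  rcases hs1 : s.1 with ⟨v⟩
  rcases hs2 : s'.1 with ⟨v'⟩
  rw [hs1, hs2] at h3
  exact congrArg SM.mk h3

end Pool.Agent.H779R2.To
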