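import Pool.Agent.H779R2.To.GDef

set_option autoImplicit false

namespace Pool.Agent.H779R2.To

open Pool.Agent.H721R2 Pool.Agent.H789R2.AN Pool.Agent.H789R2.GP Pool.Agent.H779R2.An
open Filter Topology

variable {X E : Type*} [MetricSpace X] [CompactSpace X] [NormedAddCommGroup E]
  [InnerProductSpace ℝ E] [FiniteDimensional ℝ E]

private theorem v7_fix {g : X ≃ₜ X} {p : X} {N : ℕ} (hp : g^[N] p = p) : g.symm^[N] p = p := by
  have := iterL g N p
  rwa [hp] at this

/-- V7: the derivative of `g^N` on `Vu p` at a periodic point. -/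
theorem exists_A (S : HypSys X E) (p : X) (N : ℕ) (hN : 1 ≤ N) (hp : S.g^[N] p = p) :
    ∃ A : S.Vu p ≃L[ℝ] S.Vu p, (∀ v : S.Vu p, (A v : E) = Dn S N p v) ∧
      ∀ v, ‖A.symm v‖ ≤ 1 / 2 * ‖v‖ := by
  have hp' : S.g.symm^[N] p = p := v7_fix hp
  have m1 : ∀ v : S.Vu p, Dn S N p (v : E) ∈ S.Vu p := by
    intro v
    have := Dn_mem S N p v.2
    rwa [hp] at this
  have m2 : ∀ v : S.Vu p, Dn S.symm N p (v : E) ∈ S.Vu p := by
    intro v
    have := Dn_symm_mem S N p v.2
    rwa [hp'] at this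
  set L : S.Vu p ≃ₗ[ℝ] S.Vu p :=
    { toFun := fun v => ⟨Dn S N p (v : E), m1 v⟩
      invFun := fun v => ⟨Dn S.symm N p (v : E), m2 v⟩
      map_add' := fun v w => by
        apply Subtype.ext
        simp
      map_smul' := fun c v => by
        apply Subtype.ext
        simp
      left_inv := fun v => by
        apply Subtype.ext
        have := Dn_symm_Dn S N p v.2
        rw [hp] at this
        exact this
      right_inv := fun v => by
        apply Subtype.ext
        have := Dn_Dn_symm S N p v.2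
        rw [hp'] at this
        exact this } with hL
  refine ⟨L.toContinuousLinearEquiv, fun v => rfl, fun v => ?_⟩
  have h1 : ‖L.toContinuousLinearEquiv.symm v‖ = ‖Dn S.symm N p (v : E)‖ := rfl
  rw [h1]
  refine (Dn_symm_le S N p v.2).trans ?_
  have h2 : (1 / 16 : ℝ) ^ N ≤ 1 / 2 := by
    calc (1 / 16 : ℝ) ^ N ≤ (1 / 16) ^ 1 :=
          pow_le_pow_of_le_one (by norm_num) (by norm_num) hN
      _ ≤ 1 / 2 := by norm_num
  exact mul_le_mul_of_nonneg_right h2 (norm_nonneg _)

private theorem v7_SR_iter {g : X ≃ₜ X} {ε : ℝ} {x y : X} (m : ℕ) (h : SR g ε x y) :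
    SR g ε (g^[m] x) (g^[m] y) := fun k => by
  rw [← Function.iterate_add_apply, ← Function.iterate_add_apply]
  exact h _

private theorem v7_SR_back (g : X ≃ₜ X) (N : ℕ) (ε : ℝ) (hε : 0 < ε) :
    ∃ η > 0, ∀ x y : X, SR g η x y → SR g ε (g.symm^[N] x) (g.symm^[N] y) := by
  have h1 : ∀ j : ℕ, ∃ η > 0, ∀ x y : X, dist x y ≤ η →
      dist (g.symm^[j] x) (g.symm^[j] y) ≤ ε := by
    intro j
    have hu : UniformContinuous (g.symm^[j]) :=
      CompactSpace.uniformContinuous_of_continuous (g.symm.continuous.iterate j)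
    rw [Metric.uniformContinuous_iff] at hu
    obtain ⟨δ, hδ, h⟩ := hu ε hε
    exact ⟨δ / 2, by positivity, fun x y hxy => (h (by linarith)).le⟩
  choose η hη h2 using h1
  have hne : (Finset.range (N + 1)).Nonempty := ⟨0, by simp⟩
  refine ⟨min ε ((Finset.range (N + 1)).inf' hne η), lt_min hε ?_, ?_⟩
  · rw [Finset.lt_inf'_iff]
    exact fun j _ => hη j
  · intro x y hxy k
    rcases le_or_gt N k with hk | hk
    · obtain ⟨l, rfl⟩ := Nat.exists_eq_add_of_le hk
      rw [Nat.add_comm N l, Function.iterate_add_apply, Function.iterate_add_apply, iterR, iterR]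
      exact (hxy l).trans (min_le_left _ _)
    · obtain ⟨l, rfl⟩ := Nat.exists_eq_add_of_le hk.le
      rw [Function.iterate_add_apply g.symm, Function.iterate_add_apply g.symm, iterR, iterR]
      apply h2 l
      have h3 := (hxy 0).trans (min_le_right _ _)
      exact h3.trans (Finset.inf'_le _ (Finset.mem_range.mpr (by omega)))

/-- V7: the map `g^N` on the stable leaf. -/
theorem exists_G (g : X ≃ₜ X) (p : X) (N : ℕ) (hp : g^[N] p = p) :
    ∃ G : SLf g p ≃ₜ SLf g p, ∀ s, (G s).1.val = g^[N] s.1.val := by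
  have hp' : g.symm^[N] p = p := v7_fix hp
  have m1 : ∀ s : SLf g p, WS g p (g^[N] s.1.val) := by
    intro s
    have := (WS.iter (g := g) N).mpr s.2
    rwa [hp] at this
  have m2 : ∀ s : SLf g p, WS g p (g.symm^[N] s.1.val) := by
    intro s
    have h1 : WS g (g^[N] (g.symm^[N] p)) (g^[N] (g.symm^[N] s.1.val)) := by
      rw [iterR, iterR]; exact s.2
    have h2 := (WS.iter (g := g) N).mp h1
    rwa [hp'] at h2
  refine ⟨{ toFun := fun s => ⟨⟨g^[N] s.1.val⟩, m1 s⟩
            invFun := fun s => ⟨⟨g.symm^[N] s.1.val⟩, m2 s⟩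
            left_inv := fun s => Subtype.ext (SM.ext (iterL g N s.1.val))
            right_inv := fun s => Subtype.ext (SM.ext (iterR g N s.1.val))
            continuous_toFun := ?_
            continuous_invFun := ?_ }, fun s => rfl⟩
  · rw [Metric.continuous_iff]
    intro b ε hε
    refine ⟨ε / 2, by positivity, fun a ha => ?_⟩
    have h1 : SR g (ε / 2) a.1.val b.1.val := (SM.dist_le a.1 b.1 (by positivity)).mp ha.le
    have h2 : dist (⟨g^[N] a.1.val⟩ : SM g) ⟨g^[N] b.1.val⟩ ≤ ε / 2 :=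
      (SM.dist_le _ _ (by positivity)).mpr (v7_SR_iter N h1)
    have h3 : dist (⟨g^[N] a.1.val⟩ : SM g) ⟨g^[N] b.1.val⟩ < ε := by linarith
    exact h3
  · rw [Metric.continuous_iff]
    intro b ε hε
    obtain ⟨η, hη, h⟩ := v7_SR_back g N (ε / 2) (by positivity)
    refine ⟨η, hη, fun a ha => ?_⟩
    have h1 : SR g η a.1.val b.1.val := (SM.dist_le a.1 b.1 hη.le).mp ha.le
    have h2 : dist (⟨g.symm^[N] a.1.val⟩ : SM g) ⟨g.symm^[N] b.1.val⟩ ≤ ε / 2 :=
      (SM.dist_le _ _ (by positivity)).mpr (h _ _ h1)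
    have h3 : dist (⟨g.symm^[N] a.1.val⟩ : SM g) ⟨g.symm^[N] b.1.val⟩ < ε := by linarith
    exact h3

end Pool.Agent.H779R2.To
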