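import Pool.Agent.H779R2.To.GDef
import Pool.Agent.H779R2.An.LGlob

set_option autoImplicit false

namespace Pool.Agent.H779R2.To

open Pool.Agent.H721R2 Pool.Agent.H789R2.AN Pool.Agent.H789R2.GP Pool.Agent.H779R2.An
open Filter Topology

variable {X E : Type*} [MetricSpace X] [CompactSpace X] [NormedAddCommGroup E]
  [InnerProductSpace ℝ E] [FiniteDimensional ℝ E]

omit [CompactSpace X] [FiniteDimensional ℝ E] in
theorem symm_iter_fix {S : HypSys X E} {p : X} {N : ℕ} (hp : S.g^[N] p = p) :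
    S.g.symm^[N] p = p := by
  have h := iter_symm_iter S N p
  rwa [hp] at h

/-- The image of a deck point under `g^N`. -/
def fwLeaf {S : HypSys X E} {p : X} {N : ℕ} (hp : S.g^[N] p = p) (z : Leaf S.g p) :
    Leaf S.g p where
  u := S.g^[N] z.u
  s := S.g^[N] z.s
  hu := by
    have h : UAsym S p z.u := z.hu
    have h2 := h.iter N
    rw [hp] at h2
    exact h2
  hs := by
    have h : SAsym S p z.s := z.hs
    have h2 := h.iter N
    rw [hp] at h2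
    exact h2

/-- The image of a deck point under `g^{-N}`. -/
def bkLeaf {S : HypSys X E} {p : X} {N : ℕ} (hp : S.g^[N] p = p) (z : Leaf S.g p) :
    Leaf S.g p where
  u := S.g.symm^[N] z.u
  s := S.g.symm^[N] z.s
  hu := by
    have h : UAsym S p z.u := z.hu
    have h2 := h.symm_iter N
    rw [symm_iter_fix hp] at h2
    exact h2
  hs := by
    have h : SAsym S p z.s := z.hs
    have h2 := h.symm_iter N
    rw [symm_iter_fix hp] at h2
    exact h2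

theorem fwLeaf_pr {S : HypSys X E} {F : Flat S} {c : ℝ} {T : QS S.g c}
    (hT : ∀ a s u x, T.Q a s u x ↔ QdF F a s u x) {p : X} {N : ℕ}
    (hp : S.g^[N] p = p) (z : Leaf S.g p) (hz : z.pr T = p) : (fwLeaf hp z).pr T = p := by
  have h1 := z.pr_spec T
  rw [hz, hT] at h1
  have h2 := h1.iter N
  rw [hp] at h2
  exact Leaf.pr_eq T ((hT _ _ _ _).2 h2)

theorem bkLeaf_pr {S : HypSys X E} {F : Flat S} {c : ℝ} {T : QS S.g c}
    (hT : ∀ a s u x, T.Q a s u x ↔ QdF F a s u x) {p : X} {N : ℕ}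
    (hp : S.g^[N] p = p) (z : Leaf S.g p) (hz : z.pr T = p) : (bkLeaf hp z).pr T = p := by
  have h1 := z.pr_spec T
  rw [hz, hT] at h1
  have h2 := h1.back N
  rw [symm_iter_fix hp] at h2
  exact Leaf.pr_eq T ((hT _ _ _ _).2 h2)

theorem fwLeaf_Lc {S : HypSys X E} (F : Flat S) {p : X} {N : ℕ}
    (hp : S.g^[N] p = p) (z : Leaf S.g p) :
    F.Lc p (fwLeaf hp z).u = Dn S N p (F.Lc p z.u) := by
  have h : UAsym S p z.u := z.hu
  have h2 := F.Lc_iter h N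
  rw [hp] at h2
  exact h2

theorem bkLeaf_Lc {S : HypSys X E} (F : Flat S) {p : X} {N : ℕ}
    (hp : S.g^[N] p = p) (z : Leaf S.g p) :
    Dn S N p (F.Lc p (bkLeaf hp z).u) = F.Lc p z.u := by
  have h : UAsym S p z.u := z.hu
  have h2 := F.Lc_back h N
  rw [symm_iter_fix hp] at h2
  have h3 : F.Lc p (bkLeaf hp z).u = Dn S.symm N p (F.Lc p z.u) := h2
  rw [h3]
  have h4 := Dn_Dn_symm S N p (F.Lc_mem p z.u h)
  rwa [symm_iter_fix hp] at h4

theorem A_mem_iff {S : HypSys X E} {F : Flat S} {c : ℝ} {T : QS S.g c}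
    (hT : ∀ a s u x, T.Q a s u x ↔ QdF F a s u x) (p : X) (N : ℕ)
    (hp : S.g^[N] p = p) (A : S.Vu p ≃L[ℝ] S.Vu p) (hA : ∀ v : S.Vu p, (A v : E) = Dn S N p v)
    (Γ : AddSubgroup (S.Vu p)) (hΓ : IsGam F T p Γ) (v : S.Vu p) : A v ∈ Γ ↔ v ∈ Γ := by
  rw [hΓ, hΓ]
  constructor
  · rintro ⟨z, hz, hv⟩
    refine ⟨bkLeaf hp z, bkLeaf_pr hT hp z hz, ?_⟩
    have h1 := bkLeaf_Lc F hp z
    rw [hv, hA] at h1
    have hu : UAsym S p (bkLeaf hp z).u := (bkLeaf hp z).hu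
    have h2 : A ⟨F.Lc p (bkLeaf hp z).u, F.Lc_mem p _ hu⟩ = A v := by
      apply Subtype.ext
      rw [hA, hA]
      exact h1
    exact congrArg Subtype.val (A.injective h2)
  · rintro ⟨z, hz, hv⟩
    refine ⟨fwLeaf hp z, fwLeaf_pr hT hp z hz, ?_⟩
    rw [fwLeaf_Lc, hv, hA]

/-- V9: the automorphism of `Γ` induced by `g^N`. -/
theorem exists_phi {S : HypSys X E} {F : Flat S} {c : ℝ} {T : QS S.g c}
    (hT : ∀ a s u x, T.Q a s u x ↔ QdF F a s u x) (p : X) (N : ℕ)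
    (hp : S.g^[N] p = p) (A : S.Vu p ≃L[ℝ] S.Vu p) (hA : ∀ v : S.Vu p, (A v : E) = Dn S N p v)
    (G : SLf S.g p ≃ₜ SLf S.g p) (hG : ∀ s, (G s).1.val = S.g^[N] s.1.val)
    (Γ : AddSubgroup (S.Vu p)) (hΓ : IsGam F T p Γ) (σ : Γ → (SLf S.g p ≃ₜ SLf S.g p))
    (hσ : IsSig F T p Γ σ) : ∃ φ : Γ ≃+ Γ, (∀ a : Γ, ((φ a : Γ) : S.Vu p) = A (a : S.Vu p)) ∧
      ∀ a s, G (σ a s) = σ (φ a) (G s) := by
  have key := A_mem_iff hT p N hp A hA Γ hΓ
  have keyS : ∀ v : S.Vu p, v ∈ Γ → A.symm v ∈ Γ := by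
    intro v hv
    rw [← key, A.apply_symm_apply]
    exact hv
  let φ : Γ ≃+ Γ :=
    { toFun := fun a => ⟨A (a : S.Vu p), (key _).2 a.2⟩
      invFun := fun a => ⟨A.symm (a : S.Vu p), keyS _ a.2⟩
      left_inv := fun a => Subtype.ext (A.symm_apply_apply _)
      right_inv := fun a => Subtype.ext (A.apply_symm_apply _)
      map_add' := fun a b => Subtype.ext (by
        show A ((a : S.Vu p) + (b : S.Vu p)) = A (a : S.Vu p) + A (b : S.Vu p)
        exact map_add A _ _) }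
  have hφ : ∀ a : Γ, ((φ a : Γ) : S.Vu p) = A (a : S.Vu p) := fun a => rfl
  refine ⟨φ, hφ, fun a s => ?_⟩
  obtain ⟨z, hz, hv⟩ := (hΓ (a : S.Vu p)).1 a.2
  have h1 := hσ a z hz hv s
  rw [hT] at h1
  have h2 := h1.iter N
  rw [hp] at h2
  have h3 := hσ (φ a) (fwLeaf hp z) (fwLeaf_pr hT hp z hz)
    (by rw [fwLeaf_Lc, hv, hφ, hA]) (G s)
  have h4 : T.Q (fwLeaf hp z).u (G s).1.val p (G (σ a s)).1.val := by
    rw [hT, hG, hG]
    exact h2
  exact Subtype.ext (SM.ext (T.unique _ _ _ _ _ h4 h3))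

end Pool.Agent.H779R2.To
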