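import Pool.Agent.H779R2.To.GDef

set_option autoImplicit false

namespace Pool.Agent.H779R2.To

open Pool.Agent.H721R2 Pool.Agent.H789R2.AN Pool.Agent.H789R2.GP Pool.Agent.H779R2.An
open Filter Topology

variable {X E : Type*} [MetricSpace X] [CompactSpace X] [NormedAddCommGroup E]
  [InnerProductSpace ℝ E] [FiniteDimensional ℝ E]

namespace V4aux

omit [CompactSpace X] in
theorem deck_SR {g : X ≃ₜ X} {c' : ℝ} (hc' : 0 < c') {x y : X} (h : WS g x y) :
    ∃ j : ℕ, SR g c' (g^[j] x) (g^[j] y) := by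
  obtain ⟨j, hj⟩ := h.eventually_lt hc'
  refine ⟨j, fun k => ?_⟩
  rw [← Function.iterate_add_apply, ← Function.iterate_add_apply]
  exact (hj (k + j) (by omega)).le

omit [CompactSpace X] in
/-- the swapped deck point -/
theorem swap {g : X ≃ₜ X} {c : ℝ} (T : QS g c) {p u v : X} (q : T.Q p v u p) : T.Q p u v p :=
  T.flipS _ _ _ _ (T.flipU _ _ _ _ q)

omit [CompactSpace X] in
/-- existence of the image -/
theorem ex_im {g : X ≃ₜ X} {c : ℝ} (T : QS g c) {p u v : X} (q : T.Q p v u p)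
    (hu : WS g.symm p u) {s : X} (hs : WS g p s) : ∃ s', T.Q u s p s' ∧ WS g p s' := by
  obtain ⟨s', h⟩ := T.ex u s p ((T.wS _ _ _ _ q).trans hs) hu.symm'
  exact ⟨s', h, T.wS _ _ _ _ h⟩

omit [CompactSpace X] in
/-- the two maps are inverse to each other -/
theorem inv_im {g : X ≃ₜ X} {c : ℝ} (T : QS g c) {p u v : X} (q : T.Q p v u p) {s s₁ s₂ : X}
    (h1 : T.Q u s p s₁) (h2 : T.Q v s₁ p s₂) : s₂ = s := by
  have a1 : T.Q u p p v := T.flipU _ _ _ _ q
  have a2 : T.Q p u v p := T.flipS _ _ _ _ a1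
  have a3 : T.Q p s v s₁ := T.compS _ _ _ _ _ _ a2 h1
  have a4 : T.Q v s₁ p s := T.flipU _ _ _ _ a3
  exact T.unique _ _ _ _ _ h2 a4

theorem cont_im {g : X ≃ₜ X} {c : ℝ} (hc : 0 < c) (T : QS g c) {p u : X}
    (f : SLf g p → SLf g p) (hf : ∀ s, T.Q u s.1.val p (f s).1.val) : Continuous f := by
  rw [continuous_iff_continuousAt]
  intro s₁
  rw [Metric.continuousAt_iff]
  intro ε hε
  obtain ⟨j, hj⟩ := deck_SR hc (T.wU _ _ _ _ (hf s₁))
  obtain ⟨η, hη, hs⟩ := T.contS j (ε / 2) (by linarith)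
  refine ⟨η, hη, fun s₂ hw => ?_⟩
  rw [dist_comm] at hw
  have h2 : SR g η s₁.1.val s₂.1.val := (SM.dist_le s₁.1 s₂.1 hη.le).mp hw.le
  rw [dist_comm]
  have q1 : T.Q s₁.1.val s₂.1.val (f s₁).1.val (f s₂).1.val :=
    T.compS _ _ _ _ _ _ (T.flipS _ _ _ _ (hf s₁)) (hf s₂)
  have h3 := hs _ _ _ _ q1 h2 hj
  have h4 : dist (f s₁).1 (f s₂).1 ≤ ε / 2 :=
    (SM.dist_le (f s₁).1 (f s₂).1 (by linarith)).mpr h3
  exact lt_of_le_of_lt h4 (by linarith)

/-- one deck point gives one homeomorphism -/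
theorem one {g : X ≃ₜ X} {c : ℝ} (hc : 0 < c) (T : QS g c) {p u v : X} (q : T.Q p v u p)
    (hu : WS g.symm p u) : ∃ σ : SLf g p ≃ₜ SLf g p, ∀ s, T.Q u s.1.val p (σ s).1.val := by
  have hv : WS g.symm p v := (T.wU _ _ _ _ q).symm'
  have q' : T.Q p u v p := swap T q
  choose f hf hf' using fun s : SLf g p => ex_im T q hu s.2
  choose f2 hf2 hf2' using fun s : SLf g p => ex_im T q' hv s.2
  set F : SLf g p → SLf g p := fun s => ⟨⟨f s⟩, hf' s⟩ with hF
  set F2 : SLf g p → SLf g p := fun s => ⟨⟨f2 s⟩, hf2' s⟩ with hF2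
  have hFQ : ∀ s, T.Q u s.1.val p (F s).1.val := fun s => hf s
  have hF2Q : ∀ s, T.Q v s.1.val p (F2 s).1.val := fun s => hf2 s
  refine ⟨{ toFun := F, invFun := F2, left_inv := ?_, right_inv := ?_,
            continuous_toFun := cont_im hc T F hFQ,
            continuous_invFun := cont_im hc T F2 hF2Q }, hFQ⟩
  · intro s
    apply Subtype.ext
    apply SM.ext
    exact inv_im T q (hFQ s) (hF2Q (F s))
  · intro s
    apply Subtype.ext
    apply SM.ext
    exact inv_im T q' (hF2Q s) (hFQ (F2 s))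

end V4aux

open V4aux in
/-- V4: the action on the stable leaf. -/
theorem exists_sig {S : HypSys X E} {F : Flat S} {c : ℝ} {T : QS S.g c} (hc : 0 < c)
    (hT : ∀ a s u x, T.Q a s u x ↔ QdF F a s u x) (p : X) (Γ : AddSubgroup (S.Vu p))
    (hΓ : IsGam F T p Γ) : ∃ σ : Γ → (SLf S.g p ≃ₜ SLf S.g p), IsSig F T p Γ σ := by
  have key : ∀ a : Γ, ∃ σ : SLf S.g p ≃ₜ SLf S.g p, ∀ z : Leaf S.g p, z.pr T = p →
      F.Lc p z.u = ((a : S.Vu p) : E) → ∀ s : SLf S.g p, T.Q z.u s.1.val p (σ s).1.val := by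
    intro a
    obtain ⟨z, hz, hza⟩ := (hΓ (a : S.Vu p)).mp a.2
    have q : T.Q p z.s z.u p := by
      have := z.pr_spec T
      rwa [hz] at this
    obtain ⟨σ, hσ⟩ := one hc T q z.hu
    refine ⟨σ, fun z' _ hz'a s => ?_⟩
    have hu : z'.u = z.u := F.inj p _ _ z'.hu z.hu (hz'a.trans hza.symm)
    rw [hu]
    exact hσ s
  choose σ hσ using key
  exact ⟨σ, fun a z hz hza s => hσ a z hz hza s⟩

end Pool.Agent.H779R2.To
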