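import Pool.Agent.H779R2.To.GXi

set_option autoImplicit false

namespace Pool.Agent.H779R2.To

open Pool.Agent.H721R2 Pool.Agent.H789R2.AN Pool.Agent.H789R2.GP Pool.Agent.H779R2.An
open Filter Topology

variable {X E : Type*} [MetricSpace X] [CompactSpace X] [NormedAddCommGroup E]
  [InnerProductSpace ℝ E] [FiniteDimensional ℝ E]

/-- V13: topology of the leaves. -/
theorem leaf_top {E' : Type*} [NormedAddCommGroup E'] [NormedSpace ℝ E'] [ProperSpace E']
    [ChartedSpace E' X] {S : HypSys X E} {F : Flat S} {c c' : ℝ} (h : LP S.g c') (hc : 0 < c)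
    (T : QS S.g c) {p : X} (x : Xi F p) (N : ℕ) (hN : 1 ≤ N) (hp : S.g^[N] p = p) :
    PathConnectedSpace (SLf S.g p) ∧ LocallyCompactSpace (SLf S.g p) ∧
      SimplyConnectedSpace (S.Vu p × SLf S.g p) ∧
      LocallyPathConnectedSpace (S.Vu p × SLf S.g p) := by
  have hcov : IsCoveringMap (Leaf.pr T : Leaf S.g p → X) := pr_isCoveringMap h hc T p
  obtain ⟨ψ, hψ, -⟩ := hcov.isLocalHomeomorph (Leaf.base S.g p)
  let Φ := ψ.trans (chartAt E' (ψ (Leaf.base S.g p)))
  have hΦ : Leaf.base S.g p ∈ Φ.source := by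
    rw [OpenPartialHomeomorph.trans_source]
    exact ⟨hψ, mem_chart_source E' _⟩
  obtain ⟨e⟩ := leaf_homeo h p N hN hp Φ hΦ
  let w : (S.Vu p × SLf S.g p) ≃ₜ E' := (e.trans x.Ξ).symm
  have hcontr : ContractibleSpace (S.Vu p × SLf S.g p) := w.contractibleSpace
  have hpc : PathConnectedSpace (S.Vu p × SLf S.g p) := inferInstance
  refine ⟨?_, ?_, inferInstance, ?_⟩
  · have hsurj : Function.Surjective (Prod.snd : S.Vu p × SLf S.g p → SLf S.g p) :=
      fun s => ⟨(0, s), rfl⟩
    exact hsurj.pathConnectedSpace continuous_snd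
  · have hemb : IsClosedEmbedding (fun s : SLf S.g p => w ((0 : S.Vu p), s)) := by
      refine w.isClosedEmbedding.comp ?_
      refine ⟨?_, ?_⟩
      · exact isEmbedding_prodMkRight (0 : S.Vu p)
      · have : Set.range (Prod.mk (0 : S.Vu p) : SLf S.g p → S.Vu p × SLf S.g p) =
            Prod.fst ⁻¹' {0} := by
          ext ⟨a, b⟩
          simp [eq_comm]
        rw [this]
        exact isClosed_singleton.preimage continuous_fst
    exact hemb.locallyCompactSpace
  · exact w.isOpenEmbedding.locallyPathConnectedSpace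

end Pool.Agent.H779R2.To
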