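import Pool.Agent.H779R2.To.GDef

set_option autoImplicit false

namespace Pool.Agent.H779R2.To

open Pool.Agent.H721R2 Pool.Agent.H789R2.AN Pool.Agent.H789R2.GP Pool.Agent.H779R2.An
open Filter Topology

variable {X E : Type*} [MetricSpace X] [CompactSpace X] [NormedAddCommGroup E]
  [InnerProductSpace ℝ E] [FiniteDimensional ℝ E]

theorem xi_bound (A : E →ₗ[ℝ] E) : ∃ C > 0, ∀ v, ‖A v‖ ≤ C * ‖v‖ := by
  refine ⟨‖A.toContinuousLinearMap‖ + 1, by positivity, fun v => ?_⟩
  have h := A.toContinuousLinearMap.le_opNorm v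
  have h2 : A.toContinuousLinearMap v = A v := rfl
  rw [h2] at h
  nlinarith [norm_nonneg v]

/-- Change of base point for differences. -/
theorem xi_base {S : HypSys X E} (F : Flat S) {p x y : X} (hx : UAsym S p x) (hy : UAsym S p y) :
    F.Lc p y - F.Lc p x = F.τ x p (F.Lc x y) := by
  rw [F.base p x y hx hy, F.τ_comp p x p hx hx.symm _
    ((S.Vu p).sub_mem (F.Lc_mem _ _ hy) (F.Lc_mem _ _ hx)), F.τ_self p _
    ((S.Vu p).sub_mem (F.Lc_mem _ _ hy) (F.Lc_mem _ _ hx))]

/-- The global coordinate is continuous. -/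
theorem xi_cont {S : HypSys X E} (F : Flat S) {p x : X} (hx : UAsym S p x) (ε : ℝ) (hε : 0 < ε) :
    ∃ δ > 0, ∀ y, UAsym S p y → S.URel δ y x → ‖F.Lc p y - F.Lc p x‖ < ε := by
  obtain ⟨C, hC, hCv⟩ := xi_bound (F.τ x p)
  refine ⟨min F.ε₀ (ε / (4 * C)), lt_min F.geo.pos (by positivity), fun y hy hyx => ?_⟩
  rw [xi_base F hx hy]
  have h0 : S.URel F.ε₀ x y := (hyx.mono (min_le_left _ _)).symm
  have h1 := F.Lc_le x y h0
  have h2 : dist x y ≤ ε / (4 * C) := by
    have := hyx 0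
    rw [dist_comm]
    exact this.trans (min_le_right _ _)
  have h3 : ‖F.Lc x y‖ ≤ 2 * (ε / (4 * C)) := h1.trans (by linarith)
  calc ‖F.τ x p (F.Lc x y)‖ ≤ C * ‖F.Lc x y‖ := hCv _
    _ ≤ C * (2 * (ε / (4 * C))) := by gcongr
    _ = ε / 2 := by field_simp; norm_num
    _ < ε := by linarith

/-- The inverse of the global coordinate is continuous. -/
theorem xi_cont' {S : HypSys X E} (F : Flat S) {p x : X} (hx : UAsym S p x) (ε : ℝ) (hε : 0 < ε) :
    ∃ δ > 0, ∀ y, UAsym S p y → ‖F.Lc p y - F.Lc p x‖ ≤ δ → S.URel ε y x := by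
  obtain ⟨C, hC, hCv⟩ := xi_bound (F.τ p x)
  obtain ⟨ρ, hρ, h⟩ := F.small ε hε
  refine ⟨ρ / C, by positivity, fun y hy hyx => ?_⟩
  refine (h x y (hx.symm.trans hy) ?_).symm
  rw [F.base p x y hx hy]
  calc ‖F.τ p x (F.Lc p y - F.Lc p x)‖ ≤ C * ‖F.Lc p y - F.Lc p x‖ := hCv _
    _ ≤ C * (ρ / C) := by gcongr
    _ = ρ := by field_simp

/-- V1: the linearizing coordinate is a homeomorphism of the unstable leaf onto `Vu p`. -/
theorem exists_xi {S : HypSys X E} (F : Flat S) (p : X) : Nonempty (Xi F p) := by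
  classical
  have hsurj : ∀ v : S.Vu p, ∃ y, UAsym S p y ∧ F.Lc p y = v := fun v => deckaux_surj F p v.2
  choose I hI1 hI2 using hsurj
  let f : Leaf S.g p → (S.Vu p × SLf S.g p) := fun z =>
    (⟨F.Lc p z.u, F.Lc_mem p z.u z.hu⟩, ⟨⟨z.s⟩, z.hs⟩)
  let k : (S.Vu p × SLf S.g p) → Leaf S.g p := fun y => ⟨I y.1, y.2.1.val, hI1 y.1, y.2.2⟩
  have hfk : ∀ y, f (k y) = y := by
    intro y
    refine Prod.ext (Subtype.ext ?_) rfl
    exact hI2 y.1
  have hkf : ∀ z, k (f z) = z := by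
    intro z
    refine Leaf.ext ?_ rfl
    exact F.inj p _ _ (hI1 _) z.hu (hI2 _)
  have hfc : Continuous f := by
    rw [Metric.continuous_iff]
    intro b ε hε
    obtain ⟨δ, hδ, h⟩ := xi_cont F (p := p) (x := b.u) b.hu ε hε
    refine ⟨min δ (ε / 2), lt_min hδ (by linarith), fun a hab => ?_⟩
    have hpos : 0 ≤ min δ (ε / 2) := le_min hδ.le (by linarith)
    obtain ⟨h1, h2⟩ := (Leaf.dist_le a b hpos).mp hab.le
    rw [Prod.dist_eq, max_lt_iff]
    constructor
    · have h3 : S.URel δ a.u b.u := fun k => (h1 k).trans (min_le_left _ _)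
      have h4 := h a.u a.hu h3
      rw [Subtype.dist_eq, dist_eq_norm]
      exact h4
    · have h3 : dist (⟨a.s⟩ : SM S.g) ⟨b.s⟩ ≤ ε / 2 := by
        rw [SM.dist_le _ _ (by linarith)]
        exact fun k => (h2 k).trans (min_le_right _ _)
      rw [Subtype.dist_eq]
      exact lt_of_le_of_lt h3 (by linarith)
  have hkc : Continuous k := by
    rw [Metric.continuous_iff]
    intro b ε hε
    obtain ⟨δ, hδ, h⟩ := xi_cont' F (p := p) (x := I b.1) (hI1 b.1) (ε / 2) (by linarith)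
    refine ⟨min δ (ε / 2), lt_min hδ (by linarith), fun a hab => ?_⟩
    rw [Prod.dist_eq, max_lt_iff] at hab
    obtain ⟨h1, h2⟩ := hab
    refine lt_of_le_of_lt ((Leaf.dist_le (k a) (k b) (ε := ε / 2) (by linarith)).mpr ⟨?_, ?_⟩)
      (by linarith)
    · refine h (I a.1) (hI1 a.1) ?_
      rw [hI2, hI2]
      rw [Subtype.dist_eq, dist_eq_norm] at h1
      exact (h1.trans_le (min_le_left _ _)).le
    · rw [Subtype.dist_eq] at h2
      exact (SM.dist_le _ _ (by linarith)).mp ((h2.trans_le (min_le_right _ _)).le)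
  exact ⟨⟨{ toFun := f
            invFun := k
            left_inv := hkf
            right_inv := hfk
            continuous_toFun := hfc
            continuous_invFun := hkc }, fun z => rfl, fun z => rfl⟩⟩

end Pool.Agent.H779R2.To
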