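import Pool.Agent.H779R2.To.TMain
import Pool.Agent.H779R2.To.GXi
import Pool.Agent.H779R2.To.GGam
import Pool.Agent.H779R2.To.GSig
import Pool.Agent.H779R2.To.GAct
import Pool.Agent.H779R2.To.GFib
import Pool.Agent.H779R2.To.GMap
import Pool.Agent.H779R2.To.GGt
import Pool.Agent.H779R2.To.GPhi
import Pool.Agent.H779R2.To.GCpt
import Pool.Agent.H779R2.To.GChain
import Pool.Agent.H779R2.To.GTop
import Pool.Agent.H779R2.To.GInj

set_option autoImplicit false

namespace Pool.Agent.H779R2.To

open Pool.Agent.H721R2 Pool.Agent.H789R2.AN Pool.Agent.H789R2.GP Pool.Agent.H779R2.An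
open Filter Topology

variable {X E : Type*} [MetricSpace X] [CompactSpace X] [NormedAddCommGroup E]
  [InnerProductSpace ℝ E] [FiniteDimensional ℝ E]

/-- The translation data of a quadrilateral structure with affine holonomies. -/
theorem exists_tdat {E' : Type*} [NormedAddCommGroup E'] [NormedSpace ℝ E'] [ProperSpace E']
    [ChartedSpace E' X] [PreconnectedSpace X] {S : HypSys X E} {F : Flat S} (J : CJ F)
    (h2 : ∀ x, Module.finrank ℝ (S.Vu x) = 2) {c c' : ℝ} {T : QS S.g c} (h : LP S.g c')
    (hc : 0 < c) (hT : ∀ a s u x, T.Q a s u x ↔ QdF F a s u x) (p : X) (N : ℕ) (hN : 1 ≤ N)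
    (hp : S.g^[N] p = p) (f : X ≃ₜ X) (n : ℕ) (hn : 1 ≤ n) (hf : ∀ x, f^[n] x = S.g x) :
    IsToral f := by
  classical
  obtain ⟨x⟩ := exists_xi F p
  obtain ⟨Γ, hΓ⟩ := exists_gam J h2 hT p
  obtain ⟨σ, hσ⟩ := exists_sig hc hT p Γ hΓ
  obtain ⟨A, hA, hA'⟩ := exists_A S p N hN hp
  obtain ⟨G, hG⟩ := exists_G S.g p N hp
  obtain ⟨φ, hφ1, hφ2⟩ := exists_phi hT p N hp A hA G hG Γ hΓ σ hσ
  obtain ⟨hpc, hlc, hsc, hlp⟩ := leaf_top (E' := E') h hc T x N hN hp
  have hcov : IsCoveringMap (x.P T) := (pr_isCoveringMap h hc T p).comp_homeomorph x.Ξ.symm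
  have hsurj : Function.Surjective (x.P T) := by
    have : Nonempty (S.Vu p × SLf S.g p) := ⟨x.Ξ (Leaf.base _ _)⟩
    exact covering_surj hcov
  have hfib := xi_fib J h2 hT x Γ hΓ σ hσ
  let act : Γ → (S.Vu p × SLf S.g p) ≃ₜ (S.Vu p × SLf S.g p) := fun a =>
    { toFun := fun y => (y.1 + (a : S.Vu p), σ a y.2)
      invFun := fun y => (y.1 - (a : S.Vu p), (σ a).symm y.2)
      left_inv := fun y => by simp
      right_inv := fun y => by simp
      continuous_toFun := by fun_prop
      continuous_invFun := by fun_prop }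
  have hadd : ∀ a b y, act (a + b) y = act a (act b y) := by
    intro a b y
    refine Prod.ext ?_ (sig_add J h2 hT p Γ hΓ σ hσ a b y.2)
    change y.1 + ((a + b : Γ) : S.Vu p) = y.1 + (b : S.Vu p) + (a : S.Vu p)
    rw [AddSubgroup.coe_add]
    abel
  have hfree : ∀ a y, act a y = y → a = 0 := by
    intro a y hay
    have h1 : y.1 + (a : S.Vu p) = y.1 := congrArg Prod.fst hay
    have h3 : (a : S.Vu p) = 0 := by simpa using h1
    exact Subtype.ext h3
  obtain ⟨ε₁, hε₁, hcpt⟩ := xi_cpt hc hT x
  set ε := min ε₁ (F.ε₀ / 2) with hεdef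
  have hε₀ := F.geo.pos
  have hε : 0 < ε := by positivity
  have hdist : ∀ a b, S.SRel ε a b → dist a b ≤ ε := fun a b hab => hab 0
  have htri : ∀ a b d, S.SRel ε a b → S.SRel ε b d → S.SRel F.ε₀ a d := by
    intro a b d h1 h3 k
    have h4 : ε ≤ F.ε₀ / 2 := min_le_right _ _
    have := dist_triangle (S.g^[k] a) (S.g^[k] b) (S.g^[k] d)
    have h5 := h1 k
    have h6 := h3 k
    linarith
  have hstep : ∀ a b d, S.SRel ε a b → S.SRel ε b d →
      S.SRel ε (S.g^[N] a) (S.g^[N] d) := by
    intro a b d h1 h3 k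
    have h4 := F.geo.scontr a d (htri a b d h1 h3) (k + N)
    rw [← Function.iterate_add_apply, ← Function.iterate_add_apply]
    refine h4.trans ?_
    have h5 : dist a d ≤ 2 * ε := by
      have := dist_triangle a b d
      linarith [hdist a b h1, hdist b d h3]
    have h6 : (1 / 8 : ℝ) ^ (k + N) ≤ 1 / 8 := by
      obtain ⟨j, hj⟩ : ∃ j, k + N = j + 1 := ⟨k + N - 1, by omega⟩
      rw [hj, pow_succ]
      have : (1 / 8 : ℝ) ^ j ≤ 1 := pow_le_one₀ (by norm_num) (by norm_num)
      linarith
    calc (1 / 8 : ℝ) ^ (k + N) * dist a d ≤ 1 / 8 * (2 * ε) :=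
          mul_le_mul h6 h5 dist_nonneg (by norm_num)
      _ ≤ ε := by linarith
  have hgtP := xi_gt hT x N hp A hA G hG
  let D : TDat (S.Vu p) (SLf S.g p) Γ :=
    { σ := σ
      t := Γ.subtype
      σ_zero := sig_zero hT p Γ hΓ σ hσ
      σ_add := sig_add J h2 hT p Γ hΓ σ hσ
      t_inj := Subtype.coe_injective
      A := A
      G := G
      φ := φ
      A_symm_le := hA'
      t_φ := hφ1
      G_σ := hφ2
      proper := proper_of_cov (x.P T) hcov act hadd hfree hfib
      cocompact := by
        obtain ⟨K, hK, hK'⟩ := cocompact_of_cov (x.P T) hcov hsurj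
        refine ⟨K, hK, fun y => ?_⟩
        obtain ⟨y', hy', hyy⟩ := hK' (x.P T y)
        obtain ⟨a, ha⟩ := (hfib y y').mp hyy.symm
        exact ⟨a, ha ▸ hy'⟩
      St := fun u s s' => S.SRel ε (x.P T (u, s)) (x.P T (u, s'))
      st_refl := fun u s k => by rw [dist_self]; exact hε.le
      st_symm := fun u s s' hs k => by rw [dist_comm]; exact hs k
      st_act := fun a u s s' hs => by
        have h1 := (hfib (u, s) (u + (a : S.Vu p), σ a s)).mpr ⟨a, rfl⟩
        have h3 := (hfib (u, s') (u + (a : S.Vu p), σ a s')).mpr ⟨a, rfl⟩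
        change S.SRel ε (x.P T (u + (a : S.Vu p), σ a s)) (x.P T (u + (a : S.Vu p), σ a s'))
        rw [← h1, ← h3]
        exact hs
      st_two := fun u s s' s'' h1 h3 => by
        have h4 := hgtP (u, s)
        have h5 := hgtP (u, s'')
        change S.SRel ε (x.P T (A u, G s)) (x.P T (A u, G s''))
        rw [h4, h5]
        exact hstep _ _ _ h1 h3
      st_cpt := fun K hK => hcpt ε hε (min_le_left _ _) K hK
      st_chain := fun B K hB hK => xi_chain hc hT x ε hε B K hB hK
      st_exp := fun u s s' hs => by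
        apply xi_inj hT x u s s'
        have key : ∀ (j : ℕ) (s : SLf S.g p),
            x.P T (u, s) = S.g^[N * j] (x.P T (A.symm^[j] u, G.symm^[j] s)) := by
          intro j
          induction j with
          | zero => intro s; rfl
          | succ j ih =>
            intro s
            rw [ih s, Nat.mul_succ, Function.iterate_add_apply]
            congr 1
            rw [Function.iterate_succ_apply', Function.iterate_succ_apply']
            have h4 := hgtP (A.symm (A.symm^[j] u), G.symm (G.symm^[j] s))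
            rw [← h4]
            congr 1
            refine Prod.ext ?_ ?_
            · exact (A.apply_symm_apply _).symm
            · exact (G.apply_symm_apply _).symm
        have h4 : ∀ j : ℕ, dist (x.P T (u, s)) (x.P T (u, s')) ≤ (1 / 8 : ℝ) ^ j * ε := by
          intro j
          rw [key j s, key j s']
          have h5 := F.geo.scontr _ _ ((hs j).mono ((min_le_right _ _).trans (by linarith)))
            (N * j)
          have h6 : (1 / 8 : ℝ) ^ (N * j) ≤ (1 / 8) ^ j :=
            pow_le_pow_of_le_one (by norm_num) (by norm_num) (Nat.le_mul_of_pos_left j hN)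
          exact h5.trans (mul_le_mul h6 (hdist _ _ (hs j)) dist_nonneg (by positivity))
        have h5 : Tendsto (fun j : ℕ => (1 / 8 : ℝ) ^ j * ε) atTop (𝓝 0) := by
          have := (tendsto_pow_atTop_nhds_zero_of_lt_one (by norm_num : (0 : ℝ) ≤ 1 / 8)
            (by norm_num)).mul_const ε
          simpa using this
        exact dist_le_zero.mp (ge_of_tendsto' h5 h4) }
  have hit : ∀ y, S.g^[N] y = (f^[n * N]) y := by
    intro y
    have : (S.g : X → X) = f^[n] := funext fun z => (hf z).symm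
    rw [this, ← Function.iterate_mul]
  let gN : X ≃ₜ X :=
    { toFun := S.g^[N]
      invFun := S.g.symm^[N]
      left_inv := iter_symm_iter S N
      right_inv := iter_iter_symm S N
      continuous_toFun := S.g.continuous.iterate N
      continuous_invFun := S.g.symm.continuous.iterate N }
  exact toral_of_tdat D (x.P T) hcov hsurj hfib f gN (fun y => hgtP y) (n * N)
    (Nat.mul_pos hn hN) (fun y => (hit y).symm)

/-- Abstract theorem: conjugacy to a hyperbolic toral automorphism. -/
theorem abstract_toral {E' : Type*} [NormedAddCommGroup E'] [NormedSpace ℝ E']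
    [ProperSpace E'] [ChartedSpace E' X] [ConnectedSpace X] (S : HypSys X E)
    {Q r K K' : ℝ} (hQ : Quad S Q r)
    (hK : QC S K) (hK' : QC S.symm K') (J₀ : CJ0 S) (d : ℕ) (hDd : 2 < d)
    (hfu : ∀ x, Module.finrank ℝ (S.Vu x) = 2) (hfs : ∀ x, Module.finrank ℝ (S.Vs x) = d)
    (f : X ≃ₜ X) (n : ℕ) (hn : 1 ≤ n) (hf : ∀ x, f^[n] x = S.g x) : IsToral f := by
  obtain ⟨F, J, c, T, hc, hT⟩ := exists_qs_lin S hQ hK hK' J₀ 2 d (by norm_num) hDd hfu hfs
  obtain ⟨c₀, hLP⟩ := exists_LP S
  obtain ⟨q, hq, p, hp⟩ := S.exists_periodic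
  exact exists_tdat (E' := E') J hfu hLP hc hT p q hq hp f n hn hf

end Pool.Agent.H779R2.To
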