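import Pool.Agent.H779R2.To.GDef
import Pool.Agent.H779R2.An.LTrans

set_option autoImplicit false

namespace Pool.Agent.H779R2.To

open Pool.Agent.H721R2 Pool.Agent.H789R2.AN Pool.Agent.H789R2.GP Pool.Agent.H779R2.An
open Filter Topology

variable {X E : Type*} [MetricSpace X] [CompactSpace X] [NormedAddCommGroup E]
  [InnerProductSpace ℝ E] [FiniteDimensional ℝ E]

/-- V2: deck transformations act by translations in the unstable coordinate. -/
theorem deck_trans {S : HypSys X E} {F : Flat S} (J : CJ F)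
    (h2 : ∀ x, Module.finrank ℝ (S.Vu x) = 2) {c : ℝ} {T : QS S.g c}
    (hT : ∀ a s u x, T.Q a s u x ↔ QdF F a s u x) (p : X) (z : Leaf S.g p) (hz : z.pr T = p)
    (w u' : X) (hw : WS S.g.symm p w) (h : T.Q z.s p w u') :
    F.Lc p u' = F.Lc p w + F.Lc p z.u := by
  obtain ⟨hu, hs, htr⟩ := deckaux_tr F T hT p z hz
  have h4 := deckaux_Q F p z.s w u' ((hT _ _ _ _).mp h) hu.symm
  have hwu : UAsym S p w := hw
  rw [deckaux_id F J h2 T hT p z hz _ (F.Lc_mem _ _ hwu)] at h4
  rw [h4, htr]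
  abel

end Pool.Agent.H779R2.To
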