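import Pool.Agent.H779R2.To.GDef

set_option autoImplicit false

namespace Pool.Agent.H779R2.To

open Pool.Agent.H721R2 Pool.Agent.H789R2.AN Pool.Agent.H789R2.GP Pool.Agent.H779R2.An
open Filter Topology

variable {X E : Type*} [MetricSpace X] [CompactSpace X] [NormedAddCommGroup E]
  [InnerProductSpace ℝ E] [FiniteDimensional ℝ E]

namespace GUnifx

/-- bound for the linear holonomy near a point of the stable leaf -/
theorem loc {S : HypSys X E} (F : Flat S) (p : X) (s0 : SLf S.g p) :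
    ∃ C : ℝ, ∃ r > 0, ∀ s : SLf S.g p, dist s s0 < r →
      ∀ v ∈ S.Vu p, ‖F.H p s.val.val v‖ ≤ C * ‖v‖ := by
  have hε := F.geo.pos
  have h0 : SAsym S p s0.val.val := s0.2
  obtain ⟨N, hN⟩ := h0.eventually (half_pos hε)
  refine ⟨2 * S.Lu ^ N, F.ε₀ / 2, half_pos hε, fun s hs v hv => ?_⟩
  have h1 : SR S.g (F.ε₀ / 2) s.val.val s0.val.val :=
    (SM.dist_le s.val s0.val (half_pos hε).le).1 hs.le
  have h2 : S.SRel (F.ε₀ / 2) s.val.val s0.val.val := h1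
  have h3 : S.SRel F.ε₀ (S.g^[N] p) (S.g^[N] s.val.val) := by
    have h4 := (hN N le_rfl).trans (h2.iter N).symm
    rwa [add_halves] at h4
  have hps : SAsym S p s.val.val := s.2
  have h5 := F.H_iter hps N hv
  have h6 := F.H_le _ _ h3 _ (Dn_mem S N p hv)
  rw [h5] at h6
  have h7 := le_Dn S N s.val.val (F.H_mem _ _ hps v hv)
  have h8 := Dn_le S N p hv
  have h9 : (1:ℝ) ≤ 16 ^ N := one_le_pow₀ (by norm_num)
  calc ‖F.H p s.val.val v‖ ≤ 16 ^ N * ‖F.H p s.val.val v‖ :=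
        le_mul_of_one_le_left (norm_nonneg _) h9
    _ ≤ ‖Dn S N s.val.val (F.H p s.val.val v)‖ := h7
    _ ≤ 2 * ‖Dn S N p v‖ := h6
    _ ≤ 2 * (S.Lu ^ N * ‖v‖) := mul_le_mul_of_nonneg_left h8 (by norm_num)
    _ = 2 * S.Lu ^ N * ‖v‖ := by ring

/-- bound for the linear holonomy on a compact subset of the stable leaf -/
theorem bound {S : HypSys X E} (F : Flat S) (p : X) (K : Set (SLf S.g p)) (hK : IsCompact K) :
    ∃ C : ℝ, ∀ s ∈ K, ∀ v ∈ S.Vu p, ‖F.H p s.val.val v‖ ≤ C * ‖v‖ := by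
  refine hK.induction_on (p := fun t => ∃ C : ℝ, ∀ s ∈ t, ∀ v ∈ S.Vu p,
    ‖F.H p s.val.val v‖ ≤ C * ‖v‖) ⟨0, fun s hs => absurd hs (Set.notMem_empty _)⟩ ?_ ?_ ?_
  · rintro s t hst ⟨C, hC⟩
    exact ⟨C, fun a ha => hC a (hst ha)⟩
  · rintro s t ⟨C, hC⟩ ⟨C', hC'⟩
    refine ⟨max C C', fun a ha v hv => ?_⟩
    rcases ha with ha | ha
    · exact (hC a ha v hv).trans (mul_le_mul_of_nonneg_right (le_max_left _ _) (norm_nonneg _))
    · exact (hC' a ha v hv).trans (mul_le_mul_of_nonneg_right (le_max_right _ _) (norm_nonneg _))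
  · intro s0 _
    obtain ⟨C, r, hr, h⟩ := loc F p s0
    exact ⟨Metric.ball s0 r, mem_nhdsWithin_of_mem_nhds (Metric.ball_mem_nhds s0 hr), C,
      fun s hs => h s hs⟩

end GUnifx

/-- V10: uniform continuity of the unstable holonomy of stable leaves. -/
theorem xi_unif {S : HypSys X E} {F : Flat S} {c : ℝ} {T : QS S.g c} (hc : 0 < c)
    (hT : ∀ a s u x, T.Q a s u x ↔ QdF F a s u x) {p : X} (x : Xi F p) (B : Set (S.Vu p))
    (K : Set (SLf S.g p)) (hB : IsCompact B) (hK : IsCompact K) (ε : ℝ) (hε : 0 < ε) :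
    ∃ δ > 0, ∀ u ∈ B, ∀ s ∈ K, ∀ s' : SLf S.g p, dist s s' < δ →
      S.SRel ε (x.P T (u, s)) (x.P T (u, s')) := by
  obtain ⟨C, hC⟩ := GUnifx.bound F p K hK
  obtain ⟨M, hM⟩ := hB.isBounded.exists_norm_le
  obtain ⟨ρ, hρ, hsm⟩ := F.small c hc
  have hpos : 0 < |C| * |M| + 1 := by positivity
  obtain ⟨j, hj⟩ := exists_pow_lt_of_lt_one (div_pos hρ hpos) (by norm_num : (1 / 16 : ℝ) < 1)
  obtain ⟨η, hη, hcont⟩ := T.contS j ε hε
  refine ⟨η, hη, fun u hu s hs s' hss' => ?_⟩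
  obtain ⟨z, hzd⟩ : ∃ z, z = x.Ξ.symm (u, s) := ⟨_, rfl⟩
  obtain ⟨z', hzd'⟩ : ∃ z', z' = x.Ξ.symm (u, s') := ⟨_, rfl⟩
  have hz : x.Ξ z = (u, s) := by rw [hzd]; exact x.Ξ.apply_symm_apply _
  have hz' : x.Ξ z' = (u, s') := by rw [hzd']; exact x.Ξ.apply_symm_apply _
  have zs : s.val.val = z.s := by rw [← x.snd z, hz]
  have zs' : s'.val.val = z'.s := by rw [← x.snd z', hz']
  have zu : ((u : S.Vu p) : E) = F.Lc p z.u := by rw [← x.fst z, hz]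
  have zu' : ((u : S.Vu p) : E) = F.Lc p z'.u := by rw [← x.fst z', hz']
  have huu : z'.u = z.u := F.inj p z'.u z.u z'.hu z.hu (by rw [← zu, ← zu'])
  have hP : x.P T (u, s) = z.pr T := by rw [hzd]; rfl
  have hP' : x.P T (u, s') = z'.pr T := by rw [hzd']; rfl
  rw [hP, hP']
  have Q1 : T.Q p z.s z.u (z.pr T) := z.pr_spec T
  have Q2 : T.Q p z'.s z'.u (z'.pr T) := z'.pr_spec T
  rw [huu] at Q2
  have Q3 := T.flipS _ _ _ _ Q1
  have Q4 := T.compS _ _ _ _ _ _ Q3 Q2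
  obtain ⟨q1, q2, q3, q4, q5, q6⟩ := (hT _ _ _ _).1 Q1
  have hL : ‖F.Lc z.s (z.pr T)‖ ≤ |C| * |M| := by
    rw [q5, ← zu, ← zs]
    calc ‖F.H p s.val.val (u : E)‖ ≤ C * ‖(u : E)‖ := hC s hs _ u.2
      _ ≤ |C| * |M| := mul_le_mul (le_abs_self C) ((hM u hu).trans (le_abs_self M))
          (norm_nonneg _) (abs_nonneg _)
  have h5 : S.URel c (S.g.symm^[j] z.s) (S.g.symm^[j] (z.pr T)) := by
    refine hsm _ _ (q4.symm_iter j) ?_
    rw [F.Lc_back q4 j]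
    refine (Dn_symm_le S j _ (F.Lc_mem _ _ q4)).trans ?_
    have h6 : (1 / 16 : ℝ) ^ j * ‖F.Lc z.s (z.pr T)‖ ≤
        ρ / (|C| * |M| + 1) * (|C| * |M| + 1) :=
      mul_le_mul hj.le (hL.trans (by linarith)) (norm_nonneg _) (div_pos hρ hpos).le
    rwa [div_mul_cancel₀ _ hpos.ne'] at h6
  have hSR : SR S.g η z.s z'.s := by
    rw [← zs, ← zs']
    exact (SM.dist_le s.val s'.val hη.le).1 hss'.le
  exact hcont _ _ _ _ Q4 hSR h5

end Pool.Agent.H779R2.To
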