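import Pool.Agent.H779R2.To.TDef

set_option autoImplicit false

namespace Pool.Agent.H779R2.To

open Filter Topology

variable {V Z Γ : Type*} [NormedAddCommGroup V] [NormedSpace ℝ V] [MetricSpace Z]
    [AddCommGroup Γ]

/-- U1: `Γ` is free of finite rank. -/
theorem exists_basis [FiniteDimensional ℝ V] [LocallyCompactSpace Z] [ConnectedSpace Z]
    (D : TDat V Z Γ) : ∃ m : ℕ, Nonempty (Γ ≃+ (Fin m → ℤ)) := by
  haveI : ProperSpace V := FiniteDimensional.proper ℝ V
  obtain ⟨K, hK, hKc⟩ := D.cocompact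
  obtain ⟨K', hK', hKK'⟩ := exists_compact_superset hK
  have hF := D.proper K' K' hK' hK'
  set F : Set Γ := {a : Γ | ∃ y ∈ K', ((y.1 + D.t a, D.σ a y.2) : V × Z) ∈ K'} with hFdef
  set H : AddSubgroup Γ := AddSubgroup.closure F with hH
  have hFH : ∀ a ∈ F, a ∈ H := fun a ha => AddSubgroup.subset_closure ha
  -- comparison of two translates
  have cmp : ∀ (a b : Γ) (y y' : V × Z), y ∈ interior K' → y' ∈ interior K' →
      D.act a y = D.act b y' → a - b ∈ H := by
    intro a b y y' hy hy' h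
    apply hFH
    refine ⟨y, interior_subset hy, ?_⟩
    have h2 : D.act (a - b) y = y' := by
      have h3 : D.act (-b) (D.act a y) = D.act (-b) (D.act b y') := by rw [h]
      rw [← D.act_add, ← D.act_add, neg_add_cancel, D.act_zero] at h3
      rw [sub_eq_neg_add]; exact h3
    have h4 : ((y.1 + D.t (a - b), D.σ (a - b) y.2) : V × Z) = y' := h2
    rw [h4]; exact interior_subset hy'
  have cover : ∀ y : V × Z, ∃ a : Γ, ∃ y' ∈ interior K', D.act a y' = y := by
    intro y
    obtain ⟨a, ha⟩ := hKc y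
    refine ⟨-a, D.act a y, hKK' ha, ?_⟩
    rw [← D.act_add, neg_add_cancel, D.act_zero]
  set U : Set (V × Z) := ⋃ a ∈ (H : Set Γ), D.act a '' interior K' with hU
  set U' : Set (V × Z) := ⋃ a ∈ (H : Set Γ)ᶜ, D.act a '' interior K' with hU'
  have oU : IsOpen U := isOpen_biUnion fun a _ => (D.act a).isOpenMap _ isOpen_interior
  have oU' : IsOpen U' := isOpen_biUnion fun a _ => (D.act a).isOpenMap _ isOpen_interior
  have hcompl : U' = Uᶜ := by
    ext y
    rw [Set.mem_compl_iff]
    constructor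
    · intro h1 h2
      rw [hU', Set.mem_iUnion₂] at h1
      rw [hU, Set.mem_iUnion₂] at h2
      obtain ⟨a, ha, y1, hy1, e1⟩ := h1
      obtain ⟨b, hb, y2, hy2, e2⟩ := h2
      apply ha
      have := cmp a b y1 y2 hy1 hy2 (e1.trans e2.symm)
      have h5 := H.add_mem this hb
      rw [sub_add_cancel] at h5
      exact h5
    · intro h1
      obtain ⟨a, y', hy', e⟩ := cover y
      rw [hU', Set.mem_iUnion₂]
      refine ⟨a, ?_, y', hy', e⟩
      intro ha
      apply h1
      rw [hU, Set.mem_iUnion₂]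
      exact ⟨a, ha, y', hy', e⟩
  have hclopen : IsClopen U := by
    refine ⟨?_, oU⟩
    rw [← isOpen_compl_iff, ← hcompl]; exact oU'
  obtain ⟨y0, hy0⟩ : (interior K').Nonempty := by
    obtain ⟨z⟩ : Nonempty Z := inferInstance
    obtain ⟨_, y', hy', _⟩ := cover ((0 : V), z)
    exact ⟨y', hy'⟩
  have hne : U.Nonempty := by
    refine ⟨y0, ?_⟩
    rw [hU, Set.mem_iUnion₂]
    exact ⟨0, H.zero_mem, y0, hy0, D.act_zero y0⟩
  have huniv : U = Set.univ := hclopen.eq_univ hne
  have htop : H = ⊤ := by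
    rw [eq_top_iff]
    intro a _
    have h1 : D.act a y0 ∈ U := by rw [huniv]; trivial
    rw [hU, Set.mem_iUnion₂] at h1
    obtain ⟨b, hb, y', hy', e⟩ := h1
    have := cmp a b y0 y' hy0 hy' e.symm
    have h5 := H.add_mem this hb
    rw [sub_add_cancel] at h5
    exact h5
  haveI : AddGroup.FG Γ := by
    rw [AddGroup.fg_iff]
    exact ⟨F, htop, hF⟩
  haveI : Module.Finite ℤ Γ := Module.Finite.iff_addGroup_fg.2 inferInstance
  haveI hV : IsAddTorsionFree V := IsAddTorsionFree.of_isTorsionFree ℝ V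
  haveI : Module.IsTorsionFree ℤ Γ := by
    have hinj : Function.Injective (D.t.toIntLinearMap) := D.t_inj
    exact hinj.moduleIsTorsionFree _ (fun c x => map_smul _ c x)
  haveI : Module.Free ℤ Γ := inferInstance
  exact ⟨Module.finrank ℤ Γ, ⟨(Module.finBasis ℤ Γ).equivFun.toAddEquiv⟩⟩

end Pool.Agent.H779R2.To
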