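import Pool.Agent.H779R2.To.TDef

set_option autoImplicit false

namespace Pool.Agent.H779R2.To

open Filter Topology

variable {V Z Γ : Type*} [NormedAddCommGroup V] [NormedSpace ℝ V] [MetricSpace Z]
    [AddCommGroup Γ]

private theorem iter_sub {m : ℕ} (Φ : (Fin m → ℝ) ≃ₗ[ℝ] (Fin m → ℝ)) (n : ℕ)
    (x y : Fin m → ℝ) : Φ^[n] (x - y) = Φ^[n] x - Φ^[n] y := by
  induction n generalizing x y with
  | zero => rfl
  | succ n ih =>
    rw [Function.iterate_succ_apply, Function.iterate_succ_apply, Function.iterate_succ_apply,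
      map_sub, ih]

private theorem back {D : TDat V Z Γ} {C : Coo D} {k : Kap C} (s : Semi k) (n : ℕ) (z : Z) :
    s.h (0, z) = C.Φ^[n] (s.h (0, D.G.symm^[n] z)) := by
  induction n generalizing z with
  | zero => rfl
  | succ n ih =>
    rw [Function.iterate_succ_apply', Function.iterate_succ_apply, ← ih (D.G.symm z), ← s.gt]
    rw [D.gt_apply]
    simp

/-- U8: continuity. -/
theorem semi_cont [FiniteDimensional ℝ V] [LocallyCompactSpace Z] {D : TDat V Z Γ} {C : Coo D}
    {k : Kap C} (hc : Contr C) (s : Semi k) (l : Ell s) : Continuous s.h := by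
  have : ProperSpace V := FiniteDimensional.proper ℝ V
  have hq : Continuous fun z : Z => s.h (0, z) := by
    obtain ⟨M, hM⟩ := hc
    obtain ⟨K', hK', hKK'⟩ := exists_compact_superset k.cpt
    obtain ⟨C', hC'⟩ := k.bdd K' hK'
    have hb : ∀ y ∈ K', ‖s.h y‖ ≤ s.B + C' := by
      intro y hy
      have h1 := s.near y
      have h2 := hC' y hy
      have h3 : s.h y = (s.h y - C.ι (k.κ y)) + C.ι (k.κ y) := by abel
      calc ‖s.h y‖ = ‖(s.h y - C.ι (k.κ y)) + C.ι (k.κ y)‖ := by rw [← h3]
        _ ≤ ‖s.h y - C.ι (k.κ y)‖ + ‖C.ι (k.κ y)‖ := norm_add_le _ _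
        _ ≤ s.B + C' := by linarith
    rw [continuous_iff_continuousAt]
    intro z
    rw [ContinuousAt, Metric.tendsto_nhds]
    intro ε hε
    -- choose n
    have ht : Tendsto (fun n : ℕ => |M| * (1 / 2 : ℝ) ^ n * (2 * (|s.B + C'|))) atTop (𝓝 0) := by
      have h1 : Tendsto (fun n : ℕ => (1 / 2 : ℝ) ^ n) atTop (𝓝 0) :=
        tendsto_pow_atTop_nhds_zero_of_lt_one (by norm_num) (by norm_num)
      have h2 := (h1.const_mul |M|).mul_const (2 * (|s.B + C'|))
      simpa using h2
    obtain ⟨n, hn⟩ := (ht.eventually (gt_mem_nhds hε)).exists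
    set a : Γ := -k.κ (0, D.G.symm^[n] z) with ha
    have hmem : D.act a (0, D.G.symm^[n] z) ∈ interior K' := hKK' (k.mem _)
    have hcont : Continuous fun z' : Z => D.act a ((0 : V), D.G.symm^[n] z') := by
      have h1 : Continuous (D.G.symm^[n]) := D.G.symm.continuous.iterate n
      exact (D.act a).continuous.comp (by fun_prop)
    have hev : ∀ᶠ z' in 𝓝 z, D.act a ((0 : V), D.G.symm^[n] z') ∈ interior K' :=
      hcont.continuousAt.eventually (isOpen_interior.mem_nhds hmem)
    filter_upwards [hev] with z' hz'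
    have e1 := hb _ (interior_subset hmem)
    have e2 := hb _ (interior_subset hz')
    rw [s.act] at e1 e2
    have e3 : ‖s.h (0, D.G.symm^[n] z') - s.h (0, D.G.symm^[n] z)‖ ≤ 2 * |s.B + C'| := by
      have h3 : s.h (0, D.G.symm^[n] z') - s.h (0, D.G.symm^[n] z)
          = (s.h (0, D.G.symm^[n] z') + C.ι a) - (s.h (0, D.G.symm^[n] z) + C.ι a) := by abel
      rw [h3]
      refine (norm_sub_le _ _).trans ?_
      have := le_abs_self (s.B + C')
      linarith
    have e4 : C.tR (s.h (0, D.G.symm^[n] z') - s.h (0, D.G.symm^[n] z)) = 0 := by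
      rw [map_sub, s.tR_h, s.tR_h]
      simp
    have e5 := hM n _ e4
    rw [iter_sub, ← back s n z', ← back s n z] at e5
    rw [dist_eq_norm]
    refine lt_of_le_of_lt (e5.trans ?_) hn
    have hp : (0 : ℝ) ≤ (1 / 2) ^ n := by positivity
    calc M * (1 / 2) ^ n * ‖s.h (0, D.G.symm^[n] z') - s.h (0, D.G.symm^[n] z)‖
        ≤ |M| * (1 / 2) ^ n * ‖s.h (0, D.G.symm^[n] z') - s.h (0, D.G.symm^[n] z)‖ := by
          gcongr
          exact le_abs_self M
      _ ≤ |M| * (1 / 2) ^ n * (2 * |s.B + C'|) := by gcongr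
  have hl : Continuous l.l := l.l.continuous_of_finiteDimensional
  have he : s.h = fun y : V × Z => l.l y.1 + s.h (0, y.2) := by
    funext y
    obtain ⟨u, z⟩ := y
    have := l.h_eq u z 0
    rw [add_zero] at this
    exact this
  rw [he]
  exact (hl.comp continuous_fst).add (hq.comp continuous_snd)

end Pool.Agent.H779R2.To
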