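import Pool.Agent.H779R2.To.TDef

set_option autoImplicit false

namespace Pool.Agent.H779R2.To

open Filter Topology

variable {V Z Γ : Type*} [NormedAddCommGroup V] [NormedSpace ℝ V] [MetricSpace Z]
    [AddCommGroup Γ]

private theorem chn_pad (D : TDat V Z Γ) {u : V} {p q : ℕ} {s s' : Z} (h : Chn D.St u p s s')
    (hpq : p ≤ q) : Chn D.St u q s s' := by
  obtain ⟨e, h0, h1, h2⟩ := h
  refine ⟨fun i => e (min i p), by simpa using h0, by simpa [min_eq_right hpq] using h1, ?_⟩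
  intro i _
  rcases Nat.lt_or_ge i p with hi | hi
  · have e1 : min i p = i := min_eq_left hi.le
    have e2 : min (i + 1) p = i + 1 := min_eq_left hi
    simp only [e1, e2]
    exact h2 i hi
  · have e1 : min i p = p := min_eq_right hi
    have e2 : min (i + 1) p = p := min_eq_right (by omega)
    simp only [e1, e2]
    exact D.st_refl _ _

private theorem chn_trans {St : V → Z → Z → Prop} {u : V} {p q : ℕ} {s s' s'' : Z}
    (h : Chn St u p s s') (h' : Chn St u q s' s'') : Chn St u (p + q) s s'' := by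
  obtain ⟨e, h0, h1, h2⟩ := h
  obtain ⟨f, g0, g1, g2⟩ := h'
  refine ⟨fun i => if i < p then e i else f (i - p), ?_, ?_, ?_⟩
  · rcases Nat.eq_zero_or_pos p with hp | hp
    · subst hp
      simp only [lt_self_iff_false, if_false]
      rw [Nat.sub_zero, g0, ← h1, h0]
    · simp only [hp, if_true]
      exact h0
  · have : ¬ (p + q < p) := by omega
    simp only [this, if_false, Nat.add_sub_cancel_left]
    exact g1
  · intro i hi
    rcases Nat.lt_or_ge (i + 1) p with h3 | h3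
    · have h4 : i < p := by omega
      simp only [h3, h4, if_true]
      exact h2 i h4
    · have h5 : ¬ (i + 1 < p) := by omega
      rcases Nat.lt_or_ge i p with h4 | h4
      · have h6 : i + 1 = p := by omega
        simp only [h4, h5, if_true, if_false]
        rw [h6, Nat.sub_self, g0, ← h1]
        have := h2 i h4
        rwa [h6] at this
      · have h7 : ¬ (i < p) := by omega
        simp only [h5, h7, if_false]
        have h8 : i + 1 - p = (i - p) + 1 := by omega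
        rw [h8]
        exact g2 (i - p) (by omega)

private theorem chn_two (D : TDat V Z Γ) {u : V} {k : ℕ} {s s' : Z}
    (h : Chn D.St u (2 * k) s s') : Chn D.St (D.A u) k (D.G s) (D.G s') := by
  obtain ⟨e, h0, h1, h2⟩ := h
  refine ⟨fun i => D.G (e (2 * i)), by simp [h0], by simp [h1], ?_⟩
  intro i hi
  have a1 := h2 (2 * i) (by omega)
  have a2 := h2 (2 * i + 1) (by omega)
  have : 2 * (i + 1) = 2 * i + 1 + 1 := by ring
  simp only [this]
  exact D.st_two _ _ _ _ a1 a2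

private theorem chn_iter (D : TDat V Z Γ) (n : ℕ) : ∀ {k : ℕ} {s s' : Z},
    Chn D.St 0 (2 ^ n * k) s s' → Chn D.St 0 k (D.G^[n] s) (D.G^[n] s') := by
  induction n with
  | zero => intro k s s' h; simpa using h
  | succ n ih =>
    intro k s s' h
    have h1 : 2 ^ (n + 1) * k = 2 * (2 ^ n * k) := by ring
    rw [h1] at h
    have h2 := chn_two D h
    rw [map_zero] at h2
    exact ih h2

private theorem chn_norm {D : TDat V Z Γ} {C : Coo D} (k : Kap C) {u : V} (m : ℕ) :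
    ∀ {s s' : Z}, Chn D.St u m s s' → ‖C.ι (k.κ (u, s)) - C.ι (k.κ (u, s'))‖ ≤ m * k.B := by
  intro s s' h
  obtain ⟨e, h0, h1, h2⟩ := h
  have key : ∀ i ≤ m, ‖C.ι (k.κ (u, e 0)) - C.ι (k.κ (u, e i))‖ ≤ i * k.B := by
    intro i
    induction i with
    | zero => intro _; simp
    | succ i ih =>
      intro hi
      have a1 := ih (by omega)
      have a2 := k.st_le u (e i) (e (i + 1)) (h2 i (by omega))
      have a3 := norm_sub_le_norm_sub_add_norm_sub (C.ι (k.κ (u, e 0))) (C.ι (k.κ (u, e i)))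
        (C.ι (k.κ (u, e (i + 1))))
      push_cast
      linarith
  have := key m le_rfl
  rwa [h0, h1] at this

private theorem gt_iter_zero (D : TDat V Z Γ) (n : ℕ) (s : Z) :
    D.gt^[n] ((0 : V), s) = ((0 : V), D.G^[n] s) := by
  induction n with
  | zero => rfl
  | succ n ih => rw [Function.iterate_succ_apply', ih, D.gt_apply, Function.iterate_succ_apply']; simp

private theorem phi_pow {D : TDat V Z Γ} (C : Coo D) (n : ℕ) (x : Fin C.m → ℝ) :
    C.Φ^[n] x = ((C.Φ : (Fin C.m → ℝ) →ₗ[ℝ] (Fin C.m → ℝ)) ^ n) x := by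
  rw [Module.End.pow_apply]
  rfl

private theorem phi_bound {D : TDat V Z Γ} (C : Coo D) (n : ℕ) :
    ∃ c : ℝ, 0 ≤ c ∧ ∀ x, ‖C.Φ^[n] x‖ ≤ c * ‖x‖ := by
  let L := LinearMap.toContinuousLinearMap
    ((C.Φ : (Fin C.m → ℝ) →ₗ[ℝ] (Fin C.m → ℝ)) ^ n)
  refine ⟨‖L‖, norm_nonneg _, fun x => ?_⟩
  rw [phi_pow]
  exact L.le_opNorm x

private theorem gt_iter_le {D : TDat V Z Γ} {C : Coo D} (k : Kap C) (n : ℕ) :
    ∃ b : ℝ, ∀ y, ‖C.ι (k.κ (D.gt^[n] y)) - C.Φ^[n] (C.ι (k.κ y))‖ ≤ b := by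
  induction n with
  | zero => exact ⟨0, fun y => by simp⟩
  | succ n ih =>
    obtain ⟨b, hb⟩ := ih
    obtain ⟨c, hc0, hc⟩ := phi_bound C 1
    refine ⟨k.B + c * b, fun y => ?_⟩
    rw [Function.iterate_succ_apply', Function.iterate_succ_apply']
    have a1 := k.gt_le (D.gt^[n] y)
    have a2 := hc (C.ι (k.κ (D.gt^[n] y)) - C.Φ^[n] (C.ι (k.κ y)))
    have a3 : C.Φ^[1] (C.ι (k.κ (D.gt^[n] y)) - C.Φ^[n] (C.ι (k.κ y))) =
        C.Φ (C.ι (k.κ (D.gt^[n] y))) - C.Φ (C.Φ^[n] (C.ι (k.κ y))) := by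
      rw [Function.iterate_one, map_sub]
    rw [a3] at a2
    have a4 := mul_le_mul_of_nonneg_left (hb y) hc0
    have a5 := norm_sub_le_norm_sub_add_norm_sub (C.ι (k.κ (D.gt (D.gt^[n] y))))
      (C.Φ (C.ι (k.κ (D.gt^[n] y)))) (C.Φ (C.Φ^[n] (C.ι (k.κ y))))
    linarith

private theorem iota_sub {D : TDat V Z Γ} (C : Coo D) (a b : Γ) :
    C.ι (a - b) = C.ι a - C.ι b := by
  funext i
  simp [Coo.ι]

private theorem fin_set {D : TDat V Z Γ} (C : Coo D) : {a : Γ | ‖C.ι a‖ ≤ 2}.Finite := by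
  have h1 : (Set.Icc (fun _ : Fin C.m => (-2 : ℤ)) (fun _ => 2)).Finite := Set.finite_Icc _ _
  refine (h1.preimage (C.b.injective.injOn)).subset ?_
  intro a ha
  have h2 : ∀ i, |((C.b a i : ℤ) : ℝ)| ≤ 2 := by
    intro i
    have := (pi_norm_le_iff_of_nonneg (by norm_num : (0 : ℝ) ≤ 2)).mp ha i
    simpa [Coo.ι, Real.norm_eq_abs] using this
  constructor
  · intro i
    have := (abs_le.mp (h2 i)).1
    have h3 : ((-2 : ℤ) : ℝ) ≤ ((C.b a i : ℤ) : ℝ) := by push_cast; exact this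
    exact_mod_cast h3
  · intro i
    have := (abs_le.mp (h2 i)).2
    have h3 : ((C.b a i : ℤ) : ℝ) ≤ ((2 : ℤ) : ℝ) := by push_cast; exact this
    exact_mod_cast h3

/-- U4: contraction of the kernel of `tR`. -/
theorem contr [FiniteDimensional ℝ V] [Nonempty Z] {D : TDat V Z Γ} {C : Coo D} (k : Kap C) :
    Contr C := by
  classical
  obtain ⟨s₀⟩ := ‹Nonempty Z›
  have hB0 : 0 ≤ k.B := (norm_nonneg _).trans (k.gt_le ((0 : V), s₀))
  -- the bound for `tR`
  let T := LinearMap.toContinuousLinearMap C.tR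
  have hT : ∀ x, ‖C.tR x‖ ≤ ‖T‖ * ‖x‖ := fun x => T.le_opNorm x
  set B₁ : ℝ := ‖T‖ * (1 / 2) with hB₁
  -- the chains
  have hKc : IsCompact ((fun δ => D.σ δ s₀) '' {a : Γ | ‖C.ι a‖ ≤ 2}) :=
    ((fin_set C).image _).isCompact
  obtain ⟨m, hm⟩ := D.st_chain (Metric.closedBall 0 B₁) _ (isCompact_closedBall 0 B₁) hKc
  have hs₀ : s₀ ∈ ((fun δ => D.σ δ s₀) '' {a : Γ | ‖C.ι a‖ ≤ 2}) := by
    refine ⟨0, ?_, D.σ_zero s₀⟩
    have : C.ι 0 = 0 := by funext i; simp [Coo.ι]
    simp [this]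
  obtain ⟨C', hC'⟩ := k.bdd (Metric.closedBall 0 B₁ ×ˢ {s₀})
    ((isCompact_closedBall 0 B₁).prod isCompact_singleton)
  -- main estimate
  have main : ∀ (n : ℕ) (w : Fin C.m → ℝ), C.tR w = 0 → ‖w‖ ≤ 1 →
      ‖C.Φ^[n] w‖ ≤ k.B * m * (1 / 2) ^ n := by
    intro n w hw hw1
    obtain ⟨c, hc0, hc⟩ := phi_bound C n
    obtain ⟨b, hb⟩ := gt_iter_le k n
    set a : ℕ → Γ := fun i => C.b.symm (fun j => round ((i : ℝ) * w j)) with ha
    have hιa : ∀ i j, C.ι (a i) j = (round ((i : ℝ) * w j) : ℝ) := by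
      intro i j
      simp [Coo.ι, ha]
    have hnear : ∀ i : ℕ, ‖C.ι (a i) - (i : ℝ) • w‖ ≤ 1 / 2 := by
      intro i
      rw [pi_norm_le_iff_of_nonneg (by norm_num)]
      intro j
      rw [Pi.sub_apply, hιa, Pi.smul_apply, smul_eq_mul, Real.norm_eq_abs, abs_sub_comm]
      exact abs_sub_round _
    have hta : ∀ i, ‖D.t (a i)‖ ≤ B₁ := by
      intro i
      have h1 : D.t (a i) = C.tR (C.ι (a i) - (i : ℝ) • w) := by
        rw [map_sub, map_smul, hw, smul_zero, sub_zero]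
        exact (C.tR_b (a i)).symm
      rw [h1, hB₁]
      exact (hT _).trans (mul_le_mul_of_nonneg_left (hnear i) (norm_nonneg _))
    have hδ : ∀ i, ‖C.ι (a (i + 1) - a i)‖ ≤ 2 := by
      intro i
      rw [iota_sub]
      have e1 : C.ι (a (i + 1)) - C.ι (a i) = (C.ι (a (i + 1)) - ((i + 1 : ℕ) : ℝ) • w) -
          (C.ι (a i) - (i : ℝ) • w) + w := by
        push_cast
        rw [add_smul, one_smul]
        abel
      rw [e1]
      have := norm_add_le ((C.ι (a (i + 1)) - ((i + 1 : ℕ) : ℝ) • w) -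
          (C.ι (a i) - (i : ℝ) • w)) w
      have h2 := norm_sub_le (C.ι (a (i + 1)) - ((i + 1 : ℕ) : ℝ) • w) (C.ι (a i) - (i : ℝ) • w)
      have h3 := hnear i
      have h4 := hnear (i + 1)
      linarith
    have hstep : ∀ i, Chn D.St 0 m (D.σ (a i) s₀) (D.σ (a (i + 1)) s₀) := by
      intro i
      have h1 : -D.t (a i) ∈ Metric.closedBall (0 : V) B₁ := by
        rw [mem_closedBall_zero_iff, norm_neg]; exact hta i
      obtain ⟨e, e0, e1, e2⟩ := hm _ h1 s₀ hs₀ (D.σ (a (i + 1) - a i) s₀)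
        ⟨a (i + 1) - a i, hδ i, rfl⟩
      refine ⟨fun j => D.σ (a i) (e j), by simp [e0], ?_, ?_⟩
      · show D.σ (a i) (e m) = _
        rw [e1, ← D.σ_add, add_sub_cancel]
      · intro j hj
        have := D.st_act (a i) _ _ _ (e2 j hj)
        rwa [neg_add_cancel] at this
    have ha0 : a 0 = 0 := by
      simp only [ha]
      have : (fun j => round (((0 : ℕ) : ℝ) * w j)) = (0 : Fin C.m → ℤ) := by
        funext j; simp
      rw [this, map_zero]
    have hchain : ∀ R : ℕ, Chn D.St 0 (R * m) s₀ (D.σ (a R) s₀) := by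
      intro R
      induction R with
      | zero =>
        rw [ha0, D.σ_zero, zero_mul]
        exact ⟨fun _ => s₀, rfl, rfl, fun i hi => absurd hi (by omega)⟩
      | succ R ih =>
        have := chn_trans ih (hstep R)
        have e1 : (R + 1) * m = R * m + m := by ring
        rwa [e1]
    set E : ℝ := k.B + (‖C.ι (k.κ (D.gt^[n] ((0 : V), s₀)))‖ + b + c * (k.B + C') + c * (1 / 2))
      with hE
    have hR : ∀ R : ℕ, (R : ℝ) * ‖C.Φ^[n] w‖ ≤ R * (k.B * m * (1 / 2) ^ n) + E := by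
      intro R
      set q : ℕ := R * m / 2 ^ n + 1 with hq
      have h1 : R * m ≤ 2 ^ n * q := by
        rw [hq]
        exact (Nat.lt_mul_div_succ (R * m) (by positivity)).le
      have h2 := chn_norm k q (chn_iter D n (chn_pad D (hchain R) h1))
      have hq2 : (q : ℝ) ≤ R * m * (1 / 2) ^ n + 1 := by
        rw [hq]
        push_cast
        have h3 : ((R * m / 2 ^ n : ℕ) : ℝ) ≤ ((R * m : ℕ) : ℝ) / ((2 ^ n : ℕ) : ℝ) :=
          Nat.cast_div_le
        push_cast at h3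
        have h4 : (R : ℝ) * m / 2 ^ n = R * m * (1 / 2) ^ n := by
          rw [one_div, inv_pow]; rfl
        linarith
      -- the point `(0, s_R)`
      have e1 : ((0 : V), D.σ (a R) s₀) = D.act (a R) (-D.t (a R), s₀) := by
        rw [D.act_apply]; simp
      have h5 := k.act_le (a R) (-D.t (a R), s₀)
      rw [← e1] at h5
      have h6 : ‖C.ι (k.κ (-D.t (a R), s₀))‖ ≤ C' := by
        apply hC'
        refine ⟨?_, rfl⟩
        rw [mem_closedBall_zero_iff, norm_neg]; exact hta R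
      have h7 : ‖C.ι (k.κ ((0 : V), D.σ (a R) s₀)) - C.ι (a R)‖ ≤ k.B + C' := by
        have e2 : C.ι (k.κ ((0 : V), D.σ (a R) s₀)) - C.ι (a R) =
            (C.ι (k.κ ((0 : V), D.σ (a R) s₀)) - C.ι (k.κ (-D.t (a R), s₀)) - C.ι (a R)) +
            C.ι (k.κ (-D.t (a R), s₀)) := by abel
        rw [e2]
        exact (norm_add_le _ _).trans (add_le_add h5 h6)
      have h8 := hb ((0 : V), D.σ (a R) s₀)
      rw [gt_iter_zero] at h8
      have hlin : ∀ x y, C.Φ^[n] (x - y) = C.Φ^[n] x - C.Φ^[n] y := by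
        intro x y
        rw [phi_pow, phi_pow, phi_pow, map_sub]
      have hsm : C.Φ^[n] ((R : ℝ) • w) = (R : ℝ) • C.Φ^[n] w := by
        rw [phi_pow, phi_pow, map_smul]
      have h9 := hc (C.ι (k.κ ((0 : V), D.σ (a R) s₀)) - C.ι (a R))
      rw [hlin] at h9
      have h10 := hc (C.ι (a R) - (R : ℝ) • w)
      rw [hlin, hsm] at h10
      have h11 : c * ‖C.ι (k.κ ((0 : V), D.σ (a R) s₀)) - C.ι (a R)‖ ≤ c * (k.B + C') :=
        mul_le_mul_of_nonneg_left h7 hc0
      have h12 : c * ‖C.ι (a R) - (R : ℝ) • w‖ ≤ c * (1 / 2) :=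
        mul_le_mul_of_nonneg_left (hnear R) hc0
      have e3 : (R : ℝ) • C.Φ^[n] w =
          C.ι (k.κ ((0 : V), D.G^[n] s₀))
          - (C.ι (k.κ ((0 : V), D.G^[n] s₀)) - C.ι (k.κ ((0 : V), D.G^[n] (D.σ (a R) s₀))))
          - (C.ι (k.κ ((0 : V), D.G^[n] (D.σ (a R) s₀))) -
              C.Φ^[n] (C.ι (k.κ ((0 : V), D.σ (a R) s₀))))
          - (C.Φ^[n] (C.ι (k.κ ((0 : V), D.σ (a R) s₀))) - C.Φ^[n] (C.ι (a R)))
          - (C.Φ^[n] (C.ι (a R)) - (R : ℝ) • C.Φ^[n] w) := by abel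
      have h13 : (R : ℝ) * ‖C.Φ^[n] w‖ = ‖(R : ℝ) • C.Φ^[n] w‖ := by
        rw [norm_smul, Real.norm_eq_abs, abs_of_nonneg (Nat.cast_nonneg R)]
      rw [h13]
      have hqB : (q : ℝ) * k.B ≤ (R * m * (1 / 2) ^ n + 1) * k.B :=
        mul_le_mul_of_nonneg_right hq2 hB0
      have h14 : ‖(R : ℝ) • C.Φ^[n] w‖ ≤ ‖C.ι (k.κ ((0 : V), D.G^[n] s₀))‖ + q * k.B + b +
          c * (k.B + C') + c * (1 / 2) := by
        rw [e3]
        refine (norm_sub_le _ _).trans (add_le_add ?_ (h10.trans h12))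
        refine (norm_sub_le _ _).trans (add_le_add ?_ (h9.trans h11))
        refine (norm_sub_le _ _).trans (add_le_add ?_ h8)
        exact (norm_sub_le _ _).trans (add_le_add le_rfl h2)
      rw [hE, gt_iter_zero]
      nlinarith
    by_contra hcon
    rw [not_le] at hcon
    obtain ⟨R, hR1⟩ := exists_nat_gt (E / (‖C.Φ^[n] w‖ - k.B * m * (1 / 2) ^ n))
    have hpos : 0 < ‖C.Φ^[n] w‖ - k.B * m * (1 / 2) ^ n := by linarith
    rw [div_lt_iff₀ hpos] at hR1
    have := hR R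
    nlinarith
  refine ⟨k.B * m, fun n w hw => ?_⟩
  rcases eq_or_ne w 0 with h0 | h0
  · subst h0
    rw [phi_pow, map_zero]
    simp
  · have hn : 0 < ‖w‖ := norm_pos_iff.mpr h0
    have h1 := main n ((‖w‖)⁻¹ • w) (by rw [map_smul, hw, smul_zero])
      (by rw [norm_smul, norm_inv, norm_norm, inv_mul_cancel₀ hn.ne'])
    rw [phi_pow, map_smul, norm_smul, norm_inv, norm_norm, ← phi_pow] at h1
    rw [inv_mul_le_iff₀ hn] at h1
    linarith

end Pool.Agent.H779R2.To
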