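import Pool.Agent.H779R2.To.TDef

set_option autoImplicit false

namespace Pool.Agent.H779R2.To

open Filter Topology

variable {V Z Γ : Type*} [NormedAddCommGroup V] [NormedSpace ℝ V] [MetricSpace Z]
    [AddCommGroup Γ]

namespace CooAux

variable {m : ℕ}

/-- the inclusion -/
def incl (b : Γ ≃+ (Fin m → ℤ)) : Γ →+ (Fin m → ℝ) where
  toFun a := fun i => (b a i : ℝ)
  map_zero' := by
    funext i; simp
  map_add' x y := by
    funext i; simp

/-- the linear extension -/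
noncomputable def L {W : Type*} [AddCommGroup W] [Module ℝ W] (b : Γ ≃+ (Fin m → ℤ))
    (ψ : Γ →+ W) : (Fin m → ℝ) →ₗ[ℝ] W :=
  Fintype.linearCombination ℝ (fun i => ψ (b.symm (Pi.single i 1)))

theorem sum_gen (b : Γ ≃+ (Fin m → ℤ)) (a : Γ) :
    ∑ i, (b a i) • b.symm (Pi.single i 1) = a := by
  apply b.injective
  rw [map_sum]
  funext j
  rw [Finset.sum_apply]
  simp [map_zsmul, Pi.single_apply]

theorem L_incl {W : Type*} [AddCommGroup W] [Module ℝ W] (b : Γ ≃+ (Fin m → ℤ))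
    (ψ : Γ →+ W) (a : Γ) : L b ψ (incl b a) = ψ a := by
  unfold L incl
  rw [Fintype.linearCombination_apply]
  conv_rhs => rw [← sum_gen b a, map_sum]
  refine Finset.sum_congr rfl ?_
  intro i _
  rw [map_zsmul]
  simp only [AddMonoidHom.coe_mk, ZeroHom.coe_mk]
  exact Int.cast_smul_eq_zsmul ℝ _ _

theorem incl_gen (b : Γ ≃+ (Fin m → ℤ)) (i : Fin m) :
    incl b (b.symm (Pi.single i 1)) = Pi.single i (1 : ℝ) := by
  funext j
  unfold incl
  simp only [AddMonoidHom.coe_mk, ZeroHom.coe_mk, AddEquiv.apply_symm_apply]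
  by_cases h : j = i
  · subst h; simp
  · simp [Pi.single_apply, h]

theorem ext_incl {W : Type*} [AddCommGroup W] [Module ℝ W] (b : Γ ≃+ (Fin m → ℤ))
    (f g : (Fin m → ℝ) →ₗ[ℝ] W) (h : ∀ a, f (incl b a) = g (incl b a)) : f = g := by
  apply LinearMap.pi_ext'
  intro i
  apply LinearMap.ext_ring
  have := h (b.symm (Pi.single i 1))
  rw [incl_gen] at this
  simpa using this

end CooAux

open CooAux

/-- U2: linear coordinates. -/
theorem exists_coo [FiniteDimensional ℝ V] [Nonempty Z] (D : TDat V Z Γ) {m : ℕ}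
    (b : Γ ≃+ (Fin m → ℤ)) : Nonempty (Coo D) := by
  let Φ1 : (Fin m → ℝ) →ₗ[ℝ] (Fin m → ℝ) := L b ((incl b).comp D.φ.toAddMonoidHom)
  let Φ2 : (Fin m → ℝ) →ₗ[ℝ] (Fin m → ℝ) := L b ((incl b).comp D.φ.symm.toAddMonoidHom)
  have h1 : ∀ a, Φ1 (incl b a) = incl b (D.φ a) := fun a => L_incl b _ a
  have h2 : ∀ a, Φ2 (incl b a) = incl b (D.φ.symm a) := fun a => L_incl b _ a
  have h12 : Φ1 ∘ₗ Φ2 = LinearMap.id := by
    apply ext_incl b
    intro a
    rw [LinearMap.comp_apply, h2, h1, AddEquiv.apply_symm_apply, LinearMap.id_apply]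
  have h21 : Φ2 ∘ₗ Φ1 = LinearMap.id := by
    apply ext_incl b
    intro a
    rw [LinearMap.comp_apply, h1, h2, AddEquiv.symm_apply_apply, LinearMap.id_apply]
  have htR : ∀ a, L b D.t (incl b a) = D.t a := fun a => L_incl b _ a
  refine ⟨{ m := m, b := b, tR := L b D.t, Φ := LinearEquiv.ofLinear Φ1 Φ2 h12 h21,
            tR_b := htR, Φ_b := h1, tR_Φ := ?_, surj := ?_ }⟩
  · intro v
    have h3 : L b D.t ∘ₗ Φ1 = D.A.toLinearEquiv.toLinearMap ∘ₗ L b D.t := by
      apply ext_incl b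
      intro a
      rw [LinearMap.comp_apply, h1, htR, LinearMap.comp_apply, htR, D.t_φ]
      rfl
    exact LinearMap.congr_fun h3 v
  · rw [← LinearMap.range_eq_top, eq_top_iff]
    intro u _
    obtain ⟨K, hK, hc⟩ := D.cocompact
    obtain ⟨z⟩ := ‹Nonempty Z›
    obtain ⟨R, hR⟩ := (hK.image continuous_fst).isBounded.exists_norm_le
    have hR0 : ∀ w : V, ∃ x ∈ LinearMap.range (L b D.t), ‖w - x‖ ≤ R := by
      intro w
      obtain ⟨a, ha⟩ := hc (w, z)
      refine ⟨-D.t a, ?_, ?_⟩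
      · exact neg_mem ⟨incl b a, htR a⟩
      · have := hR (w + D.t a) ⟨_, ha, rfl⟩
        simpa using this
    have hcl : IsClosed ((LinearMap.range (L b D.t) : Submodule ℝ V) : Set V) :=
      Submodule.closed_of_finiteDimensional _
    have hmem : u ∈ closure ((LinearMap.range (L b D.t) : Submodule ℝ V) : Set V) := by
      rw [Metric.mem_closure_iff]
      intro ε hε
      obtain ⟨n, hn⟩ := exists_nat_gt (R / ε)
      obtain ⟨x, hx, hxR⟩ := hR0 (((n : ℝ) + 1) • u)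
      have hn1 : (0 : ℝ) < (n : ℝ) + 1 := by positivity
      refine ⟨((n : ℝ) + 1)⁻¹ • x, Submodule.smul_mem _ _ hx, ?_⟩
      have e : u - ((n : ℝ) + 1)⁻¹ • x = ((n : ℝ) + 1)⁻¹ • (((n : ℝ) + 1) • u - x) := by
        rw [smul_sub, smul_smul, inv_mul_cancel₀ hn1.ne', one_smul]
      rw [dist_eq_norm, e, norm_smul, norm_inv, Real.norm_of_nonneg hn1.le,
        inv_mul_lt_iff₀ hn1]
      rw [div_lt_iff₀ hε] at hn
      nlinarith
    rw [hcl.closure_eq] at hmem
    exact hmem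

end Pool.Agent.H779R2.To
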