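import Pool.Agent.H779R2.To.TDef

set_option autoImplicit false

namespace Pool.Agent.H779R2.To

open Filter Topology

variable {V Z Γ : Type*} [NormedAddCommGroup V] [NormedSpace ℝ V] [MetricSpace Z]
    [AddCommGroup Γ]

theorem ell_tR_symm {D : TDat V Z Γ} (C : Coo D) (v : Fin C.m → ℝ) :
    C.tR (C.Φ.symm v) = D.A.symm (C.tR v) := by
  have h := C.tR_Φ (C.Φ.symm v)
  rw [LinearEquiv.apply_symm_apply] at h
  rw [h, ContinuousLinearEquiv.symm_apply_apply]

theorem ell_tR_iter {D : TDat V Z Γ} (C : Coo D) (n : ℕ) (v : Fin C.m → ℝ) (h0 : C.tR v = 0) :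
    C.tR (C.Φ.symm^[n] v) = 0 := by
  induction n with
  | zero => exact h0
  | succ n ih => rw [Function.iterate_succ_apply', ell_tR_symm, ih, map_zero]

theorem ell_unique {D : TDat V Z Γ} {C : Coo D} (hc : Contr C) {v : Fin C.m → ℝ}
    (h0 : C.tR v = 0) {M' : ℝ} (hb : ∀ᶠ n : ℕ in atTop, ‖C.Φ.symm^[n] v‖ ≤ M') : v = 0 := by
  obtain ⟨M, hM⟩ := hc
  have h1 : ∀ᶠ n : ℕ in atTop, ‖v‖ ≤ |M| * (1 / 2) ^ n * M' := by
    filter_upwards [hb] with n hn
    have h2 : C.Φ^[n] (C.Φ.symm^[n] v) = v :=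
      (Function.LeftInverse.iterate (fun x => C.Φ.apply_symm_apply x) n) v
    have h3 := hM n (C.Φ.symm^[n] v) (ell_tR_iter C n v h0)
    rw [h2] at h3
    refine h3.trans ?_
    refine mul_le_mul ?_ hn (norm_nonneg _) (by positivity)
    exact mul_le_mul_of_nonneg_right (le_abs_self M) (by positivity)
  have h4 : Tendsto (fun n : ℕ => |M| * (1 / 2 : ℝ) ^ n * M') atTop (𝓝 (|M| * 0 * M')) :=
    ((tendsto_pow_atTop_nhds_zero_of_lt_one (by norm_num) (by norm_num)).const_mul _).mul_const _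
  rw [mul_zero, zero_mul] at h4
  have h5 : ‖v‖ ≤ 0 := ge_of_tendsto h4 h1
  exact norm_le_zero_iff.1 h5

/-- the increment of `h` -/
noncomputable def ell_d {D : TDat V Z Γ} {C : Coo D} {k : Kap C} (s : Semi k) (u u' : V) (z : Z) :
    Fin C.m → ℝ := s.h (u + u', z) - s.h (u', z)

theorem ell_tR_d {D : TDat V Z Γ} {C : Coo D} {k : Kap C} (s : Semi k) (u u' : V) (z : Z) :
    C.tR (ell_d s u u' z) = u := by
  rw [ell_d, map_sub, s.tR_h, s.tR_h]
  simp

theorem ell_gt_symm {D : TDat V Z Γ} {C : Coo D} {k : Kap C} (s : Semi k) (y : V × Z) :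
    s.h (D.gt.symm y) = C.Φ.symm (s.h y) := by
  have h := s.gt (D.gt.symm y)
  rw [Homeomorph.apply_symm_apply] at h
  rw [h, LinearEquiv.symm_apply_apply]

theorem ell_step {D : TDat V Z Γ} {C : Coo D} {k : Kap C} (s : Semi k) (u u' : V) (z : Z) :
    C.Φ.symm (ell_d s u u' z) = ell_d s (D.A.symm u) (D.A.symm u') (D.G.symm z) := by
  rw [ell_d, map_sub, ← ell_gt_symm, ← ell_gt_symm, D.gt_symm_apply, D.gt_symm_apply, ell_d]
  simp only [map_add]

theorem ell_iter {D : TDat V Z Γ} {C : Coo D} {k : Kap C} (s : Semi k) (n : ℕ) (u u' : V) (z : Z) :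
    C.Φ.symm^[n] (ell_d s u u' z) =
      ell_d s (D.A.symm^[n] u) (D.A.symm^[n] u') (D.G.symm^[n] z) := by
  induction n with
  | zero => rfl
  | succ n ih =>
    simp only [Function.iterate_succ_apply', ih, ell_step]

theorem ell_bdd {D : TDat V Z Γ} {C : Coo D} {k : Kap C} (s : Semi k) (K' : Set (V × Z))
    (hK : IsCompact K') : ∃ c : ℝ, ∀ y ∈ K', ‖s.h y‖ ≤ c := by
  obtain ⟨c, hc⟩ := k.bdd K' hK
  refine ⟨s.B + c, fun y hy => ?_⟩
  calc ‖s.h y‖ = ‖(s.h y - C.ι (k.κ y)) + C.ι (k.κ y)‖ := by rw [sub_add_cancel]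
    _ ≤ ‖s.h y - C.ι (k.κ y)‖ + ‖C.ι (k.κ y)‖ := norm_add_le _ _
    _ ≤ s.B + c := add_le_add (s.near y) (hc y hy)

theorem ell_bound [FiniteDimensional ℝ V] {D : TDat V Z Γ} {C : Coo D} {k : Kap C} (s : Semi k) :
    ∃ c : ℝ, ∀ u : V, ‖u‖ ≤ 1 → ∀ (u' : V) (z : Z), ‖ell_d s u u' z‖ ≤ c := by
  have : ProperSpace V := FiniteDimensional.proper ℝ V
  have hcpt : IsCompact ((fun p : V × (V × Z) => (p.1 + p.2.1, p.2.2)) ''
      (Metric.closedBall (0 : V) 1 ×ˢ k.K)) :=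
    ((isCompact_closedBall (0 : V) 1).prod k.cpt).image (by fun_prop)
  obtain ⟨c, hc⟩ := ell_bdd s _ hcpt
  refine ⟨c + c, fun u hu u' z => ?_⟩
  have hmem := k.mem (u', z)
  have e1 : s.h (D.act (-k.κ (u', z)) (u + u', z)) = s.h (u + u', z) + C.ι (-k.κ (u', z)) :=
    s.act _ _
  have e2 : s.h (D.act (-k.κ (u', z)) (u', z)) = s.h (u', z) + C.ι (-k.κ (u', z)) :=
    s.act _ _
  have e3 : ell_d s u u' z = s.h (D.act (-k.κ (u', z)) (u + u', z)) -
      s.h (D.act (-k.κ (u', z)) (u', z)) := by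
    rw [e1, e2, ell_d]
    abel
  rw [e3]
  refine (norm_sub_le _ _).trans (add_le_add (hc _ ?_) (hc _ ?_))
  · refine ⟨(u, D.act (-k.κ (u', z)) (u', z)), ⟨by simpa using hu, hmem⟩, ?_⟩
    simp only [D.act_apply]
    rw [add_assoc]
  · refine ⟨(0, D.act (-k.κ (u', z)) (u', z)), ⟨by simp, hmem⟩, ?_⟩
    simp

theorem ell_A_iter (D : TDat V Z Γ) (n : ℕ) (u : V) : ‖D.A.symm^[n] u‖ ≤ (1 / 2) ^ n * ‖u‖ := by
  induction n with
  | zero => simp
  | succ n ih =>
    rw [Function.iterate_succ_apply']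
    refine (D.A_symm_le _).trans ?_
    rw [pow_succ]
    linarith

theorem ell_ev {D : TDat V Z Γ} {C : Coo D} {k : Kap C} (s : Semi k) {c : ℝ}
    (hc : ∀ u : V, ‖u‖ ≤ 1 → ∀ (u' : V) (z : Z), ‖ell_d s u u' z‖ ≤ c) (u u' : V) (z : Z) :
    ∀ᶠ n : ℕ in atTop, ‖C.Φ.symm^[n] (ell_d s u u' z)‖ ≤ c := by
  have h4 : Tendsto (fun n : ℕ => (1 / 2 : ℝ) ^ n * ‖u‖) atTop (𝓝 (0 * ‖u‖)) :=
    (tendsto_pow_atTop_nhds_zero_of_lt_one (by norm_num) (by norm_num)).mul_const _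
  rw [zero_mul] at h4
  filter_upwards [h4.eventually (gt_mem_nhds one_pos)] with n hn
  rw [ell_iter]
  exact hc _ ((ell_A_iter D n u).trans hn.le) _ _

theorem ell_iter_sub {D : TDat V Z Γ} (C : Coo D) (n : ℕ) (v w : Fin C.m → ℝ) :
    C.Φ.symm^[n] (v - w) = C.Φ.symm^[n] v - C.Φ.symm^[n] w := by
  induction n with
  | zero => rfl
  | succ n ih => rw [Function.iterate_succ_apply', Function.iterate_succ_apply',
      Function.iterate_succ_apply', ih, map_sub]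

theorem ell_iter_smul {D : TDat V Z Γ} (C : Coo D) (n : ℕ) (c : ℝ) (v : Fin C.m → ℝ) :
    C.Φ.symm^[n] (c • v) = c • C.Φ.symm^[n] v := by
  induction n with
  | zero => rfl
  | succ n ih => rw [Function.iterate_succ_apply', Function.iterate_succ_apply', ih, map_smul]

/-- U6: `h` is affine in the direction of `V`. -/
theorem exists_ell [FiniteDimensional ℝ V] [Nonempty Z] {D : TDat V Z Γ} {C : Coo D} {k : Kap C}
    (hc : Contr C) (s : Semi k) : Nonempty (Ell s) := by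
  obtain ⟨c, hcb⟩ := ell_bound s
  obtain ⟨z₀⟩ := (inferInstance : Nonempty Z)
  have hind : ∀ (u u' u'' : V) (z z' : Z), ell_d s u u' z = ell_d s u u'' z' := by
    intro u u' u'' z z'
    rw [← sub_eq_zero]
    refine ell_unique hc (by rw [map_sub, ell_tR_d, ell_tR_d, sub_self]) (M' := c + c) ?_
    filter_upwards [ell_ev s hcb u u' z, ell_ev s hcb u u'' z'] with n h1 h2
    rw [ell_iter_sub]
    exact (norm_sub_le _ _).trans (add_le_add h1 h2)
  have hadd : ∀ u v : V, ell_d s (u + v) 0 z₀ = ell_d s u 0 z₀ + ell_d s v 0 z₀ := by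
    intro u v
    rw [hind u 0 v z₀ z₀]
    simp only [ell_d, add_zero]
    abel
  have hsmul : ∀ (a : ℝ) (u : V), ell_d s (a • u) 0 z₀ = a • ell_d s u 0 z₀ := by
    intro a u
    rw [← sub_eq_zero]
    refine ell_unique hc (by rw [map_sub, map_smul, ell_tR_d, ell_tR_d, sub_self])
      (M' := c + |a| * c) ?_
    filter_upwards [ell_ev s hcb (a • u) 0 z₀, ell_ev s hcb u 0 z₀] with n h1 h2
    rw [ell_iter_sub, ell_iter_smul]
    refine (norm_sub_le _ _).trans (add_le_add h1 ?_)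
    rw [norm_smul, Real.norm_eq_abs]
    exact mul_le_mul_of_nonneg_left h2 (abs_nonneg a)
  refine ⟨⟨{ toFun := fun u => ell_d s u 0 z₀, map_add' := hadd, map_smul' := hsmul }, ?_, ?_, ?_⟩⟩
  · intro u
    exact ell_tR_d s u 0 z₀
  · intro u
    show C.Φ (ell_d s u 0 z₀) = ell_d s (D.A u) 0 z₀
    have h1 := ell_step s (D.A u) (D.A 0) (D.G z₀)
    rw [ContinuousLinearEquiv.symm_apply_apply, ContinuousLinearEquiv.symm_apply_apply,
      Homeomorph.symm_apply_apply] at h1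
    rw [← h1, LinearEquiv.apply_symm_apply]
    exact hind _ _ _ _ _
  · intro u z u'
    show s.h (u + u', z) = ell_d s u 0 z₀ + s.h (u', z)
    rw [hind u 0 u' z₀ z, ell_d, sub_add_cancel]

end Pool.Agent.H779R2.To
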