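import Pool.Agent.H779R2.To.TDef

set_option autoImplicit false

namespace Pool.Agent.H779R2.To

open Filter Topology

variable {V Z Γ : Type*} [NormedAddCommGroup V] [NormedSpace ℝ V] [MetricSpace Z]
    [AddCommGroup Γ]

/-- finitely many group elements of bounded size -/
theorem semi_homeo_aux_fin {D : TDat V Z Γ} (C : Coo D) (R : ℝ) : {a : Γ | ‖C.ι a‖ ≤ R}.Finite := by
  have h1 : {a : Γ | ‖C.ι a‖ ≤ R} ⊆ C.b ⁻¹' (Set.Icc (fun _ => -⌈R⌉) (fun _ => ⌈R⌉)) := by
    intro a ha
    have h2 : ∀ i, |(C.b a i : ℝ)| ≤ R := by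
      intro i
      have h3 := norm_le_pi_norm (C.ι a) i
      exact h3.trans ha
    constructor
    · intro i
      have h3 := (abs_le.1 (h2 i)).1
      have h4 := Int.le_ceil R
      have h5 : (-(⌈R⌉ : ℤ) : ℝ) ≤ (C.b a i : ℝ) := by linarith
      exact_mod_cast h5
    · intro i
      have h3 := (abs_le.1 (h2 i)).2
      have h4 := Int.le_ceil R
      have h5 : (C.b a i : ℝ) ≤ ((⌈R⌉ : ℤ) : ℝ) := by linarith
      exact_mod_cast h5
  exact ((Set.finite_Icc _ _).preimage C.b.injective.injOn).subset h1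

/-- U10: a continuous bijective semiconjugacy is a homeomorphism. -/
theorem semi_homeo {D : TDat V Z Γ} {C : Coo D} {k : Kap C} (s : Semi k) (hs : Continuous s.h)
    (hi : Function.Injective s.h) (hsurj : Function.Surjective s.h) :
    ∃ h : V × Z ≃ₜ (Fin C.m → ℝ), ∀ y, h y = s.h y := by
  have hprop : IsProperMap s.h := by
    rw [isProperMap_iff_isCompact_preimage]
    refine ⟨hs, ?_⟩
    intro K₀ hK₀
    obtain ⟨R, hR⟩ := hK₀.isBounded.exists_norm_le
    have hfin := semi_homeo_aux_fin C (R + s.B)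
    have hcpt : IsCompact (⋃ a ∈ {a : Γ | ‖C.ι a‖ ≤ R + s.B}, D.act a '' k.K) :=
      hfin.isCompact_biUnion (fun a _ => k.cpt.image (D.act a).continuous)
    refine hcpt.of_isClosed_subset (hK₀.isClosed.preimage hs) ?_
    intro y hy
    rw [Set.mem_iUnion₂]
    refine ⟨k.κ y, ?_, D.act (-k.κ y) y, k.mem y, ?_⟩
    · have h1 := s.near y
      have h2 := hR (s.h y) hy
      have h3 := norm_sub_le (s.h y) (s.h y - C.ι (k.κ y))
      rw [sub_sub_cancel] at h3
      show ‖C.ι (k.κ y)‖ ≤ R + s.B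
      linarith
    · rw [← D.act_add, add_neg_cancel, D.act_zero]
  exact ⟨(Equiv.ofBijective s.h ⟨hi, hsurj⟩).toHomeomorphOfContinuousClosed hs hprop.isClosedMap,
    fun y => rfl⟩

end Pool.Agent.H779R2.To
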