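import Pool.Agent.H779R2.To.TDef

set_option autoImplicit false

namespace Pool.Agent.H779R2.To

open Filter Topology

variable {V Z Γ : Type*} [NormedAddCommGroup V] [NormedSpace ℝ V] [MetricSpace Z]
    [AddCommGroup Γ]

theorem thyp_lim {x c : ℝ} (hx : 0 ≤ x) (h : ∀ n : ℕ, x ≤ c * (1 / 2) ^ n) : x = 0 := by
  have ht : Tendsto (fun n : ℕ => c * (1 / 2 : ℝ) ^ n) atTop (𝓝 (c * 0)) :=
    (tendsto_pow_atTop_nhds_zero_of_lt_one (by norm_num) (by norm_num)).const_mul c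
  rw [mul_zero] at ht
  exact le_antisymm (ge_of_tendsto' ht h) hx

theorem thyp_A (D : TDat V Z Γ) (n : ℕ) (x : V) : ‖D.A.symm^[n] x‖ ≤ (1 / 2) ^ n * ‖x‖ := by
  induction n with
  | zero => simp
  | succ n ih =>
    rw [Function.iterate_succ_apply']
    calc ‖D.A.symm (D.A.symm^[n] x)‖ ≤ 1 / 2 * ‖D.A.symm^[n] x‖ := D.A_symm_le _
      _ ≤ 1 / 2 * ((1 / 2) ^ n * ‖x‖) := by
          apply mul_le_mul_of_nonneg_left ih (by norm_num)
      _ = (1 / 2) ^ (n + 1) * ‖x‖ := by ring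

theorem thyp_tR {D : TDat V Z Γ} (C : Coo D) (n : ℕ) (v : Fin C.m → ℝ) :
    C.tR (C.Φ^[n] v) = D.A^[n] (C.tR v) := by
  induction n with
  | zero => rfl
  | succ n ih => rw [Function.iterate_succ_apply', Function.iterate_succ_apply', C.tR_Φ, ih]

theorem thyp_ker {D : TDat V Z Γ} (C : Coo D) (n : ℕ) (v : Fin C.m → ℝ) (h : C.tR v = 0) :
    C.tR (C.Φ.symm^[n] v) = 0 := by
  induction n with
  | zero => exact h
  | succ n ih =>
    rw [Function.iterate_succ_apply']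
    have h1 := C.tR_Φ (C.Φ.symm (C.Φ.symm^[n] v))
    rw [LinearEquiv.apply_symm_apply, ih] at h1
    have h2 : D.A (C.tR (C.Φ.symm (C.Φ.symm^[n] v))) = D.A 0 := by rw [← h1, map_zero]
    exact D.A.injective h2

/-- U11: hyperbolicity. -/
theorem hyp_of_contr {D : TDat V Z Γ} {C : Coo D} (hc : Contr C) (v : Fin C.m → ℝ)
    (hv : ∃ M : ℝ, ∀ n : ℕ, ‖C.Φ^[n] v‖ ≤ M ∧ ‖C.Φ.symm^[n] v‖ ≤ M) : v = 0 := by
  obtain ⟨M, hM⟩ := hv
  obtain ⟨M', hM'⟩ := hc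
  have hcont : Continuous C.tR := LinearMap.continuous_of_finiteDimensional _
  obtain ⟨c, hc0, hc⟩ := (⟨C.tR, hcont⟩ : (Fin C.m → ℝ) →L[ℝ] V).bound
  have h1 : C.tR v = 0 := by
    rw [← norm_eq_zero]
    apply thyp_lim (norm_nonneg _) (c := c * M)
    intro n
    have h2 : C.tR v = D.A.symm^[n] (D.A^[n] (C.tR v)) :=
      ((Function.LeftInverse.iterate (f := D.A) (g := D.A.symm)
        (fun x => D.A.symm_apply_apply x) n) (C.tR v)).symm
    calc ‖C.tR v‖ = ‖D.A.symm^[n] (D.A^[n] (C.tR v))‖ := congrArg _ h2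
      _ ≤ (1 / 2) ^ n * ‖D.A^[n] (C.tR v)‖ := thyp_A D n _
      _ = (1 / 2) ^ n * ‖C.tR (C.Φ^[n] v)‖ := by rw [thyp_tR]
      _ ≤ (1 / 2) ^ n * (c * M) := by
          apply mul_le_mul_of_nonneg_left _ (by positivity)
          exact (hc _).trans (mul_le_mul_of_nonneg_left (hM n).1 hc0.le)
      _ = c * M * (1 / 2) ^ n := by ring
  rw [← norm_eq_zero]
  apply thyp_lim (norm_nonneg _) (c := |M'| * M)
  intro n
  have h3 : v = C.Φ^[n] (C.Φ.symm^[n] v) :=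
    ((Function.LeftInverse.iterate (f := C.Φ.symm) (g := C.Φ)
      (fun x => C.Φ.apply_symm_apply x) n) v).symm
  calc ‖v‖ = ‖C.Φ^[n] (C.Φ.symm^[n] v)‖ := congrArg _ h3
    _ ≤ M' * (1 / 2) ^ n * ‖C.Φ.symm^[n] v‖ := hM' n _ (thyp_ker C n v h1)
    _ ≤ |M'| * (1 / 2) ^ n * M := by
        apply mul_le_mul _ (hM n).2 (norm_nonneg _) (by positivity)
        exact mul_le_mul_of_nonneg_right (le_abs_self _) (by positivity)
    _ = |M'| * M * (1 / 2) ^ n := by ring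

end Pool.Agent.H779R2.To
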