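import Pool.Agent.H779R2.To.TDef

set_option autoImplicit false

namespace Pool.Agent.H779R2.To

open Filter Topology

variable {V Z Γ : Type*} [NormedAddCommGroup V] [NormedSpace ℝ V] [MetricSpace Z]
    [AddCommGroup Γ]

private theorem chn_pad {D : TDat V Z Γ} {u : V} {m m' : ℕ} {s s' : Z} (hm : m ≤ m')
    (h : Chn D.St u m s s') : Chn D.St u m' s s' := by
  obtain ⟨e, h0, h1, h2⟩ := h
  refine ⟨fun i => e (min i m), by simpa using h0, by simpa [Nat.min_eq_right hm] using h1, ?_⟩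
  intro i _
  rcases lt_or_ge i m with hi | hi
  · have e1 : min i m = i := Nat.min_eq_left hi.le
    have e2 : min (i + 1) m = i + 1 := Nat.min_eq_left hi
    simp only [e1, e2]
    exact h2 i hi
  · have e1 : min i m = m := Nat.min_eq_right hi
    have e2 : min (i + 1) m = m := Nat.min_eq_right (by omega)
    simp only [e1, e2]
    exact D.st_refl _ _

private theorem chn_two {D : TDat V Z Γ} {u : V} {k : ℕ} {s s' : Z}
    (h : Chn D.St u (2 * k) s s') : Chn D.St (D.A u) k (D.G s) (D.G s') := by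
  obtain ⟨e, h0, h1, h2⟩ := h
  refine ⟨fun i => D.G (e (2 * i)), by simp [h0], by simp [h1], ?_⟩
  intro i hi
  have a1 := h2 (2 * i) (by omega)
  have a2 := h2 (2 * i + 1) (by omega)
  have e3 : 2 * (i + 1) = 2 * i + 1 + 1 := by ring
  simp only [e3]
  exact D.st_two _ _ _ _ a1 a2

private theorem chn_pow {D : TDat V Z Γ} (j : ℕ) : ∀ {u : V} {s s' : Z},
    Chn D.St u (2 ^ j) s s' → D.St (D.A^[j] u) (D.G^[j] s) (D.G^[j] s') := by
  induction j with
  | zero =>
    intro u s s' h
    obtain ⟨e, h0, h1, h2⟩ := h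
    have := h2 0 (by norm_num)
    simp only [pow_zero] at h1
    rw [h0, zero_add, h1] at this
    simpa using this
  | succ j ih =>
    intro u s s' h
    rw [pow_succ, mul_comm] at h
    have := ih (chn_two h)
    simpa [Function.iterate_succ_apply] using this

private theorem chn_act {D : TDat V Z Γ} {u : V} {m : ℕ} {s s' : Z} (a : Γ)
    (h : Chn D.St u m s s') : Chn D.St (u + D.t a) m (D.σ a s) (D.σ a s') := by
  obtain ⟨e, h0, h1, h2⟩ := h
  exact ⟨fun i => D.σ a (e i), by simp [h0], by simp [h1], fun i hi => D.st_act _ _ _ _ (h2 i hi)⟩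

private theorem fin_ball {D : TDat V Z Γ} (C : Coo D) (R : ℝ) :
    {a : Γ | ‖C.ι a‖ ≤ R}.Finite := by
  have h1 : ((fun a : Γ => (C.b a : Fin C.m → ℤ)) '' {a : Γ | ‖C.ι a‖ ≤ R}).Finite := by
    refine (Set.finite_Icc (fun _ : Fin C.m => -⌈R⌉) (fun _ => ⌈R⌉)).subset ?_
    rintro _ ⟨a, ha, rfl⟩
    have hc : ∀ i, |((C.b a i : ℤ) : ℝ)| ≤ R := by
      intro i
      have := norm_le_pi_norm (C.ι a) i
      rw [Real.norm_eq_abs] at this
      exact this.trans ha
    constructor
    · intro i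
      have h2 := (abs_le.mp (hc i)).1
      have h3 : (-(⌈R⌉ : ℤ) : ℝ) ≤ ((C.b a i : ℤ) : ℝ) := by
        have := Int.le_ceil R
        linarith
      exact_mod_cast h3
    · intro i
      have h2 := (abs_le.mp (hc i)).2
      have h3 : ((C.b a i : ℤ) : ℝ) ≤ ((⌈R⌉ : ℤ) : ℝ) := h2.trans (Int.le_ceil R)
      exact_mod_cast h3
  refine Set.Finite.of_finite_image h1 ?_
  intro a _ b _ hab
  exact C.b.injective hab

private theorem iota_sub {D : TDat V Z Γ} (C : Coo D) (a b : Γ) :
    C.ι (a - b) = C.ι a - C.ι b := by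
  funext i
  simp [Coo.ι, map_sub]

private theorem semi_symm {D : TDat V Z Γ} {C : Coo D} {k : Kap C} (s : Semi k) {y y' : V × Z}
    (h : s.h y = s.h y') : s.h (D.gt.symm y) = s.h (D.gt.symm y') := by
  have e1 := s.gt (D.gt.symm y)
  have e2 := s.gt (D.gt.symm y')
  rw [Homeomorph.apply_symm_apply] at e1 e2
  apply C.Φ.injective
  rw [← e1, ← e2, h]

private theorem chain_of_eq {D : TDat V Z Γ} {C : Coo D} {k : Kap C} (s : Semi k) :
    ∃ m : ℕ, ∀ y y' : V × Z, s.h y = s.h y' → Chn D.St y.1 m y.2 y'.2 := by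
  classical
  set F := {a : Γ | ‖C.ι a‖ ≤ 2 * s.B} with hF
  have hFf : F.Finite := fin_ball C _
  set K2 : Set (V × Z) := ⋃ a ∈ F, D.act a '' k.K with hK2
  have hK2c : IsCompact K2 := by
    refine hFf.isCompact_biUnion fun a _ => ?_
    exact k.cpt.image (D.act a).continuous
  have hKc : IsCompact (k.K ∪ K2) := k.cpt.union hK2c
  obtain ⟨m, hm⟩ := D.st_chain (Prod.fst '' (k.K ∪ K2)) (Prod.snd '' (k.K ∪ K2))
    (hKc.image continuous_fst) (hKc.image continuous_snd)
  refine ⟨m, fun y y' h => ?_⟩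
  have hy1 : y.1 = y'.1 := by rw [← s.tR_h y, ← s.tR_h y', h]
  have hw : D.act (-k.κ y) y ∈ k.K := k.mem y
  have hw' : D.act (-k.κ y) y' ∈ K2 := by
    have e1 : -k.κ y = (k.κ y' - k.κ y) + (-k.κ y') := by abel
    rw [e1, D.act_add]
    refine Set.mem_biUnion (x := k.κ y' - k.κ y) ?_ ⟨_, k.mem y', rfl⟩
    change ‖C.ι (k.κ y' - k.κ y)‖ ≤ 2 * s.B
    rw [iota_sub]
    have n1 := s.near y
    have n2 := s.near y'
    have e2 : C.ι (k.κ y') - C.ι (k.κ y) =
        (s.h y - C.ι (k.κ y)) - (s.h y' - C.ι (k.κ y')) := by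
      rw [h]; abel
    rw [e2]
    refine (norm_sub_le _ _).trans ?_
    linarith
  have hc := hm (D.act (-k.κ y) y).1 ⟨_, Or.inl hw, rfl⟩ (D.act (-k.κ y) y).2
    ⟨_, Or.inl hw, rfl⟩ (D.act (-k.κ y) y').2 ⟨_, Or.inr hw', rfl⟩
  have hc' := chn_act (k.κ y) hc
  have e3 : ∀ z : V × Z, D.act (k.κ y) (D.act (-k.κ y) z) = z := by
    intro z
    rw [← D.act_add, add_neg_cancel, D.act_zero]
  have e4 := congrArg Prod.fst (e3 y)
  have e5 := congrArg Prod.snd (e3 y)
  have e6 := congrArg Prod.snd (e3 y')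
  rw [D.act_apply] at e4 e5 e6
  simp only at e4 e5 e6
  rw [e4, e5, e6] at hc'
  exact hc'

private theorem gt_symm_iter (D : TDat V Z Γ) (n : ℕ) (y : V × Z) :
    D.gt.symm^[n] y = (D.A.symm^[n] y.1, D.G.symm^[n] y.2) := by
  induction n generalizing y with
  | zero => rfl
  | succ n ih =>
    rw [Function.iterate_succ_apply, Function.iterate_succ_apply, Function.iterate_succ_apply,
      ih, D.gt_symm_apply]

/-- U7: injectivity. -/
theorem semi_inj {D : TDat V Z Γ} {C : Coo D} {k : Kap C} (s : Semi k) :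
    Function.Injective s.h := by
  intro y y' h
  have hy1 : y.1 = y'.1 := by rw [← s.tR_h y, ← s.tR_h y', h]
  obtain ⟨m, hm⟩ := chain_of_eq s
  have hit : ∀ n : ℕ, s.h (D.gt.symm^[n] y) = s.h (D.gt.symm^[n] y') := by
    intro n
    induction n with
    | zero => exact h
    | succ n ih =>
      rw [Function.iterate_succ_apply', Function.iterate_succ_apply']
      exact semi_symm s ih
  have hst : ∀ n : ℕ, D.St (D.A.symm^[n] y.1) (D.G.symm^[n] y.2) (D.G.symm^[n] y'.2) := by
    intro n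
    have h1 := hm _ _ (hit (m + n))
    have h2 := chn_pow m (chn_pad (Nat.lt_two_pow_self).le h1)
    rw [gt_symm_iter, gt_symm_iter] at h2
    simp only at h2
    have hA : Function.LeftInverse D.A D.A.symm := fun v => D.A.apply_symm_apply v
    have hG : Function.LeftInverse D.G D.G.symm := fun v => D.G.apply_symm_apply v
    rw [Function.iterate_add_apply, Function.iterate_add_apply, Function.iterate_add_apply,
      hA.iterate m, hG.iterate m, hG.iterate m] at h2
    exact h2
  exact Prod.ext hy1 (D.st_exp _ _ _ hst)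

end Pool.Agent.H779R2.To
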