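import Pool.Agent.H779R2.To.TDef

set_option autoImplicit false

namespace Pool.Agent.H779R2.To

open Filter Topology

variable {V Z Γ : Type*} [NormedAddCommGroup V] [NormedSpace ℝ V] [MetricSpace Z]
    [AddCommGroup Γ]

private theorem kap_ι_add {D : TDat V Z Γ} (C : Coo D) (a b : Γ) :
    C.ι (a + b) = C.ι a + C.ι b := by
  funext i
  simp [Coo.ι]

private theorem kap_ι_neg {D : TDat V Z Γ} (C : Coo D) (a : Γ) : C.ι (-a) = -C.ι a := by
  funext i
  simp [Coo.ι]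

private theorem kap_ι_sub {D : TDat V Z Γ} (C : Coo D) (a b : Γ) :
    C.ι (a - b) = C.ι a - C.ι b := by
  rw [sub_eq_add_neg, kap_ι_add, kap_ι_neg, sub_eq_add_neg]

private theorem kap_Φ_ι {D : TDat V Z Γ} (C : Coo D) (a : Γ) : C.Φ (C.ι a) = C.ι (D.φ a) :=
  C.Φ_b a

/-- the norms of the elements of a finite set are bounded -/
private theorem kap_bdd {D : TDat V Z Γ} (C : Coo D) {F : Set Γ} (hF : F.Finite) :
    ∃ B : ℝ, ∀ a ∈ F, ‖C.ι a‖ ≤ B := by
  obtain ⟨B, hB⟩ := (hF.image fun a => ‖C.ι a‖).bddAbove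
  exact ⟨B, fun a ha => hB ⟨a, ha, rfl⟩⟩

/-- the elements moving a compact set to a compact set are bounded -/
private theorem kap_prop (D : TDat V Z Γ) (C : Coo D) {K K' : Set (V × Z)} (hK : IsCompact K)
    (hK' : IsCompact K') : ∃ B : ℝ, ∀ (a : Γ) (y : V × Z), y ∈ K → D.act a y ∈ K' →
      ‖C.ι a‖ ≤ B := by
  obtain ⟨B, hB⟩ := kap_bdd C (D.proper K K' hK hK')
  exact ⟨B, fun a y hy hy' => hB a ⟨y, hy, hy'⟩⟩

private theorem kap_act_sub (D : TDat V Z Γ) (a b : Γ) (y : V × Z) :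
    D.act (a - b) (D.act b y) = D.act a y := by
  rw [← D.act_add, sub_add_cancel]

/-- U3: the coarse map. -/
theorem exists_kap [FiniteDimensional ℝ V] {D : TDat V Z Γ} (C : Coo D) : Nonempty (Kap C) := by
  obtain ⟨K, hK, hcov⟩ := D.cocompact
  have hcov' : ∀ y : V × Z, ∃ a : Γ, D.act a y ∈ K := hcov
  choose c hc using hcov'
  obtain ⟨B₁, hB₁⟩ := kap_prop D C hK hK
  obtain ⟨B₂, hB₂⟩ := kap_prop D C (hK.image D.gt.continuous) hK
  obtain ⟨K', hK', hst⟩ := D.st_cpt K hK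
  obtain ⟨B₃, hB₃⟩ := kap_prop D C hK' hK
  obtain ⟨B₄, hB₄⟩ := (hK.image continuous_fst).isBounded.exists_norm_le
  refine ⟨⟨fun y => -c y, K, hK, ?_, max (max B₁ B₂) (max B₃ B₄), ?_, ?_, ?_, ?_, ?_⟩⟩
  · intro y
    rw [neg_neg]
    exact hc y
  · intro a y
    have h1 : D.act (c (D.act a y) + a - c y) (D.act (c y) y) ∈ K := by
      rw [kap_act_sub, D.act_add]
      exact hc _
    have h2 := hB₁ _ _ (hc y) h1
    have h3 : C.ι (-c (D.act a y)) - C.ι (-c y) - C.ι a = -C.ι (c (D.act a y) + a - c y) := by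
      rw [kap_ι_neg, kap_ι_neg, kap_ι_sub, kap_ι_add]
      abel
    rw [h3, norm_neg]
    exact h2.trans ((le_max_left _ _).trans (le_max_left _ _))
  · intro y
    have h0 : D.gt (D.act (c y) y) ∈ D.gt '' K := ⟨_, hc y, rfl⟩
    have h1 : D.act (c (D.gt y) - D.φ (c y)) (D.gt (D.act (c y) y)) ∈ K := by
      rw [D.gt_act, kap_act_sub]
      exact hc _
    have h2 := hB₂ _ _ h0 h1
    have h3 : C.ι (-c (D.gt y)) - C.Φ (C.ι (-c y)) = -C.ι (c (D.gt y) - D.φ (c y)) := by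
      rw [kap_Φ_ι, map_neg, kap_ι_neg, kap_ι_neg, kap_ι_sub]
      abel
    rw [h3, norm_neg]
    exact h2.trans ((le_max_right _ _).trans (le_max_left _ _))
  · intro u s s' h
    have h0 : D.act (c (u, s)) (u, s') ∈ K' :=
      hst _ _ _ (hc (u, s)) (D.st_act (c (u, s)) u s s' h)
    have h1 : D.act (c (u, s') - c (u, s)) (D.act (c (u, s)) (u, s')) ∈ K := by
      rw [kap_act_sub]
      exact hc _
    have h2 := hB₃ _ _ h0 h1
    have h3 : C.ι (-c (u, s)) - C.ι (-c (u, s')) = C.ι (c (u, s') - c (u, s)) := by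
      rw [kap_ι_neg, kap_ι_neg, kap_ι_sub]
      abel
    rw [h3]
    exact h2.trans ((le_max_left _ _).trans (le_max_right _ _))
  · intro y
    have h1 : y.1 - D.t (-c y) = (D.act (c y) y).1 := by
      rw [map_neg, sub_neg_eq_add]
      rfl
    rw [h1]
    exact (hB₄ _ ⟨_, hc y, rfl⟩).trans ((le_max_right _ _).trans (le_max_right _ _))
  · intro K₁ hK₁
    obtain ⟨C', hC'⟩ := kap_prop D C hK₁ hK
    refine ⟨C', fun y hy => ?_⟩
    rw [kap_ι_neg, norm_neg]
    exact hC' _ _ hy (hc y)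

end Pool.Agent.H779R2.To
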