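import Pool.Agent.H779R2.To.TDef

set_option autoImplicit false

namespace Pool.Agent.H779R2.To

open Filter Topology

variable {V Z Γ : Type*} [NormedAddCommGroup V] [NormedSpace ℝ V] [MetricSpace Z]
    [AddCommGroup Γ]

/-- U5: the semiconjugacy. -/
theorem exists_semi [FiniteDimensional ℝ V] {D : TDat V Z Γ} {C : Coo D} (k : Kap C)
    (hc : Contr C) : Nonempty (Semi k) := by
  classical
  obtain ⟨r, hr⟩ := LinearMap.exists_rightInverse_of_surjective C.tR
    (LinearMap.range_eq_top.2 C.surj)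
  have hr' : ∀ v, C.tR (r v) = v := fun v => by
    have := LinearMap.congr_fun hr v
    simpa using this
  obtain ⟨R, hR0, hR⟩ : ∃ R : ℝ, 0 ≤ R ∧ ∀ v, ‖r v‖ ≤ R * ‖v‖ :=
    ⟨‖LinearMap.toContinuousLinearMap r‖, norm_nonneg _, fun v =>
      (LinearMap.toContinuousLinearMap r).le_opNorm v⟩
  have hΦc : Continuous C.Φ :=
    LinearMap.continuous_of_finiteDimensional (C.Φ : (Fin C.m → ℝ) →ₗ[ℝ] (Fin C.m → ℝ))
  have htc : Continuous C.tR := LinearMap.continuous_of_finiteDimensional C.tR
  obtain ⟨P, hP0, hP⟩ : ∃ P : ℝ, 0 ≤ P ∧ ∀ v, ‖C.Φ v‖ ≤ P * ‖v‖ :=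
    ⟨‖LinearMap.toContinuousLinearMap (C.Φ : (Fin C.m → ℝ) →ₗ[ℝ] (Fin C.m → ℝ))‖, norm_nonneg _,
      fun v => (LinearMap.toContinuousLinearMap
        (C.Φ : (Fin C.m → ℝ) →ₗ[ℝ] (Fin C.m → ℝ))).le_opNorm v⟩
  obtain ⟨M0, hM0⟩ := hc
  obtain ⟨M, hMn, hM⟩ : ∃ M : ℝ, 0 ≤ M ∧ ∀ (n : ℕ) (w : Fin C.m → ℝ), C.tR w = 0 →
      ‖C.Φ^[n] w‖ ≤ M * (1 / 2) ^ n * ‖w‖ :=
    ⟨|M0|, abs_nonneg _, fun n w hw => (hM0 n w hw).trans (by
      gcongr
      exact le_abs_self _)⟩
  -- the corrected coarse map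
  set ik : V × Z → (Fin C.m → ℝ) := fun y => C.ι (k.κ y) with hik
  set kt : V × Z → (Fin C.m → ℝ) := fun y => ik y + r (y.1 - D.t (k.κ y)) with hkt
  have tι : ∀ a, C.tR (C.ι a) = D.t a := fun a => C.tR_b a
  have tkt : ∀ y, C.tR (kt y) = y.1 := by
    intro y
    simp only [hkt, hik, map_add, tι, hr']
    abel
  have knear : ∀ y, ‖kt y - ik y‖ ≤ R * k.B := by
    intro y
    have : kt y - ik y = r (y.1 - D.t (k.κ y)) := by simp only [hkt]; abel
    rw [this]
    exact (hR _).trans (mul_le_mul_of_nonneg_left (k.t_le y) hR0)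
  set E : ℝ := k.B + P * (R * k.B) + R * k.B with hE
  have hstep : ∀ z, ‖kt (D.gt z) - C.Φ (kt z)‖ ≤ E := by
    intro z
    have e : kt (D.gt z) - C.Φ (kt z) = (ik (D.gt z) - C.Φ (ik z)) - C.Φ (kt z - ik z) +
        (kt (D.gt z) - ik (D.gt z)) := by
      rw [map_sub]; abel
    rw [e]
    refine (norm_add_le _ _).trans (add_le_add ((norm_sub_le _ _).trans
      (add_le_add (k.gt_le z) ?_)) (knear _))
    exact (hP _).trans (mul_le_mul_of_nonneg_left (knear z) hP0)
  have hker : ∀ z, C.tR (kt (D.gt z) - C.Φ (kt z)) = 0 := by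
    intro z
    rw [map_sub, tkt, C.tR_Φ, tkt, D.gt_apply, sub_self]
  have sub_iter : ∀ (n : ℕ) (v w : Fin C.m → ℝ), C.Φ^[n] (v - w) = C.Φ^[n] v - C.Φ^[n] w := by
    intro n
    induction n with
    | zero => intro v w; rfl
    | succ n ih => intro v w; rw [Function.iterate_succ_apply, map_sub, ih,
        Function.iterate_succ_apply, Function.iterate_succ_apply]
  -- the approximations
  set hn : ℕ → V × Z → (Fin C.m → ℝ) := fun n y => C.Φ^[n] (kt (D.gt.symm^[n] y)) with hhn
  have hdiff : ∀ n y, dist (hn n y) (hn (n + 1) y) ≤ (2 * (M * E)) / 2 / 2 ^ n := by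
    intro n y
    have h1 : hn n y - hn (n + 1) y = C.Φ^[n] (kt (D.gt (D.gt.symm^[n + 1] y)) -
        C.Φ (kt (D.gt.symm^[n + 1] y))) := by
      rw [sub_iter]
      have h2 : D.gt (D.gt.symm^[n + 1] y) = D.gt.symm^[n] y := by
        rw [Function.iterate_succ_apply', Homeomorph.apply_symm_apply]
      rw [h2]
      simp only [hhn]
      rw [Function.iterate_succ_apply C.Φ]
    rw [dist_eq_norm, h1]
    refine (hM n _ (hker _)).trans ?_
    have h3 := hstep (D.gt.symm^[n + 1] y)
    calc M * (1 / 2) ^ n * ‖kt (D.gt (D.gt.symm^[n + 1] y)) - C.Φ (kt (D.gt.symm^[n + 1] y))‖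
        ≤ M * (1 / 2) ^ n * E := mul_le_mul_of_nonneg_left h3 (by positivity)
      _ = (2 * (M * E)) / 2 / 2 ^ n := by
          rw [one_div, inv_pow]
          field_simp
  have hcau : ∀ y, ∃ l, Tendsto (fun n => hn n y) atTop (𝓝 l) := fun y =>
    cauchySeq_tendsto_of_complete (cauchySeq_of_le_geometric_two (fun n => hdiff n y))
  choose h hh using hcau
  have hclose : ∀ y, ‖h y - kt y‖ ≤ 2 * (M * E) := by
    intro y
    have h1 := dist_le_of_le_geometric_two_of_tendsto₀ (fun n => hdiff n y) (hh y)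
    rw [dist_comm, dist_eq_norm] at h1
    exact h1
  have iterA : ∀ (n : ℕ) (v : Fin C.m → ℝ), C.tR (C.Φ^[n] v) = D.A^[n] (C.tR v) := by
    intro n
    induction n with
    | zero => intro v; rfl
    | succ n ih => intro v; rw [Function.iterate_succ_apply, ih, C.tR_Φ,
        Function.iterate_succ_apply]
  have iterS : ∀ (n : ℕ) (y : V × Z), (D.gt.symm^[n] y).1 = D.A.symm^[n] y.1 := by
    intro n
    induction n with
    | zero => intro y; rfl
    | succ n ih => intro y; rw [Function.iterate_succ_apply, ih, D.gt_symm_apply,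
        Function.iterate_succ_apply]
  have iterAA : ∀ (n : ℕ) (v : V), D.A^[n] (D.A.symm^[n] v) = v := by
    intro n
    induction n with
    | zero => intro v; rfl
    | succ n ih => intro v; rw [Function.iterate_succ_apply, Function.iterate_succ_apply',
        ContinuousLinearEquiv.apply_symm_apply, ih]
  have iterφ : ∀ (n : ℕ) (a : Γ), C.Φ^[n] (C.ι (D.φ.symm^[n] a)) = C.ι a := by
    intro n
    induction n with
    | zero => intro a; rfl
    | succ n ih =>
      intro a
      have e : C.Φ (C.ι (D.φ.symm (D.φ.symm^[n] a))) = C.ι (D.φ.symm^[n] a) := by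
        have := C.Φ_b (D.φ.symm (D.φ.symm^[n] a))
        rw [AddEquiv.apply_symm_apply] at this
        exact this
      rw [Function.iterate_succ_apply' D.φ.symm, Function.iterate_succ_apply C.Φ, e, ih]
  have gts_act : ∀ (a : Γ) (y : V × Z), D.gt.symm (D.act a y) = D.act (D.φ.symm a) (D.gt.symm y) := by
    intro a y
    rw [Homeomorph.symm_apply_eq, D.gt_act, AddEquiv.apply_symm_apply, Homeomorph.apply_symm_apply]
  have iteract : ∀ (n : ℕ) (a : Γ) (y : V × Z), D.gt.symm^[n] (D.act a y) =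
      D.act (D.φ.symm^[n] a) (D.gt.symm^[n] y) := by
    intro n
    induction n with
    | zero => intro a y; rfl
    | succ n ih => intro a y; rw [Function.iterate_succ_apply, gts_act, ih,
        Function.iterate_succ_apply, Function.iterate_succ_apply]
  set E' : ℝ := k.B + R * k.B + R * k.B with hE'
  have hact : ∀ b z, ‖kt (D.act b z) - kt z - C.ι b‖ ≤ E' := by
    intro b z
    have e : kt (D.act b z) - kt z - C.ι b = (ik (D.act b z) - ik z - C.ι b) +
        (kt (D.act b z) - ik (D.act b z)) - (kt z - ik z) := by abel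
    rw [e]
    exact (norm_sub_le _ _).trans (add_le_add ((norm_add_le _ _).trans
      (add_le_add (k.act_le b z) (knear _))) (knear _))
  have hactk : ∀ b z, C.tR (kt (D.act b z) - kt z - C.ι b) = 0 := by
    intro b z
    rw [map_sub, map_sub, tkt, tkt, tι, D.act_apply]
    show z.1 + D.t b - z.1 - D.t b = 0
    abel
  refine ⟨⟨h, ?_, ?_, ?_, 2 * (M * E) + R * k.B, ?_⟩⟩
  · intro y
    have h1 : Tendsto (fun n => C.tR (hn n y)) atTop (𝓝 (C.tR (h y))) :=
      (htc.tendsto _).comp (hh y)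
    refine tendsto_nhds_unique h1 ?_
    have h2 : ∀ n, C.tR (hn n y) = y.1 := by
      intro n
      simp only [hhn]
      rw [iterA, tkt, iterS, iterAA]
    simp only [h2]
    exact tendsto_const_nhds
  · intro a y
    have h1 : Tendsto (fun n => hn n (D.act a y) - hn n y - C.ι a) atTop
        (𝓝 (h (D.act a y) - h y - C.ι a)) := ((hh _).sub (hh y)).sub tendsto_const_nhds
    have h2 : Tendsto (fun n => hn n (D.act a y) - hn n y - C.ι a) atTop (𝓝 0) := by
      have h3 : ∀ n, ‖hn n (D.act a y) - hn n y - C.ι a‖ ≤ (M * E') * (1 / 2) ^ n := by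
        intro n
        have h4 : hn n (D.act a y) - hn n y - C.ι a =
            C.Φ^[n] (kt (D.act (D.φ.symm^[n] a) (D.gt.symm^[n] y)) - kt (D.gt.symm^[n] y) -
              C.ι (D.φ.symm^[n] a)) := by
          rw [sub_iter, sub_iter, iterφ]
          simp only [hhn]
          rw [iteract]
        rw [h4]
        refine (hM n _ (hactk _ _)).trans ?_
        calc M * (1 / 2) ^ n * ‖_‖ ≤ M * (1 / 2) ^ n * E' :=
              mul_le_mul_of_nonneg_left (hact _ _) (by positivity)
          _ = (M * E') * (1 / 2) ^ n := by ring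
      refine squeeze_zero_norm h3 ?_
      have h5 : Tendsto (fun n : ℕ => (1 / 2 : ℝ) ^ n) atTop (𝓝 0) :=
        tendsto_pow_atTop_nhds_zero_of_lt_one (by norm_num) (by norm_num)
      have h6 := h5.const_mul (M * E')
      rwa [mul_zero] at h6
    have h3 := tendsto_nhds_unique h1 h2
    have h4 : h (D.act a y) = h y + C.ι a := by
      have h5 : h (D.act a y) - h y = C.ι a := sub_eq_zero.1 h3
      rw [← h5]; abel
    exact h4
  · intro y
    have h1 : Tendsto (fun n => hn (n + 1) (D.gt y)) atTop (𝓝 (h (D.gt y))) :=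
      (hh (D.gt y)).comp (tendsto_add_atTop_nat 1)
    have h2 : Tendsto (fun n => C.Φ (hn n y)) atTop (𝓝 (C.Φ (h y))) :=
      (hΦc.tendsto _).comp (hh y)
    refine tendsto_nhds_unique h1 (h2.congr fun n => ?_)
    simp only [hhn]
    rw [Function.iterate_succ_apply' C.Φ, Function.iterate_succ_apply D.gt.symm,
      Homeomorph.symm_apply_apply]
  · intro y
    have e : h y - C.ι (k.κ y) = (h y - kt y) + (kt y - ik y) := by
      simp only [hik]; abel
    rw [e]
    exact (norm_add_le _ _).trans (add_le_add (hclose y) (knear y))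

end Pool.Agent.H779R2.To
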