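import Pool.Agent.H779R2.To.TDef

set_option autoImplicit false

namespace Pool.Agent.H779R2.To

open Filter Topology

variable {V Z Γ : Type*} [NormedAddCommGroup V] [NormedSpace ℝ V] [MetricSpace Z]
    [AddCommGroup Γ]

private theorem iter_sub' {m : ℕ} (Φ : (Fin m → ℝ) ≃ₗ[ℝ] (Fin m → ℝ)) (n : ℕ)
    (x y : Fin m → ℝ) : Φ^[n] (x - y) = Φ^[n] x - Φ^[n] y := by
  induction n generalizing x y with
  | zero => rfl
  | succ n ih =>
    rw [Function.iterate_succ_apply, Function.iterate_succ_apply, Function.iterate_succ_apply,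
      map_sub, ih]

private theorem iter_symm {m : ℕ} (Φ : (Fin m → ℝ) ≃ₗ[ℝ] (Fin m → ℝ)) (n : ℕ)
    (x : Fin m → ℝ) : Φ^[n] (Φ.symm^[n] x) = x := by
  induction n generalizing x with
  | zero => rfl
  | succ n ih =>
    rw [Function.iterate_succ_apply', Function.iterate_succ_apply, ih, Φ.apply_symm_apply]

private theorem iter_ι {D : TDat V Z Γ} (C : Coo D) (n : ℕ) (a : Γ) :
    C.Φ^[n] (C.ι a) = C.ι (D.φ^[n] a) := by
  induction n generalizing a with
  | zero => rfl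
  | succ n ih =>
    rw [Function.iterate_succ_apply, Function.iterate_succ_apply, ← ih (D.φ a)]
    congr 1
    exact C.Φ_b a

private theorem ker_symm {D : TDat V Z Γ} (C : Coo D) (n : ℕ) (w : Fin C.m → ℝ)
    (hw : C.tR w = 0) : C.tR (C.Φ.symm^[n] w) = 0 := by
  induction n with
  | zero => exact hw
  | succ n ih =>
    rw [Function.iterate_succ_apply']
    have h1 := C.tR_Φ (C.Φ.symm (C.Φ.symm^[n] w))
    rw [C.Φ.apply_symm_apply, ih] at h1
    have h2 : D.A (C.tR (C.Φ.symm (C.Φ.symm^[n] w))) = D.A 0 := by rw [← h1, map_zero]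
    exact D.A.injective h2

/-- the set of `a` with bounded coordinates is finite -/
private theorem fin_ball {D : TDat V Z Γ} (C : Coo D) (R : ℝ) :
    {a : Γ | ‖C.ι a‖ ≤ R}.Finite := by
  have h1 : {f : Fin C.m → ℤ | ∀ i, f i ∈ Set.Icc (-⌈R⌉) ⌈R⌉}.Finite :=
    Set.Finite.pi' fun _ => Set.finite_Icc _ _
  refine (h1.preimage (f := C.b) C.b.injective.injOn).subset ?_
  intro a ha i
  have h2 : |((C.b a i : ℤ) : ℝ)| ≤ R := by
    have h3 := norm_le_pi_norm (C.ι a) i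
    exact (by simpa [Coo.ι] using h3 : |((C.b a i : ℤ) : ℝ)| ≤ ‖C.ι a‖).trans ha
  rw [abs_le] at h2
  have h4 := Int.le_ceil R
  constructor
  · have : (-(⌈R⌉ : ℝ)) ≤ ((C.b a i : ℤ) : ℝ) := by linarith
    exact_mod_cast this
  · have : ((C.b a i : ℤ) : ℝ) ≤ (⌈R⌉ : ℝ) := by linarith
    exact_mod_cast this

/-- U9: surjectivity. -/
theorem semi_surj [FiniteDimensional ℝ V] [Nonempty Z] {D : TDat V Z Γ} {C : Coo D}
    {k : Kap C} (hc : Contr C) (s : Semi k) (l : Ell s) (hs : Continuous s.h) :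
    Function.Surjective s.h := by
  obtain ⟨M, hM⟩ := hc
  -- the projection
  set π : (Fin C.m → ℝ) →ₗ[ℝ] (Fin C.m → ℝ) := LinearMap.id - l.l ∘ₗ C.tR with hπ
  have hπ_apply : ∀ v, π v = v - l.l (C.tR v) := fun v => rfl
  have hπ_ker : ∀ v, C.tR (π v) = 0 := by
    intro v
    rw [hπ_apply, map_sub, l.tR_l, sub_self]
  have hπ_of_ker : ∀ v, C.tR v = 0 → π v = v := by
    intro v hv
    rw [hπ_apply, hv, map_zero, sub_zero]
  have hπ_Φ : ∀ (n : ℕ) v, C.Φ^[n] (π v) = π (C.Φ^[n] v) := by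
    intro n
    induction n with
    | zero => intro v; rfl
    | succ n ih =>
      intro v
      rw [Function.iterate_succ_apply', ih, Function.iterate_succ_apply', hπ_apply, hπ_apply,
        map_sub, l.Φ_l, C.tR_Φ]
  set πc : (Fin C.m → ℝ) →L[ℝ] (Fin C.m → ℝ) := π.toContinuousLinearMap with hπc
  have hπ_le : ∀ v, ‖π v‖ ≤ ‖πc‖ * ‖v‖ := fun v => πc.le_opNorm v
  -- the set H₀
  set H : Set (Fin C.m → ℝ) := Set.range fun z : Z => s.h (0, z) with hH
  have hinv : ∀ (a : Γ) (z : Z), s.h (0, D.σ a z) = s.h (0, z) + π (C.ι a) := by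
    intro a z
    have h1 := s.act a (0, z)
    rw [D.act_apply] at h1
    have h2 := l.h_eq (D.t a) (D.σ a z) 0
    simp only [zero_add] at h1
    rw [add_zero, h1] at h2
    have h3 : C.tR (C.ι a) = D.t a := C.tR_b a
    rw [hπ_apply, h3]
    rw [add_sub, h2]
    abel
  have hclosed : IsClosed H := by
    rw [← closure_subset_iff_isClosed]
    intro w hw
    -- finite set of kappa
    have hfin := fin_ball C (s.B + (‖w‖ + 1))
    set F : Set Γ := {a : Γ | ‖C.ι a‖ ≤ s.B + (‖w‖ + 1)} with hF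
    set K₂ : Set (V × Z) := (⋃ a ∈ F, D.act a '' k.K) ∩ {y | y.1 = 0} with hK₂
    have hK₂c : IsCompact K₂ := by
      refine IsCompact.inter_right ?_ (isClosed_eq continuous_fst continuous_const)
      exact hfin.isCompact_biUnion fun a _ => k.cpt.image (D.act a).continuous
    have hcl : IsClosed (s.h '' K₂) := (hK₂c.image hs).isClosed
    have hsub : H ∩ Metric.ball w 1 ⊆ s.h '' K₂ := by
      rintro _ ⟨⟨z, rfl⟩, hz⟩
      refine ⟨(0, z), ⟨?_, rfl⟩, rfl⟩
      have hz' : ‖s.h (0, z)‖ ≤ ‖w‖ + 1 := by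
        have h1 : dist (s.h (0, z)) w < 1 := hz
        rw [dist_eq_norm] at h1
        have h2 : ‖s.h (0, z)‖ ≤ ‖s.h (0, z) - w‖ + ‖w‖ := by
          calc ‖s.h (0, z)‖ = ‖(s.h (0, z) - w) + w‖ := by rw [sub_add_cancel]
            _ ≤ _ := norm_add_le _ _
        linarith
      have hκ : k.κ (0, z) ∈ F := by
        change ‖C.ι (k.κ (0, z))‖ ≤ s.B + (‖w‖ + 1)
        have h1 := s.near (0, z)
        have h2 : ‖C.ι (k.κ (0, z))‖ ≤ ‖s.h (0, z) - C.ι (k.κ (0, z))‖ + ‖s.h (0, z)‖ := by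
          calc ‖C.ι (k.κ (0, z))‖ = ‖s.h (0, z) - (s.h (0, z) - C.ι (k.κ (0, z)))‖ := by
                congr 1; abel
            _ ≤ ‖s.h (0, z)‖ + ‖s.h (0, z) - C.ι (k.κ (0, z))‖ := norm_sub_le _ _
            _ = _ := by ring
        linarith
      simp only [Set.mem_iUnion]
      refine ⟨k.κ (0, z), hκ, D.act (-k.κ (0, z)) (0, z), k.mem _, ?_⟩
      rw [← D.act_add, add_neg_cancel, D.act_zero]
    have hw2 : w ∈ closure (H ∩ Metric.ball w 1) := by
      rw [Metric.mem_closure_iff] at hw ⊢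
      intro ε hε
      obtain ⟨b, hb, hwb⟩ := hw (min ε 1) (lt_min hε one_pos)
      refine ⟨b, ⟨hb, ?_⟩, lt_of_lt_of_le hwb (min_le_left _ _)⟩
      rw [Metric.mem_ball, dist_comm]
      exact lt_of_lt_of_le hwb (min_le_right _ _)
    have hw3 : w ∈ s.h '' K₂ := (closure_minimal hsub hcl) hw2
    obtain ⟨y, ⟨_, hy⟩, rfl⟩ := hw3
    refine ⟨y.2, ?_⟩
    have hy' : y.1 = 0 := hy
    change s.h (0, y.2) = s.h y
    rw [← hy']
  -- density
  have hdense : ∀ w, C.tR w = 0 → w ∈ H := by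
    intro w hw
    obtain ⟨z₀⟩ := ‹Nonempty Z›
    rw [← hclosed.closure_eq, Metric.mem_closure_iff]
    intro ε hε
    set w' := w - s.h (0, z₀) with hw'
    have hw'k : C.tR w' = 0 := by
      rw [hw', map_sub, hw, s.tR_h]
      simp
    have ht : Tendsto (fun n : ℕ => |M| * (1 / 2 : ℝ) ^ n * ‖πc‖) atTop (𝓝 0) := by
      have h1 : Tendsto (fun n : ℕ => (1 / 2 : ℝ) ^ n) atTop (𝓝 0) :=
        tendsto_pow_atTop_nhds_zero_of_lt_one (by norm_num) (by norm_num)
      have h2 := (h1.const_mul |M|).mul_const ‖πc‖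
      simpa using h2
    obtain ⟨n, hn⟩ := (ht.eventually (gt_mem_nhds hε)).exists
    set v := C.Φ.symm^[n] w' with hv
    have hvk : C.tR v = 0 := ker_symm C n w' hw'k
    set c : Fin C.m → ℤ := fun i => ⌊v i⌋ with hcdef
    set a := C.b.symm c with ha
    have hιa : C.ι a = fun i => (c i : ℝ) := by
      funext i
      simp [Coo.ι, ha]
    have hva : ‖v - C.ι a‖ ≤ 1 := by
      rw [pi_norm_le_iff_of_nonneg zero_le_one]
      intro i
      rw [hιa, Pi.sub_apply, Real.norm_eq_abs, hcdef]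
      have h1 := Int.floor_le (v i)
      have h2 := Int.lt_floor_add_one (v i)
      rw [abs_le]
      constructor <;> linarith
    have h1 := hM n (π (v - C.ι a)) (hπ_ker _)
    have h2 : C.Φ^[n] (π (v - C.ι a)) = w' - π (C.ι (D.φ^[n] a)) := by
      rw [hπ_Φ, iter_sub', hv, iter_symm, map_sub, hπ_of_ker w' hw'k, iter_ι]
    refine ⟨s.h (0, D.σ (D.φ^[n] a) z₀), ⟨_, rfl⟩, ?_⟩
    rw [hinv, dist_eq_norm]
    have h3 : w - (s.h (0, z₀) + π (C.ι (D.φ^[n] a))) = w' - π (C.ι (D.φ^[n] a)) := by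
      rw [hw']; abel
    rw [h3, ← h2]
    refine lt_of_le_of_lt (h1.trans ?_) hn
    have hp : (0 : ℝ) ≤ (1 / 2) ^ n := by positivity
    have h4 : ‖π (v - C.ι a)‖ ≤ ‖πc‖ := by
      refine (hπ_le _).trans ?_
      have := norm_nonneg πc
      nlinarith
    calc M * (1 / 2) ^ n * ‖π (v - C.ι a)‖ ≤ |M| * (1 / 2) ^ n * ‖π (v - C.ι a)‖ := by
          gcongr
          exact le_abs_self M
      _ ≤ |M| * (1 / 2) ^ n * ‖πc‖ := by gcongr
  intro v
  obtain ⟨z, hz⟩ := hdense (v - l.l (C.tR v)) (by rw [map_sub, l.tR_l, sub_self])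
  refine ⟨(C.tR v, z), ?_⟩
  have h1 := l.h_eq (C.tR v) z 0
  rw [add_zero] at h1
  have hz' : s.h (0, z) = v - l.l (C.tR v) := hz
  rw [h1, hz']
  abel

end Pool.Agent.H779R2.To
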