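import Pool.Agent.H779R2.To.TBasis
import Pool.Agent.H779R2.To.TCoo
import Pool.Agent.H779R2.To.TKap
import Pool.Agent.H779R2.To.TContr
import Pool.Agent.H779R2.To.TSemi
import Pool.Agent.H779R2.To.TEll
import Pool.Agent.H779R2.To.TInj
import Pool.Agent.H779R2.To.TCont
import Pool.Agent.H779R2.To.TSurj
import Pool.Agent.H779R2.To.THomeo
import Pool.Agent.H779R2.To.THyp

set_option autoImplicit false

namespace Pool.Agent.H779R2.To

open Filter Topology

variable {V Z Γ : Type*} [NormedAddCommGroup V] [NormedSpace ℝ V] [MetricSpace Z]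
    [AddCommGroup Γ]

/-- The conjugacy on the universal cover. -/
theorem exists_conj [FiniteDimensional ℝ V] [LocallyCompactSpace Z] [ConnectedSpace Z]
    (D : TDat V Z Γ) : ∃ (C : Coo D) (h : V × Z ≃ₜ (Fin C.m → ℝ)),
      (∀ a y, h (D.act a y) = h y + C.ι a) ∧ (∀ y, h (D.gt y) = C.Φ (h y)) ∧
      ∀ v : Fin C.m → ℝ, (∃ M : ℝ, ∀ n : ℕ, ‖C.Φ^[n] v‖ ≤ M ∧ ‖C.Φ.symm^[n] v‖ ≤ M) → v = 0 := by
  have hne : Nonempty Z := ConnectedSpace.toNonempty
  obtain ⟨m, ⟨b⟩⟩ := exists_basis D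
  obtain ⟨C⟩ := exists_coo D b
  obtain ⟨k⟩ := exists_kap C
  have hc := contr k
  obtain ⟨s⟩ := exists_semi k hc
  obtain ⟨l⟩ := exists_ell hc s
  have hs := semi_cont hc s l
  obtain ⟨h, hh⟩ := semi_homeo s hs (semi_inj s) (semi_surj hc s l hs)
  refine ⟨C, h, fun a y => ?_, fun y => ?_, hyp_of_contr hc⟩
  · rw [hh, hh, s.act]
  · rw [hh, hh, s.gt]

end Pool.Agent.H779R2.To
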